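import Pool.Agent.NH85.ML.Defs
import Pool.Agent.TH365.J3099

/-!
# Job 194 (MLX-3, MP_af4c59_nt): `WrIffX` and `MidUniqueX`

Galois groups equal to `C₂ ≀ H` for `H` a group of permutations.
-/

set_option autoImplicit false

open IntermediateField Pool.Agent.TH365.J3099

namespace Pool.Agent.NH85.ML

/-! ### the wreath product -/

section wr

variable {X : Type}

/-- the permutation `(x, b) ↦ (h x, f x b)` -/
def wrP (p : Equiv.Perm X × (X → Equiv.Perm Bool)) : Equiv.Perm (X × Bool) where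
  toFun x := (p.1 x.1, p.2 x.1 x.2)
  invFun y := (p.1.symm y.1, (p.2 (p.1.symm y.1)).symm y.2)
  left_inv x := by simp
  right_inv y := by simp

theorem wrP_apply (p : Equiv.Perm X × (X → Equiv.Perm Bool)) (x : X × Bool) :
    wrP p x = (p.1 x.1, p.2 x.1 x.2) := rfl

theorem wrP_injective : Function.Injective (wrP (X := X)) := by
  rintro ⟨h, f⟩ ⟨h', f'⟩ e
  have e1 : ∀ x : X × Bool, wrP (h, f) x = wrP (h', f') x := fun x => by rw [e]
  have h1 : h = h' := by
    ext x
    exact congrArg Prod.fst (e1 (x, true))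
  subst h1
  have h2 : f = f' := by
    funext x
    ext b
    exact congrArg Prod.snd (e1 (x, b))
  rw [h2]

theorem image_wrP (H : Subgroup (Equiv.Perm X)) :
    wrP '' ((H : Set (Equiv.Perm X)) ×ˢ Set.univ) = (W2 H : Set (Equiv.Perm (X × Bool))) := by
  ext π
  constructor
  · rintro ⟨⟨h, f⟩, ⟨hh, -⟩, rfl⟩
    exact ⟨h, hh, fun x => rfl⟩
  · rintro ⟨h, hh, h1⟩
    have inj : ∀ x : X, Function.Injective (fun b : Bool => (π (x, b)).2) := by
      intro x b b' hb
      have : π (x, b) = π (x, b') := by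
        apply Prod.ext
        · rw [h1, h1]
        · exact hb
      have := π.injective this
      exact congrArg Prod.snd this
    refine ⟨(h, fun x => Equiv.ofBijective _ (Finite.injective_iff_bijective.1 (inj x))),
      ⟨hh, Set.mem_univ _⟩, ?_⟩
    ext1 x
    apply Prod.ext
    · rw [wrP_apply, h1]
    · rw [wrP_apply]
      rfl

theorem ncard_W2 [Finite X] (H : Subgroup (Equiv.Perm X)) :
    (W2 H : Set (Equiv.Perm (X × Bool))).ncard = 2 ^ Nat.card X * Nat.card H := by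
  classical
  have : Fintype X := Fintype.ofFinite X
  rw [← image_wrP, Set.ncard_image_of_injective _ wrP_injective, Set.ncard_prod,
    Set.ncard_univ, Nat.card_fun, mul_comm]
  congr 1
  rw [Nat.card_eq_fintype_card (α := Equiv.Perm Bool), Fintype.card_perm]
  simp

end wr

/-! ### embeddings -/

section emb

variable {K Ω : Type} [Field K] [Field Ω] [Algebra K Ω]

/-- restriction of an embedding -/
def res {M L : IntermediateField K Ω} (h : M ≤ L) (φ : L →ₐ[K] Ω) : M →ₐ[K] Ω :=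
  φ.comp (IntermediateField.inclusion h)

theorem res_apply {M L : IntermediateField K Ω} (h : M ≤ L) (φ : L →ₐ[K] Ω) (m : M) :
    res h φ m = φ ⟨m, h m.2⟩ := rfl

theorem res_act {M L : IntermediateField K Ω} (h : M ≤ L) (σ : Ω ≃ₐ[K] Ω) (φ : L →ₐ[K] Ω) :
    res h (act L σ φ) = act M σ (res h φ) := rfl

theorem act_val_eq_iff (L : IntermediateField K Ω) (σ τ : Ω ≃ₐ[K] Ω) :
    act L σ L.val = act L τ L.val ↔ τ⁻¹ * σ ∈ L.fixingSubgroup := by
  rw [IntermediateField.mem_fixingSubgroup_iff]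
  constructor
  · intro h x hx
    have h1 := congrArg (fun f : L →ₐ[K] Ω => f ⟨x, hx⟩) h
    simp only [act_apply_apply] at h1
    change σ x = τ x at h1
    change τ⁻¹ (σ x) = x
    rw [h1]
    exact τ.symm_apply_apply x
  · intro h
    ext x
    rw [act_apply_apply, act_apply_apply]
    change σ x = τ x
    have h1 := h x.1 x.2
    change τ⁻¹ (σ x) = x at h1
    exact (AlgEquiv.symm_apply_eq τ).1 h1

theorem exists_act [Normal K Ω] (L : IntermediateField K Ω) (φ : L →ₐ[K] Ω) :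
    ∃ σ : Ω ≃ₐ[K] Ω, act L σ L.val = φ := by
  have hb : Function.Bijective (AlgHom.liftNormal φ Ω : Ω →ₐ[K] Ω) :=
    Algebra.IsAlgebraic.algHom_bijective _
  refine ⟨AlgEquiv.ofBijective (AlgHom.liftNormal φ Ω) hb, ?_⟩
  ext x
  rw [act_apply_apply]
  exact AlgHom.liftNormal_commutes φ Ω x

theorem exists_act_of [Normal K Ω] (L : IntermediateField K Ω) (φ ψ : L →ₐ[K] Ω) :
    ∃ σ : Ω ≃ₐ[K] Ω, act L σ φ = ψ := by
  obtain ⟨s, hs⟩ := exists_act L φ
  obtain ⟨t, ht⟩ := exists_act L ψ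
  refine ⟨t * s⁻¹, ?_⟩
  rw [← hs, ← Equiv.Perm.mul_apply, ← map_mul, inv_mul_cancel_right, ht]

theorem exists_res [Normal K Ω] {M L : IntermediateField K Ω} (h : M ≤ L) (φ : M →ₐ[K] Ω) :
    ∃ ψ : L →ₐ[K] Ω, res h ψ = φ := by
  obtain ⟨σ, hσ⟩ := exists_act M φ
  refine ⟨act L σ L.val, ?_⟩
  rw [res_act, ← hσ]
  rfl

theorem card_emb [CharZero K] [IsAlgClosed Ω] (L : IntermediateField K Ω)
    [FiniteDimensional K L] : Nat.card (L →ₐ[K] Ω) = Module.finrank K L := by
  rw [← AlgHom.card K L Ω, Nat.card_eq_fintype_card]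

/-- the embeddings of `L` as pairs -/
theorem exists_split [CharZero K] [IsAlgClosed Ω] [Normal K Ω] {M L : IntermediateField K Ω}
    (h : M ≤ L) [FiniteDimensional K L] [FiniteDimensional K M]
    (hLM : Module.finrank K L = 2 * Module.finrank K M) :
    ∃ F : (L →ₐ[K] Ω) ≃ (M →ₐ[K] Ω) × Bool, ∀ φ, (F φ).1 = res h φ := by
  choose s hs using exists_act M
  have hres : ∀ φ : L →ₐ[K] Ω, res h (act L (s (res h φ))⁻¹ φ) = M.val := by
    intro φ
    rw [res_act, map_inv]
    rw [Equiv.Perm.inv_eq_iff_eq]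
    exact (hs _).symm
  let F : (L →ₐ[K] Ω) ≃ (M →ₐ[K] Ω) × {φ : L →ₐ[K] Ω // res h φ = M.val} :=
    { toFun := fun φ => (res h φ, ⟨act L (s (res h φ))⁻¹ φ, hres φ⟩)
      invFun := fun p => act L (s p.1) p.2.1
      left_inv := fun φ => by
        change act L (s (res h φ)) (act L (s (res h φ))⁻¹ φ) = φ
        rw [← Equiv.Perm.mul_apply, ← map_mul, mul_inv_cancel, map_one, Equiv.Perm.one_apply]
      right_inv := fun p => by
        obtain ⟨a, φ, hφ⟩ := p
        have h1 : res h (act L (s a) φ) = a := by rw [res_act, hφ, hs]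
        apply Prod.ext
        · exact h1
        · apply Subtype.ext
          change act L (s (res h (act L (s a) φ)))⁻¹ (act L (s a) φ) = φ
          rw [h1, ← Equiv.Perm.mul_apply, ← map_mul, inv_mul_cancel, map_one,
            Equiv.Perm.one_apply] }
  have hfin : Finite (L →ₐ[K] Ω) := inferInstance
  have hMpos : 0 < Module.finrank K M := Module.finrank_pos
  have hc2 : Nat.card {φ : L →ₐ[K] Ω // res h φ = M.val} = Nat.card Bool := by
    have h1 := Nat.card_congr F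
    rw [Nat.card_prod, card_emb, card_emb, hLM, mul_comm] at h1
    have h2 := Nat.eq_of_mul_eq_mul_left hMpos h1
    rw [← h2]
    simp
  let β : {φ : L →ₐ[K] Ω // res h φ = M.val} ≃ Bool := (Finite.card_eq.1 hc2).some
  exact ⟨F.trans (Equiv.prodCongr (Equiv.refl _) β), fun φ => rfl⟩

theorem exists_other [CharZero K] [IsAlgClosed Ω] [Normal K Ω] {M L : IntermediateField K Ω}
    (h : M ≤ L) [FiniteDimensional K L] [FiniteDimensional K M]
    (hLM : Module.finrank K L = 2 * Module.finrank K M) (φ : L →ₐ[K] Ω) :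
    ∃ ψ : L →ₐ[K] Ω, ψ ≠ φ ∧ res h ψ = res h φ := by
  obtain ⟨F, hF⟩ := exists_split h hLM
  refine ⟨F.symm ((F φ).1, !(F φ).2), ?_, ?_⟩
  · intro he
    have h1 := congrArg (fun p => (F p).2) he
    simp at h1
  · rw [← hF, ← hF, Equiv.apply_symm_apply]

end emb

/-! ### the two directions -/

section main

variable {K Ω : Type} [Field K] [CharZero K] [Field Ω] [Algebra K Ω] [IsAlgClosure K Ω]
variable {X : Type} [Finite X] {H : Subgroup (Equiv.Perm X)}

theorem forwardX (L : IntermediateField K Ω) (hL : L ∈ GalX K Ω (W2 H)) :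
    ∃ M, MidX K Ω H L M := by
  obtain ⟨hfd, e, he⟩ := hL
  have i1 : IsAlgClosed Ω := IsAlgClosure.isAlgClosed K
  have i2 : Normal K Ω := IsAlgClosure.normal K Ω
  have i3 : Algebra.IsAlgebraic K Ω := IsAlgClosure.isAlgebraic
  have i4 : Algebra.IsSeparable K Ω := inferInstance
  have i5 : IsGalois K Ω := ⟨⟩
  let P : (Ω ≃ₐ[K] Ω) →* Equiv.Perm (X × Bool) := e.permCongrHom.toMonoidHom.comp (act L)
  have hP : ∀ (σ : Ω ≃ₐ[K] Ω) (φ : L →ₐ[K] Ω), e (act L σ φ) = P σ (e φ) := by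
    intro σ φ
    change _ = e (act L σ (e.symm (e φ)))
    rw [Equiv.symm_apply_apply]
  have hPW : ∀ σ, P σ ∈ W2 H := fun σ => (he _).2 ⟨σ, fun φ => hP σ φ⟩
  choose q hqH hq using hPW
  let h : (Ω ≃ₐ[K] Ω) →* Equiv.Perm X :=
    { toFun := q
      map_one' := by
        ext x
        have h1 := hq 1 (x, true)
        rw [map_one] at h1
        exact h1.symm
      map_mul' := fun σ τ => by
        ext x
        have h1 := hq (σ * τ) (x, true)
        rw [map_mul, Equiv.Perm.mul_apply, hq, hq] at h1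
        exact h1.symm }
  have hh : ∀ σ (x : X × Bool), (P σ x).1 = h σ x.1 := fun σ x => hq σ x
  have hhH : ∀ σ, h σ ∈ H := hqH
  have hs : ∀ a ∈ H, ∃ σ, h σ = a := by
    intro a ha
    obtain ⟨σ, hσ⟩ := (he (wrP (a, 1))).1 ⟨a, ha, fun x => rfl⟩
    refine ⟨σ, ?_⟩
    ext x
    have h1 := hσ (e.symm (x, true))
    rw [← act_apply, hP, Equiv.apply_symm_apply] at h1
    have h2 := hh σ (x, true)
    rw [h1] at h2
    exact h2.symm
  obtain ⟨x0, hx0⟩ : ∃ x0, x0 = (e L.val).1 := ⟨_, rfl⟩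
  obtain ⟨U, hU⟩ : ∃ U : Subgroup (Ω ≃ₐ[K] Ω), ∀ σ, σ ∈ U ↔ h σ x0 = x0 :=
    ⟨(MulAction.stabilizer (Equiv.Perm X) x0).comap h, fun σ => Iff.rfl⟩
  have hker : L.fixingSubgroup ≤ U := by
    intro σ hσ
    rw [hU]
    have h1 : act L σ L.val = L.val := by
      ext x
      rw [act_apply_apply]
      rw [IntermediateField.mem_fixingSubgroup_iff] at hσ
      exact hσ _ x.2
    have h2 := hP σ L.val
    rw [h1] at h2
    have h3 := hh σ (e L.val)
    rw [← h2, ← hx0] at h3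
    exact h3.symm
  have hopen : IsOpen (U : Set (Ω ≃ₐ[K] Ω)) :=
    Subgroup.isOpen_mono hker L.fixingSubgroup_isOpen
  have hclosed : IsClosed (U : Set (Ω ≃ₐ[K] Ω)) := Subgroup.isClosed_of_isOpen _ hopen
  obtain ⟨M, hMdef⟩ : ∃ M, M = fixedField U := ⟨_, rfl⟩
  have hM : M.fixingSubgroup = U := by
    rw [hMdef]
    exact InfiniteGalois.fixingSubgroup_fixedField ⟨U, hclosed⟩
  have hML : M ≤ L := by
    rw [← InfiniteGalois.fixedField_fixingSubgroup L, hMdef]
    intro x hx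
    rw [mem_fixedField_iff] at hx ⊢
    exact fun σ hσ => hx σ (hker hσ)
  have hMfd : FiniteDimensional K M := by
    rw [← InfiniteGalois.isOpen_iff_finite, hM]
    exact hopen
  choose s hs1 using exists_act M
  have hwd : ∀ σ τ, act M σ M.val = act M τ M.val ↔ h σ x0 = h τ x0 := by
    intro σ τ
    rw [act_val_eq_iff, hM, hU, map_mul, map_inv, Equiv.Perm.mul_apply,
      Equiv.Perm.inv_eq_iff_eq]
  let f : (M →ₐ[K] Ω) → X := fun φ => h (s φ) x0
  have hf : ∀ σ, f (act M σ M.val) = h σ x0 := by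
    intro σ
    exact (hwd _ _).1 (hs1 _)
  have hf2 : ∀ σ φ, f (act M σ φ) = h σ (f φ) := by
    intro σ φ
    have h1 : act M σ φ = act M (σ * s φ) M.val := by
      rw [map_mul, Equiv.Perm.mul_apply, hs1]
    rw [h1, hf, map_mul, Equiv.Perm.mul_apply]
  have hinj : Function.Injective f := by
    intro φ ψ hφψ
    have h1 := (hwd (s φ) (s ψ)).2 hφψ
    rwa [hs1, hs1] at h1
  have hsurj : Function.Surjective f := by
    intro x
    obtain ⟨σ, hσ⟩ := exists_act L (e.symm (x, true))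
    refine ⟨act M σ M.val, ?_⟩
    rw [hf, hx0, ← hh, ← hP, hσ, Equiv.apply_symm_apply]
  let eM : (M →ₐ[K] Ω) ≃ X := Equiv.ofBijective f ⟨hinj, hsurj⟩
  have heM : ∀ φ, eM φ = f φ := fun φ => rfl
  have hG : ∀ π : Equiv.Perm X, π ∈ H ↔
      ∃ σ : Ω ≃ₐ[K] Ω, ∀ φ : M →ₐ[K] Ω, eM (σ.toAlgHom.comp φ) = π (eM φ) := by
    intro π
    constructor
    · intro hπ
      obtain ⟨σ, rfl⟩ := hs π hπ
      exact ⟨σ, fun φ => hf2 σ φ⟩
    · rintro ⟨σ, hσ⟩
      have h1 : π = h σ := by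
        ext x
        obtain ⟨φ, rfl⟩ := hsurj x
        have h2 := hσ φ
        rw [heM, heM, ← act_apply, hf2] at h2
        exact h2.symm
      rw [h1]
      exact hhH σ
  have hcM : Module.finrank K M = Nat.card X := by
    rw [← card_emb, Nat.card_congr eM]
  have hcL : Module.finrank K L = 2 * Nat.card X := by
    rw [← card_emb, Nat.card_congr e, Nat.card_prod, mul_comm]
    simp
  refine ⟨M, ⟨hMfd, eM, hG⟩, hML, hfd, by rw [hcL, hcM], ?_⟩
  have h1 : imP L e = (W2 H : Set (Equiv.Perm (X × Bool))) := by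
    ext π
    exact (he π).symm
  have h2 : imP M eM = (H : Set (Equiv.Perm X)) := by
    ext π
    exact (hG π).symm
  rw [← ncard_imP L e, h1, ncard_W2, hcM, ← ncard_imP M eM, h2]
  rfl

theorem backwardX_aux (L M : IntermediateField K Ω) (h : MidX K Ω H L M) :
    ∃ (eM : (M →ₐ[K] Ω) ≃ X) (e : (L →ₐ[K] Ω) ≃ X × Bool),
      (∀ φ, (e φ).1 = eM (res h.2.1 φ)) ∧ ∀ π : Equiv.Perm (X × Bool), π ∈ W2 H ↔
    ∃ σ : Ω ≃ₐ[K] Ω, ∀ φ : L →ₐ[K] Ω, e (σ.toAlgHom.comp φ) = π (e φ) := by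
  obtain ⟨⟨hMfd, eM, hG⟩, hML, hLfd, hLM, hN⟩ := h
  have i1 : IsAlgClosed Ω := IsAlgClosure.isAlgClosed K
  have i2 : Normal K Ω := IsAlgClosure.normal K Ω
  have i3 : Algebra.IsAlgebraic K Ω := IsAlgClosure.isAlgebraic
  have i4 : Algebra.IsSeparable K Ω := inferInstance
  have i5 : IsGalois K Ω := ⟨⟩
  obtain ⟨F, hF⟩ := exists_split hML hLM
  let e : (L →ₐ[K] Ω) ≃ X × Bool := F.trans (Equiv.prodCongr eM (Equiv.refl Bool))
  have he1 : ∀ φ, (e φ).1 = eM (res hML φ) := fun φ => by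
    rw [← hF]
    rfl
  refine ⟨eM, e, he1, fun π => ?_⟩
  have hsub : imP L e ⊆ (W2 H : Set (Equiv.Perm (X × Bool))) := by
    rintro π ⟨σ, hσ⟩
    refine ⟨eM.permCongr (act M σ), ?_, fun x => ?_⟩
    · refine (hG _).2 ⟨σ, fun φ => ?_⟩
      rw [Equiv.permCongr_apply, Equiv.symm_apply_apply, act_apply]
    · obtain ⟨φ, rfl⟩ := e.surjective x
      rw [← hσ φ, ← act_apply, he1, he1, res_act, Equiv.permCongr_apply, Equiv.symm_apply_apply]
  have h2 : imP M eM = (H : Set (Equiv.Perm X)) := by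
    ext π
    exact (hG π).symm
  have hcM : Module.finrank K M = Nat.card X := by
    rw [← card_emb, Nat.card_congr eM]
  have heq : imP L e = (W2 H : Set (Equiv.Perm (X × Bool))) := by
    apply Set.eq_of_subset_of_ncard_le hsub
    rw [ncard_imP L e, ncard_W2, hN, hcM, ← ncard_imP M eM, h2]
    exact le_refl _
  change π ∈ (W2 H : Set (Equiv.Perm (X × Bool))) ↔ _
  rw [← heq]
  rfl

theorem backwardX (L M : IntermediateField K Ω) (h : MidX K Ω H L M) :
    L ∈ GalX K Ω (W2 H) := by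
  obtain ⟨eM, e, -, he⟩ := backwardX_aux L M h
  exact ⟨h.2.2.1, e, he⟩

theorem midX_res (L M M' : IntermediateField K Ω) (h : MidX K Ω H L M)
    (h' : MidX K Ω H L M') (φ ψ : L →ₐ[K] Ω) (hφψ : res h.2.1 φ = res h.2.1 ψ) :
    res h'.2.1 φ = res h'.2.1 ψ := by
  classical
  by_cases hne : φ = ψ
  · rw [hne]
  have i1 : IsAlgClosed Ω := IsAlgClosure.isAlgClosed K
  have i2 : Normal K Ω := IsAlgClosure.normal K Ω
  have hMfd' : FiniteDimensional K M' := h'.1.1
  have hLfd : FiniteDimensional K L := h.2.2.1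
  obtain ⟨eM, e, he1, he⟩ := backwardX_aux L M h
  have hfst : (e φ).1 = (e ψ).1 := by rw [he1, he1, hφψ]
  have hW : Equiv.swap (e φ) (e ψ) ∈ W2 H := by
    refine ⟨1, H.one_mem, fun x => ?_⟩
    rw [Equiv.Perm.one_apply]
    rcases eq_or_ne x (e φ) with hx | hx
    · rw [hx, Equiv.swap_apply_left, hfst]
    rcases eq_or_ne x (e ψ) with hy | hy
    · rw [hy, Equiv.swap_apply_right, hfst]
    rw [Equiv.swap_apply_of_ne_of_ne hx hy]
  obtain ⟨σ, hσ⟩ := (he _).1 hW
  have hσφ : act L σ φ = ψ := by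
    apply e.injective
    rw [act_apply, hσ, Equiv.swap_apply_left]
  have hσo : ∀ χ, χ ≠ φ → χ ≠ ψ → act L σ χ = χ := by
    intro χ h1 h2
    apply e.injective
    rw [act_apply, hσ, Equiv.swap_apply_of_ne_of_ne (fun h => h1 (e.injective h))
      (fun h => h2 (e.injective h))]
  obtain ⟨χ, hχ1, hχ2⟩ := exists_other h'.2.1 h'.2.2.2.1 φ
  rcases eq_or_ne χ ψ with hχ | hχ
  · rw [← hχ2, hχ]
  have h3 := congrArg (act M' σ) hχ2
  rw [← res_act, ← res_act, hσφ, hσo χ hχ1 hχ, hχ2] at h3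
  exact h3

theorem midX_le (L M M' : IntermediateField K Ω) (h : MidX K Ω H L M)
    (h' : MidX K Ω H L M') : M' ≤ M := by
  have i1 : IsAlgClosed Ω := IsAlgClosure.isAlgClosed K
  have i2 : Normal K Ω := IsAlgClosure.normal K Ω
  have i3 : Algebra.IsAlgebraic K Ω := IsAlgClosure.isAlgebraic
  have i4 : Algebra.IsSeparable K Ω := inferInstance
  have i5 : IsGalois K Ω := ⟨⟩
  rw [← InfiniteGalois.fixedField_fixingSubgroup M]
  intro x hx
  rw [mem_fixedField_iff]
  intro σ hσ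
  rw [IntermediateField.mem_fixingSubgroup_iff] at hσ
  have h1 : res h.2.1 (act L σ L.val) = res h.2.1 L.val := by
    ext m
    rw [res_act, act_apply_apply]
    exact hσ _ m.2
  have h2 := midX_res L M M' h h' _ _ h1
  have h3 := congrArg (fun f : M' →ₐ[K] Ω => f ⟨x, hx⟩) h2
  exact h3

end main

/-- extensions with group `C₂ ≀ H` -/
theorem wrIffX : WrIffX := by
  intro K Ω _ _ _ _ _ X _ H L
  constructor
  · intro h
    exact forwardX L h
  · rintro ⟨M, hM⟩
    exact backwardX L M hM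

/-- uniqueness of `M` -/
theorem midUniqueX : MidUniqueX := by
  intro K Ω _ _ _ _ _ X _ H L M M' h h'
  exact le_antisymm (midX_le L M' M h' h) (midX_le L M M' h h')

end Pool.Agent.NH85.ML
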