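import Pool.Agent.NH85.ML.Defs

/-!
# The discriminant of a compositum

(helper73 for helper85, MP_af4c59_nt.)  If `L` is generated by the images of `F₁` and `F₂` then the
different of `L` over `F₁` divides the different of `F₂`, hence
`|d_L| ≤ |d_F₁| ^ [L : F₁] |d_F₂| ^ [L : F₂]`.
-/

set_option autoImplicit false

open NumberField Module Algebra Submodule FractionalIdeal nonZeroDivisors

namespace Pool.Agent.NH85.ML

section key

variable {F₁ F₂ L : Type*} (Ω : Type*) [Field F₁] [NumberField F₁] [Field F₂] [NumberField F₂]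
    [Field L] [NumberField L] [Algebra F₁ L] [Algebra F₂ L] [Field Ω] [IsAlgClosed Ω] [CharZero Ω]

open scoped Classical in
/-- dual bases: orthogonality in the other direction -/
lemma comp_dual_orth {ι : Type*} [Fintype ι] [DecidableEq ι] (b : Basis ι ℚ F₂)
    (τ ρ : F₂ →+* Ω) :
    ∑ i, τ (b i) * ρ (b.traceDual i) = if τ = ρ then 1 else 0 := by
  let A : Matrix ι (F₂ →ₐ[ℚ] Ω) Ω := fun i σ => σ (b i)
  let B : Matrix (F₂ →ₐ[ℚ] Ω) ι Ω := fun σ i => σ (b.traceDual i)
  have h1 : A * B = 1 := by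
    ext i j
    rw [Matrix.mul_apply, Matrix.one_apply]
    have h2 := b.trace_traceDual_mul j i
    have h3 := trace_eq_sum_embeddings (K := ℚ) (L := F₂) Ω (x := b.traceDual j * b i)
    rw [h2] at h3
    simp only [A, B]
    have h4 : ∑ σ : F₂ →ₐ[ℚ] Ω, σ (b i) * σ (b.traceDual j) =
        ∑ σ : F₂ →ₐ[ℚ] Ω, σ (b.traceDual j * b i) := by
      refine Finset.sum_congr rfl fun σ _ => ?_
      rw [map_mul, mul_comm]
    rw [h4, ← h3]
    split_ifs <;> simp_all
  have hc : Fintype.card ι = Fintype.card (F₂ →ₐ[ℚ] Ω) := by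
    rw [AlgHom.card, ← Module.finrank_eq_card_basis b]
  have h5 : B * A = 1 := (Matrix.mul_eq_one_comm_of_card_eq (R := Ω) (eq := hc)).mp h1
  have h6 := congrFun (congrFun h5 ρ.toRatAlgHom) τ.toRatAlgHom
  rw [Matrix.mul_apply, Matrix.one_apply] at h6
  simp only [A, B] at h6
  have h7 : ∑ i, τ (b i) * ρ (b.traceDual i) =
      ∑ i, ρ.toRatAlgHom (b.traceDual i) * τ.toRatAlgHom (b i) := by
    refine Finset.sum_congr rfl fun i _ => ?_
    rw [mul_comm]; rfl
  rw [h7, h6]
  by_cases h : τ = ρ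
  · rw [if_pos h, h, if_pos rfl]
  · rw [if_neg h, if_neg]
    intro h'
    apply h
    ext x
    exact (DFunLike.congr_fun h' x).symm

/-- expansion of an element of the compositum in the dual basis -/
lemma comp_key [Algebra L Ω]
    (hgen : ∀ S : Subfield L, (∀ x : F₁, algebraMap F₁ L x ∈ S) →
      (∀ x : F₂, algebraMap F₂ L x ∈ S) → S = ⊤)
    {ι : Type*} [Fintype ι] [DecidableEq ι] (b : Basis ι ℚ F₂) (z : L) :
    z = ∑ i, algebraMap F₁ L (Algebra.trace F₁ L (z * algebraMap F₂ L (b i))) *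
      algebraMap F₂ L (b.traceDual i) := by
  classical
  let : Algebra F₁ Ω := ((algebraMap L Ω).comp (algebraMap F₁ L)).toAlgebra
  have : IsScalarTower F₁ L Ω := IsScalarTower.of_algebraMap_eq fun x => rfl
  have : FiniteDimensional F₁ L := Module.Finite.of_restrictScalars_finite ℚ F₁ L
  apply (algebraMap L Ω).injective
  rw [map_sum]
  have h1 : ∀ i, algebraMap L Ω (algebraMap F₁ L
      (Algebra.trace F₁ L (z * algebraMap F₂ L (b i))) * algebraMap F₂ L (b.traceDual i)) =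
      ∑ σ : L →ₐ[F₁] Ω, σ z * (((σ : L →+* Ω).comp (algebraMap F₂ L)) (b i) *
        ((algebraMap L Ω).comp (algebraMap F₂ L)) (b.traceDual i)) := by
    intro i
    rw [map_mul, ← IsScalarTower.algebraMap_apply F₁ L Ω, trace_eq_sum_embeddings Ω,
      Finset.sum_mul]
    refine Finset.sum_congr rfl fun σ _ => ?_
    rw [map_mul, mul_assoc]
    rfl
  rw [Finset.sum_congr rfl fun i _ => h1 i, Finset.sum_comm]
  have h2 : ∀ σ : L →ₐ[F₁] Ω, ∑ i, σ z * (((σ : L →+* Ω).comp (algebraMap F₂ L)) (b i) *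
        ((algebraMap L Ω).comp (algebraMap F₂ L)) (b.traceDual i)) =
      σ z * if (σ : L →+* Ω).comp (algebraMap F₂ L) = (algebraMap L Ω).comp (algebraMap F₂ L)
        then 1 else 0 := by
    intro σ
    rw [← Finset.mul_sum, comp_dual_orth]
  rw [Finset.sum_congr rfl fun σ _ => h2 σ]
  rw [Finset.sum_eq_single (IsScalarTower.toAlgHom F₁ L Ω)]
  · rw [if_pos]
    · simp
    · ext x
      simp
  · intro σ _ hσ
    rw [if_neg, mul_zero]
    intro h
    apply hσ
    have h3 := hgen (RingHom.eqLocusField (σ : L →+* Ω) (algebraMap L Ω))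
      (fun x => by
        change (σ : L →+* Ω) (algebraMap F₁ L x) = algebraMap L Ω (algebraMap F₁ L x)
        rw [← IsScalarTower.algebraMap_apply]
        exact σ.commutes x)
      (fun x => DFunLike.congr_fun h x)
    ext x
    have h4 : x ∈ RingHom.eqLocusField (σ : L →+* Ω) (algebraMap L Ω) := by
      rw [h3]; trivial
    exact h4
  · intro h
    exact absurd (Finset.mem_univ _) h

end key

section ideals

variable {F₁ F₂ L : Type*} [Field F₁] [NumberField F₁] [Field F₂] [NumberField F₂]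
    [Field L] [NumberField L] [Algebra F₁ L] [Algebra F₂ L]

lemma comp_traceDual_le
    (hgen : ∀ S : Subfield L, (∀ x : F₁, algebraMap F₁ L x ∈ S) →
      (∀ x : F₂, algebraMap F₂ L x ∈ S) → S = ⊤) :
    ((traceDual (𝓞 F₁) F₁ (1 : Submodule (𝓞 L) L)).restrictScalars (𝓞 F₁)) ≤
      span (𝓞 F₁) (algebraMap F₂ L '' (traceDual ℤ ℚ (1 : Submodule (𝓞 F₂) F₂))) := by
  classical
  intro x hx
  rw [comp_key (AlgebraicClosure L) hgen (integralBasis F₂) x]
  refine Submodule.sum_mem _ fun i _ => ?_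
  have h1 : Algebra.trace F₁ L (x * algebraMap F₂ L (integralBasis F₂ i)) ∈
      (algebraMap (𝓞 F₁) F₁).range := by
    refine mem_traceDual.mp hx _ ?_
    rw [mem_one, integralBasis_apply]
    exact ⟨algebraMap (𝓞 F₂) (𝓞 L) (RingOfIntegers.basis F₂ i), rfl⟩
  obtain ⟨y, hy⟩ := h1
  rw [← hy, ← IsScalarTower.algebraMap_apply, ← Algebra.smul_def]
  refine Submodule.smul_mem _ _ (Submodule.subset_span ⟨_, ?_, rfl⟩)
  rw [SetLike.mem_coe, ← Submodule.restrictScalars_mem ℤ]
  rw [traceDual_span_of_basis ℤ (1 : Submodule (𝓞 F₂) F₂) (integralBasis F₂)]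
  · exact Submodule.subset_span ⟨i, rfl⟩
  · ext z
    rw [mem_span_integralBasis]
    simp [mem_one]

attribute [local instance] FractionRing.liftAlgebra

lemma comp_diff_dvd
    (hgen : ∀ S : Subfield L, (∀ x : F₁, algebraMap F₁ L x ∈ S) →
      (∀ x : F₂, algebraMap F₂ L x ∈ S) → S = ⊤) :
    differentIdeal (𝓞 F₁) (𝓞 L) ∣ Ideal.map (algebraMap (𝓞 F₂) (𝓞 L)) (differentIdeal ℤ (𝓞 F₂)) := by
  have : FiniteDimensional F₁ L := Module.Finite.of_restrictScalars_finite ℚ F₁ L
  have : FiniteDimensional F₂ L := Module.Finite.of_restrictScalars_finite ℚ F₂ L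
  rw [Ideal.dvd_iff_le, ← coeIdeal_le_coeIdeal L, coeIdeal_differentIdeal (𝓞 F₁) F₁ L (𝓞 L),
    ← extendedHom_coeIdeal_eq_map L (𝓞 L) (K := F₂), le_inv_comm _ (by simp), ← map_inv₀,
    coeIdeal_differentIdeal ℤ ℚ, inv_inv, ← coe_le_coe, coe_dual_one, coe_extendedHom_eq_span,
    ← coeToSet_coeToSubmodule, coe_dual_one]
  · have := Submodule.span_mono (R := 𝓞 L) <| comp_traceDual_le hgen
    rwa [← span_coe_eq_restrictScalars, span_span_of_tower, span_span_of_tower, span_eq] at this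
  · exact (_root_.map_ne_zero _).mpr <| coeIdeal_eq_zero.not.mpr differentIdeal_ne_bot

lemma comp_discr_le
    (hgen : ∀ S : Subfield L, (∀ x : F₁, algebraMap F₁ L x ∈ S) →
      (∀ x : F₂, algebraMap F₂ L x ∈ S) → S = ⊤) :
    (discr L).natAbs ≤
      (discr F₁).natAbs ^ Module.finrank F₁ L * (discr F₂).natAbs ^ Module.finrank F₂ L := by
  have : FiniteDimensional F₁ L := Module.Finite.of_restrictScalars_finite ℚ F₁ L
  have : FiniteDimensional F₂ L := Module.Finite.of_restrictScalars_finite ℚ F₂ L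
  have h1 := natAbs_discr_eq_absNorm_differentIdeal_mul_natAbs_discr_pow F₁ (𝓞 F₁) L (𝓞 L)
  rw [h1, mul_comm]
  refine Nat.mul_le_mul_left _ ?_
  have h2 : Ideal.absNorm (Ideal.map (algebraMap (𝓞 F₂) (𝓞 L)) (differentIdeal ℤ (𝓞 F₂))) =
      (discr F₂).natAbs ^ Module.finrank F₂ L := by
    rw [Ideal.absNorm_algebraMap, absNorm_differentIdeal F₂,
      ← IsFractionRing.finrank_eq (𝓞 F₂) F₂ (𝓞 L) L]
  rw [← h2]
  refine Nat.le_of_dvd ?_ (map_dvd _ (comp_diff_dvd hgen))
  rw [h2]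
  exact pow_pos (Int.natAbs_pos.mpr (discr_ne_zero F₂)) _

end ideals

theorem compDisc : CompDisc := by
  intro F₁ F₂ L _ _ _ _ _ _ _ _ hgen
  exact comp_discr_le hgen

end Pool.Agent.NH85.ML
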