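import Pool.Agent.NH85.ML.Defs
import Pool.Agent.TH365.J3099
import Pool.Agent.TH228.J3101

/-!
# Few extensions with group `H`

(job MLX-5, helper68)
-/

set_option autoImplicit false
set_option linter.unusedSectionVars false

open NumberField Filter Topology IntermediateField

namespace Pool.Agent.NH85.ML

open Pool.Agent.TH444.ML
open Pool.Agent.TH365.J3099 (act act_apply act_apply_apply ker_act)
open Pool.Agent.TH228.J3101 (nf dsc_eq one_le main)

section grp

variable {K Ω : Type} [Field K] [NumberField K] [Field Ω] [Algebra K Ω] [IsAlgClosure K Ω]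
  {X : Type} {H : Subgroup (Equiv.Perm X)} {M : IntermediateField K Ω}

lemma few_gal (K Ω : Type) [Field K] [NumberField K] [Field Ω] [Algebra K Ω]
    [IsAlgClosure K Ω] : IsGalois K Ω := by
  have : Normal K Ω := IsAlgClosure.normal K Ω
  exact ⟨⟩

/-- the homomorphism onto `H` -/
noncomputable def fewHom (e : (M →ₐ[K] Ω) ≃ X) (he : ∀ π : Equiv.Perm X, π ∈ H ↔
    ∃ σ : Ω ≃ₐ[K] Ω, ∀ φ : M →ₐ[K] Ω, e (σ.toAlgHom.comp φ) = π (e φ)) : (Ω ≃ₐ[K] Ω) →* H :=
  (e.permCongrHom.toMonoidHom.comp (act M)).codRestrict H fun σ => (he _).2 ⟨σ, fun φ => by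
    change _ = e (act M σ (e.symm (e φ)))
    rw [Equiv.symm_apply_apply, act_apply]⟩

lemma fewHom_apply (e : (M →ₐ[K] Ω) ≃ X) (he : ∀ π : Equiv.Perm X, π ∈ H ↔
    ∃ σ : Ω ≃ₐ[K] Ω, ∀ φ : M →ₐ[K] Ω, e (σ.toAlgHom.comp φ) = π (e φ)) (σ : Ω ≃ₐ[K] Ω) (x : X) :
    (fewHom e he σ : Equiv.Perm X) x = e (act M σ (e.symm x)) := rfl

lemma fewHom_surj (e : (M →ₐ[K] Ω) ≃ X) (he : ∀ π : Equiv.Perm X, π ∈ H ↔
    ∃ σ : Ω ≃ₐ[K] Ω, ∀ φ : M →ₐ[K] Ω, e (σ.toAlgHom.comp φ) = π (e φ)) :
    Function.Surjective (fewHom e he) := by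
  rintro ⟨π, hπ⟩
  obtain ⟨σ, hσ⟩ := (he π).1 hπ
  refine ⟨σ, Subtype.ext (Equiv.ext fun x => ?_)⟩
  rw [fewHom_apply, act_apply, hσ, Equiv.apply_symm_apply]

lemma fewHom_ker (e : (M →ₐ[K] Ω) ≃ X) (he : ∀ π : Equiv.Perm X, π ∈ H ↔
    ∃ σ : Ω ≃ₐ[K] Ω, ∀ φ : M →ₐ[K] Ω, e (σ.toAlgHom.comp φ) = π (e φ)) :
    (fewHom e he).ker = (normalClosure K M Ω).fixingSubgroup := by
  rw [← ker_act]
  ext σ
  rw [MonoidHom.mem_ker, MonoidHom.mem_ker]
  constructor
  · intro h
    refine Equiv.ext fun φ => ?_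
    have h1 := congrArg (fun h : H => (h : Equiv.Perm X) (e φ)) h
    simp only [fewHom_apply, Equiv.symm_apply_apply] at h1
    exact e.injective h1
  · intro h
    refine Subtype.ext (Equiv.ext fun x => ?_)
    rw [fewHom_apply, h]
    simp

/-- the Galois group of the normal closure -/
lemma few_iso [FiniteDimensional K M] (e : (M →ₐ[K] Ω) ≃ X) (he : ∀ π : Equiv.Perm X, π ∈ H ↔
    ∃ σ : Ω ≃ₐ[K] Ω, ∀ φ : M →ₐ[K] Ω, e (σ.toAlgHom.comp φ) = π (e φ)) :
    Nonempty ((normalClosure K M Ω ≃ₐ[K] normalClosure K M Ω) ≃* H) := by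
  have := few_gal K Ω
  have h1 : (AlgEquiv.restrictNormalHom (F := K) (K₁ := Ω) (normalClosure K M Ω)).ker =
      (normalClosure K M Ω).fixingSubgroup := restrictNormalHom_ker _
  have h2 : Function.Surjective
      (AlgEquiv.restrictNormalHom (F := K) (K₁ := Ω) (normalClosure K M Ω)) :=
    AlgEquiv.restrictNormalHom_surjective Ω
  exact ⟨(QuotientGroup.quotientKerEquivOfSurjective _ h2).symm.trans
    ((QuotientGroup.quotientMulEquivOfEq (h1.trans (fewHom_ker e he).symm)).trans
      (QuotientGroup.quotientKerEquivOfSurjective _ (fewHom_surj e he)))⟩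

/-- the compositum of the conjugates attached to `B` -/
noncomputable def fewC (e : (M →ₐ[K] Ω) ≃ X) (B : Finset X) : IntermediateField K Ω :=
  ⨆ x ∈ B, (e.symm x).fieldRange

lemma fewC_le (e : (M →ₐ[K] Ω) ≃ X) (B : Finset X) : fewC e B ≤ normalClosure K M Ω :=
  iSup₂_le fun x _ => AlgHom.fieldRange_le_normalClosure (e.symm x)

lemma fewC_eq (e : (M →ₐ[K] Ω) ≃ X) (he : ∀ π : Equiv.Perm X, π ∈ H ↔
    ∃ σ : Ω ≃ₐ[K] Ω, ∀ φ : M →ₐ[K] Ω, e (σ.toAlgHom.comp φ) = π (e φ)) (B : Finset X)
    (hB : ∀ h ∈ H, (∀ x ∈ B, h x = x) → h = 1) : fewC e B = normalClosure K M Ω := by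
  have := few_gal K Ω
  apply le_antisymm (fewC_le e B)
  have h1 : (fewC e B).fixingSubgroup ≤ (normalClosure K M Ω).fixingSubgroup := by
    rw [← fewHom_ker e he]
    intro σ hσ
    rw [MonoidHom.mem_ker]
    refine Subtype.ext (hB _ (fewHom e he σ).2 fun x hx => ?_)
    rw [fewHom_apply]
    have h2 : act M σ (e.symm x) = e.symm x := by
      ext y
      rw [act_apply_apply]
      rw [IntermediateField.mem_fixingSubgroup_iff] at hσ
      exact hσ _ ((le_iSup₂_of_le (f := fun (x : X) (_ : x ∈ B) => (e.symm x).fieldRange)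
        x hx le_rfl) ⟨y, rfl⟩)
    rw [h2, Equiv.apply_symm_apply]
  rw [← InfiniteGalois.fixedField_fixingSubgroup (normalClosure K M Ω),
    ← InfiniteGalois.fixedField_fixingSubgroup (fewC e B)]
  exact IntermediateField.fixedField_antitone h1

end grp

section disc

variable {K Ω : Type} [Field K] [NumberField K] [Field Ω] [Algebra K Ω] [IsAlgClosure K Ω]

open Classical in
/-- the absolute value of the discriminant, as a natural number -/
noncomputable def dnF (F : IntermediateField K Ω) : ℕ :=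
  if h : NumberField F then (@discr F _ h).natAbs else 1

lemma dnF_eq (F : IntermediateField K Ω) [h : NumberField F] : dnF F = (discr F).natAbs := by
  unfold dnF
  rw [dif_pos h]

lemma dsc_dnF (F : IntermediateField K Ω) : dsc F = (dnF F : ℝ) := by
  unfold dsc dnF
  split_ifs with h
  · rw [← Int.natCast_natAbs, Int.cast_natCast]
  · rw [Nat.cast_one]

lemma one_le_dnF (F : IntermediateField K Ω) : 1 ≤ dnF F := by
  unfold dnF
  split_ifs with h
  · exact Int.natAbs_pos.2 (discr_ne_zero F)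
  · exact le_rfl

lemma few_range (M : IntermediateField K Ω) [FiniteDimensional K M] (φ : M →ₐ[K] Ω) :
    FiniteDimensional K φ.fieldRange ∧ Module.finrank K φ.fieldRange = Module.finrank K M ∧
      dnF φ.fieldRange = dnF M := by
  have e : M ≃ₐ[K] φ.fieldRange := AlgEquiv.ofInjectiveField φ
  have h1 : FiniteDimensional K φ.fieldRange := e.toLinearEquiv.finiteDimensional
  have h2 : NumberField M := nf M
  have h3 : NumberField φ.fieldRange := nf φ.fieldRange
  refine ⟨h1, e.toLinearEquiv.finrank_eq.symm, ?_⟩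
  rw [dnF_eq, dnF_eq, discr_eq_discr_of_ringEquiv M e.toRingEquiv]

lemma few_comp (hc : CompDisc) (F₁ F₂ : IntermediateField K Ω) [FiniteDimensional K F₁]
    [FiniteDimensional K F₂] : ∃ a b : ℕ,
      Module.finrank K F₁ * a = Module.finrank K (F₁ ⊔ F₂ : IntermediateField K Ω) ∧
      Module.finrank K F₂ * b = Module.finrank K (F₁ ⊔ F₂ : IntermediateField K Ω) ∧
      dnF (F₁ ⊔ F₂) ≤ dnF F₁ ^ a * dnF F₂ ^ b := by
  set L : IntermediateField K Ω := F₁ ⊔ F₂ with hL
  have h1 : F₁ ≤ L := le_sup_left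
  have h2 : F₂ ≤ L := le_sup_right
  have n1 : NumberField F₁ := nf F₁
  have n2 : NumberField F₂ := nf F₂
  have hfd : FiniteDimensional K L := by
    rw [hL]
    infer_instance
  have n3 : NumberField L := nf L
  let a1 : Algebra F₁ L := (inclusion h1).toRingHom.toAlgebra
  let a2 : Algebra F₂ L := (inclusion h2).toRingHom.toAlgebra
  have t1 : IsScalarTower K F₁ L := IsScalarTower.of_algebraMap_eq fun x => rfl
  have t2 : IsScalarTower K F₂ L := IsScalarTower.of_algebraMap_eq fun x => rfl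
  refine ⟨Module.finrank F₁ L, Module.finrank F₂ L, Module.finrank_mul_finrank K F₁ L,
    Module.finrank_mul_finrank K F₂ L, ?_⟩
  rw [dnF_eq, dnF_eq, dnF_eq]
  refine hc F₁ F₂ L fun S hS1 hS2 => ?_
  rw [eq_top_iff]
  rintro y -
  set T : IntermediateField K Ω := (S.map (L.val : L →+* Ω)).toIntermediateField (fun x => by
    refine ⟨algebraMap K L x, ?_, rfl⟩
    have := hS1 (algebraMap K F₁ x)
    rwa [← IsScalarTower.algebraMap_apply] at this) with hT
  have h3 : L ≤ T := by
    rw [hL]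
    refine sup_le (fun x hx => ?_) (fun x hx => ?_)
    · exact ⟨algebraMap F₁ L ⟨x, hx⟩, hS1 ⟨x, hx⟩, rfl⟩
    · exact ⟨algebraMap F₂ L ⟨x, hx⟩, hS2 ⟨x, hx⟩, rfl⟩
  obtain ⟨z, hz, hzy⟩ := h3 y.2
  have : z = y := Subtype.ext hzy
  rw [← this]
  exact hz

lemma fewC_disc (hc : CompDisc) {X : Type} (M : IntermediateField K Ω) [FiniteDimensional K M]
    (e : (M →ₐ[K] Ω) ≃ X) (B : Finset X) (hB : B.Nonempty) :
    FiniteDimensional K (fewC e B) ∧
    dnF (fewC e B) ^ Module.finrank K M ≤ dnF M ^ (B.card * Module.finrank K (fewC e B)) := by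
  classical
  induction hB using Finset.Nonempty.cons_induction with
  | singleton x =>
      have h1 : fewC e {x} = (e.symm x).fieldRange := by
        unfold fewC
        simp
      obtain ⟨h2, h3, h4⟩ := few_range M (e.symm x)
      rw [h1, h3, h4, Finset.card_singleton, one_mul]
      exact ⟨h2, le_rfl⟩
  | cons x B hx hB ih =>
      obtain ⟨ih1, ih2⟩ := ih
      obtain ⟨h2, h3, h4⟩ := few_range M (e.symm x)
      have h1 : fewC e (Finset.cons x B hx) = (e.symm x).fieldRange ⊔ fewC e B := by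
        unfold fewC
        rw [Finset.cons_eq_insert, Finset.iSup_insert]
      obtain ⟨a, b, h5, h6, h7⟩ := few_comp hc (e.symm x).fieldRange (fewC e B)
      rw [h1, Finset.card_cons]
      refine ⟨inferInstance, ?_⟩
      set l := Module.finrank K ((e.symm x).fieldRange ⊔ fewC e B : IntermediateField K Ω)
      rw [h3] at h5
      rw [h4] at h7
      calc dnF ((e.symm x).fieldRange ⊔ fewC e B) ^ Module.finrank K M
          ≤ (dnF M ^ a * dnF (fewC e B) ^ b) ^ Module.finrank K M := Nat.pow_le_pow_left h7 _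
        _ = dnF M ^ l * (dnF (fewC e B) ^ Module.finrank K M) ^ b := by
            rw [mul_pow, ← pow_mul, ← pow_mul, ← pow_mul, ← h5, mul_comm a, mul_comm b]
        _ ≤ dnF M ^ l * (dnF M ^ (B.card * Module.finrank K (fewC e B))) ^ b :=
            Nat.mul_le_mul_left _ (Nat.pow_le_pow_left ih2 _)
        _ = dnF M ^ ((B.card + 1) * l) := by
            rw [← pow_mul, ← pow_add, mul_assoc, h6]
            congr 1
            ring

end disc

section fin

variable {K Ω : Type} [Field K] [NumberField K] [Field Ω] [Algebra K Ω] [IsAlgClosure K Ω]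
  {X : Type} [Finite X] {H : Subgroup (Equiv.Perm X)}

lemma few_key (hc : CompDisc) (U : Subgroup H) (B : Finset X) (hU : U.normalCore = ⊥)
    (hB : ∀ h ∈ H, (∀ x ∈ B, h x = x) → h = 1) (hBn : B.Nonempty)
    (hcard : 8 * U.index * (U.index + 1) * B.card ≤ Nat.card X) (M : IntermediateField K Ω)
    (hM : M ∈ GalX K Ω H) :
    ∃ F : IntermediateField K Ω, FiniteDimensional K F ∧ Module.finrank K F = U.index ∧
      normalClosure K F Ω = normalClosure K M Ω ∧ dnF F ^ (8 * (U.index + 1)) ≤ dnF M := by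
  obtain ⟨hfd, e, he⟩ := hM
  obtain ⟨g⟩ := few_iso e he
  have hgal := few_gal K Ω
  have hac : IsAlgClosed Ω := IsAlgClosure.isAlgClosed K
  have hD : Module.finrank K M = Nat.card X := by
    rw [← Nat.card_congr e, Nat.card_eq_fintype_card, AlgHom.card]
  obtain ⟨F, h1, h2, h3, h4, h5⟩ := main (normalClosure K M Ω) g U hU
  refine ⟨F, h1, h2, ?_, ?_⟩
  · exact h5 _ inferInstance (le_normalClosure F) (normalClosure_le_iff_of_normal.2 h3)
  · obtain ⟨-, h6⟩ := fewC_disc hc M e B hBn
    rw [fewC_eq e he B hB] at h6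
    have h7 : Module.finrank K (normalClosure K M Ω) = U.index * Nat.card U := by
      rw [← IsGalois.card_aut_eq_finrank, Nat.card_congr g.toEquiv, Subgroup.index_mul_card]
    have h8 : dnF F ^ Nat.card U ≤ dnF (normalClosure K M Ω) := by
      rw [dsc_dnF, dsc_dnF] at h4
      exact_mod_cast h4
    have h9 : (dnF F ^ Module.finrank K M) ^ Nat.card U ≤
        (dnF M ^ (B.card * U.index)) ^ Nat.card U := by
      calc (dnF F ^ Module.finrank K M) ^ Nat.card U
          = (dnF F ^ Nat.card U) ^ Module.finrank K M := by rw [← pow_mul, ← pow_mul, mul_comm]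
        _ ≤ dnF (normalClosure K M Ω) ^ Module.finrank K M := Nat.pow_le_pow_left h8 _
        _ ≤ dnF M ^ (B.card * Module.finrank K (normalClosure K M Ω)) := h6
        _ = _ := by rw [h7, ← pow_mul, mul_assoc]
    have h10 : dnF F ^ Module.finrank K M ≤ dnF M ^ (B.card * U.index) :=
      (Nat.pow_le_pow_iff_left Nat.card_pos.ne').1 h9
    have h11 : (dnF F ^ (8 * (U.index + 1))) ^ (B.card * U.index) ≤
        dnF M ^ (B.card * U.index) := by
      rw [← pow_mul]
      refine le_trans (Nat.pow_le_pow_right (one_le_dnF F) ?_) h10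
      rw [hD]
      calc 8 * (U.index + 1) * (B.card * U.index) = 8 * U.index * (U.index + 1) * B.card := by ring
        _ ≤ _ := hcard
    have hu : 0 < U.index := Nat.pos_of_ne_zero Subgroup.index_ne_zero_of_finite
    exact (Nat.pow_le_pow_iff_left (Nat.mul_pos hBn.card_pos hu).ne').1 h11

lemma few_fib (N : IntermediateField K Ω) [FiniteDimensional K N] [IsGalois K N]
    (g : (N ≃ₐ[K] N) ≃* H) (s : Finset (IntermediateField K Ω)) (hs : ∀ M ∈ s, M ≤ N) :
    s.card ≤ Nat.card (Subgroup H) := by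
  classical
  have : Fintype (Subgroup H) := Fintype.ofFinite _
  rw [Nat.card_eq_fintype_card, ← Finset.card_univ]
  refine Finset.card_le_card_of_injOn
    (fun M => g.mapSubgroup ((M.comap N.val).fixingSubgroup)) (fun _ _ => Finset.mem_univ _) ?_
  intro M1 h1 M2 h2 h12
  have h3 : (M1.comap N.val).fixingSubgroup = (M2.comap N.val).fixingSubgroup :=
    g.mapSubgroup.injective h12
  have h4 : M1.comap N.val = M2.comap N.val := by
    rw [← IsGalois.fixedField_fixingSubgroup (M1.comap N.val), h3,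
      IsGalois.fixedField_fixingSubgroup]
  ext x
  constructor
  · intro hx
    have h5 : (⟨x, hs M1 h1 hx⟩ : N) ∈ M1.comap N.val := hx
    rw [h4] at h5
    exact h5
  · intro hx
    have h5 : (⟨x, hs M2 h2 hx⟩ : N) ∈ M2.comap N.val := hx
    rw [← h4] at h5
    exact h5

end fin

/-- **Few extensions with group `H`.** -/
theorem fewX (hc : CompDisc) (hh : HermiteRel) : FewX := by
  intro K Ω _ _ _ _ _ X _ H U B hU hB hcard
  have hgal := few_gal K Ω
  rcases B.eq_empty_or_nonempty with hBe | hBn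
  · subst hBe
    have : Subsingleton (GalX K Ω H) := by
      have h1 : ∀ M : GalX K Ω H, M.1 = ⊥ := by
        rintro ⟨M, hfd, e, he⟩
        have h2 := fewC_eq e he ∅ hB
        have h3 : fewC e ∅ = ⊥ := by
          unfold fewC
          simp
        rw [h3] at h2
        rw [eq_bot_iff, h2]
        exact le_normalClosure M
      exact ⟨fun M1 M2 => Subtype.ext ((h1 M1).trans (h1 M2).symm)⟩
    exact Summable.of_finite
  obtain ⟨C, hC⟩ := hh K Ω U.index
  have key := fun M : GalX K Ω H => few_key hc U B hU hB hBn hcard M.1 M.2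
  choose F hfd hfr hN hdsc using key
  have hnF : ∀ M, NumberField (F M) := fun M => by have := hfd M; exact nf _
  set g : GalX K Ω H → ℕ := fun M => dnF (F M) with hg
  have hg1 : ∀ M, 1 ≤ g M := fun M => one_le_dnF (F M)
  have hbound : ∀ M : GalX K Ω H, (dsc M.1) ^ (-(1 / 4) : ℝ) ≤
      (1 : ℝ) / (g M : ℝ) ^ (2 * U.index + 2) := by
    intro M
    have h1 : (1 : ℝ) ≤ g M := by exact_mod_cast hg1 M
    have h2 : (g M : ℝ) ^ (8 * (U.index + 1)) ≤ dsc M.1 := by
      rw [dsc_dnF]
      exact_mod_cast hdsc M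
    have h3 : ((g M : ℝ) ^ (8 * (U.index + 1))) ^ (-(1 / 4) : ℝ) =
        (1 : ℝ) / (g M : ℝ) ^ (2 * U.index + 2) := by
      have h4 : (1 : ℝ) / (g M : ℝ) ^ (2 * U.index + 2) =
          (g M : ℝ) ^ (-((2 * U.index + 2 : ℕ) : ℝ)) := by
        rw [Real.rpow_neg (by positivity), Real.rpow_natCast, one_div]
      rw [h4, ← Real.rpow_natCast, ← Real.rpow_mul (by positivity)]
      congr 1
      push_cast
      ring
    rw [← h3]
    exact Real.rpow_le_rpow_of_nonpos (by positivity) h2 (by norm_num)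
  set cH : ℕ := Nat.card (Subgroup H) with hcH
  have hfib : ∀ (s : Finset (GalX K Ω H)) (F0 : IntermediateField K Ω),
      (∀ M ∈ s, F M = F0) → s.card ≤ cH := by
    classical
    intro s F0 hs
    rcases s.eq_empty_or_nonempty with h0 | ⟨M0, hM0⟩
    · rw [h0, Finset.card_empty]
      exact Nat.zero_le _
    · obtain ⟨hfd0, e0, he0⟩ := M0.2
      obtain ⟨g0⟩ := few_iso e0 he0
      have h1 := few_fib (normalClosure K M0.1 Ω) g0 (s.map ⟨Subtype.val, Subtype.val_injective⟩)
        (fun M' hM' => by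
          rw [Finset.mem_map] at hM'
          obtain ⟨M, hM, rfl⟩ := hM'
          change M.1 ≤ _
          have h2 : normalClosure K M.1 Ω = normalClosure K M0.1 Ω := by
            rw [← hN M, ← hN M0, hs M hM, hs M0 hM0]
          rw [← h2]
          exact le_normalClosure M.1)
      rwa [Finset.card_map] at h1
  have hC0 : ∀ m : ℕ, 1 ≤ m → ∀ s : Finset (GalX K Ω H), (∀ M ∈ s, g M = m) →
      (s.card : ℝ) ≤ cH * (C * (m : ℝ) ^ (2 * U.index)) := by
    classical
    intro m hm s hs
    obtain ⟨hfin, hle⟩ := hC m (by exact_mod_cast hm)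
    have h0 : s.card ≤ cH * (s.image F).card := by
      refine Finset.card_le_mul_card_image s cH fun F0 _ => hfib _ F0 fun M hM => ?_
      exact (Finset.mem_filter.1 hM).2
    have h1 : (s.image F).card ≤ Set.ncard {F : IntermediateField K Ω |
        FiniteDimensional K F ∧ Module.finrank K F = U.index ∧ dsc F ≤ (m : ℝ)} := by
      rw [← Set.ncard_coe_finset]
      refine Set.ncard_le_ncard ?_ hfin
      intro x hx
      rw [Finset.mem_coe, Finset.mem_image] at hx
      obtain ⟨M, hM, rfl⟩ := hx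
      refine ⟨hfd M, hfr M, ?_⟩
      rw [dsc_dnF, ← hs M hM]
    calc (s.card : ℝ) ≤ ((cH * (s.image F).card : ℕ) : ℝ) := by exact_mod_cast h0
      _ = (cH : ℝ) * ((s.image F).card : ℝ) := by push_cast; ring
      _ ≤ cH * (C * (m : ℝ) ^ (2 * U.index)) := by
        refine mul_le_mul_of_nonneg_left ?_ (Nat.cast_nonneg _)
        refine le_trans ?_ hle
        exact_mod_cast h1
  have hC' : 0 ≤ cH * |C| := mul_nonneg (Nat.cast_nonneg _) (abs_nonneg C)
  have hsum2 : Summable (fun m : ℕ => (1 : ℝ) / (m : ℝ) ^ 2) :=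
    Real.summable_one_div_nat_pow.2 (by norm_num)
  refine Summable.of_nonneg_of_le (fun M => ?_) hbound ?_
  · exact Real.rpow_nonneg (by rw [dsc_dnF]; positivity) _
  refine summable_of_sum_le (c := cH * |C| * ∑' m : ℕ, (1 : ℝ) / (m : ℝ) ^ 2)
    (fun M => by positivity) ?_
  intro s
  classical
  calc ∑ M ∈ s, (1 : ℝ) / (g M : ℝ) ^ (2 * U.index + 2)
      = ∑ m ∈ s.image g, ∑ M ∈ s with g M = m, (1 : ℝ) / (g M : ℝ) ^ (2 * U.index + 2) :=
        (Finset.sum_fiberwise_of_maps_to (fun M hM => Finset.mem_image_of_mem g hM) _).symm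
    _ ≤ ∑ m ∈ s.image g, cH * |C| * ((1 : ℝ) / (m : ℝ) ^ 2) := by
        refine Finset.sum_le_sum fun m hm => ?_
        obtain ⟨M0, hM0, hM0'⟩ := Finset.mem_image.1 hm
        have hm1 : 1 ≤ m := hM0' ▸ hg1 M0
        have hmpos : (0 : ℝ) < m := by exact_mod_cast hm1
        have e1 : ∑ M ∈ s with g M = m, (1 : ℝ) / (g M : ℝ) ^ (2 * U.index + 2) =
            ((s.filter (fun M => g M = m)).card : ℝ) * (1 / (m : ℝ) ^ (2 * U.index + 2)) := by
          rw [Finset.sum_congr rfl (g := fun _ => (1 : ℝ) / (m : ℝ) ^ (2 * U.index + 2)),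
            Finset.sum_const, nsmul_eq_mul]
          intro M hM
          rw [(Finset.mem_filter.1 hM).2]
        rw [e1]
        calc ((s.filter (fun M => g M = m)).card : ℝ) * (1 / (m : ℝ) ^ (2 * U.index + 2))
            ≤ (cH * (|C| * (m : ℝ) ^ (2 * U.index))) * (1 / (m : ℝ) ^ (2 * U.index + 2)) := by
              refine mul_le_mul_of_nonneg_right ?_ (by positivity)
              refine (hC0 m hm1 _ fun M hM => (Finset.mem_filter.1 hM).2).trans ?_
              refine mul_le_mul_of_nonneg_left ?_ (Nat.cast_nonneg _)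
              exact mul_le_mul_of_nonneg_right (le_abs_self C) (by positivity)
          _ = cH * |C| * ((1 : ℝ) / (m : ℝ) ^ 2) := by
              rw [pow_add]
              field_simp
    _ = cH * |C| * ∑ m ∈ s.image g, (1 : ℝ) / (m : ℝ) ^ 2 := by rw [Finset.mul_sum]
    _ ≤ cH * |C| * ∑' m : ℕ, (1 : ℝ) / (m : ℝ) ^ 2 := by
        refine mul_le_mul_of_nonneg_left ?_ hC'
        exact hsum2.sum_le_tsum _ (fun m _ => by positivity)

end Pool.Agent.NH85.ML
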