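import Pool.Agent.NH85.ML.Defs
import Pool.Agent.TH9.J3098

/-!
# The squarefree part of an `α` with a product of conjugates a square is bad (helper17)
-/

set_option autoImplicit false

open NumberField

namespace Pool.Agent.NH85.ML

open Pool.Agent.TH444.ML UniqueFactorizationMonoid
open Pool.Agent.TH9.J3098 (v v_mul v_prod v_zero)

namespace SB

section

variable {K M N : Type} [Field K] [NumberField K] [Field M] [NumberField M] [Field N]
  [NumberField N] [Algebra K M] [Algebra K N]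

/-- the homomorphism of rings of integers induced by an embedding -/
noncomputable def om (φ : M →ₐ[K] N) : 𝓞 M →+* 𝓞 N := RingOfIntegers.mapRingHom (φ : M →+* N)

omit [NumberField K] [NumberField M] [NumberField N] in
lemma coe_om (φ : M →ₐ[K] N) (x : 𝓞 M) : ((om φ x : 𝓞 N) : N) = φ (x : M) := rfl

omit [NumberField K] [NumberField M] [NumberField N] in
lemma om_inj (φ : M →ₐ[K] N) : Function.Injective (om φ) := by
  intro x y h
  have h1 : φ (x : M) = φ (y : M) := by rw [← coe_om, ← coe_om, h]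
  exact RingOfIntegers.ext (φ.injective h1)

omit [NumberField K] [NumberField M] [NumberField N] in
lemma om_alg (φ : M →ₐ[K] N) (x : 𝓞 K) :
    om φ (algebraMap (𝓞 K) (𝓞 M) x) = algebraMap (𝓞 K) (𝓞 N) x := by
  apply RingOfIntegers.ext
  rw [coe_om]
  exact φ.commutes (x : K)

lemma under_om (φ : M →ₐ[K] N) (Q : Ideal (𝓞 N)) :
    (Q.comap (om φ)).under (𝓞 K) = Q.under (𝓞 K) := by
  ext x
  rw [Ideal.under_def, Ideal.under_def, Ideal.mem_comap, Ideal.mem_comap, Ideal.mem_comap, om_alg]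

lemma om_mem (φ : M →ₐ[K] N) {p : Ideal (𝓞 K)} {Q : Ideal (𝓞 N)} (hQ : Q ∈ p.primesOver (𝓞 N)) :
    Q.comap (om φ) ∈ p.primesOver (𝓞 M) := by
  have hQ1 : Q.IsPrime := hQ.1
  refine ⟨Ideal.comap_isPrime _ _, ⟨?_⟩⟩
  rw [under_om]
  exact hQ.2.over

lemma om_mem' (φ : M →ₐ[K] N) {p : Ideal (𝓞 K)} {Q : Ideal (𝓞 N)} (hQ1 : Q.IsPrime)
    (h : Q.comap (om φ) ∈ p.primesOver (𝓞 M)) : Q ∈ p.primesOver (𝓞 N) := by
  refine ⟨hQ1, ⟨?_⟩⟩
  rw [← under_om φ]
  exact h.2.over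

lemma exists_over (φ : M →ₐ[K] N) (P : Ideal (𝓞 M)) [hP : P.IsPrime] :
    ∃ Q : Ideal (𝓞 N), Q.IsPrime ∧ Q.comap (om φ) = P := by
  let _ : Algebra (𝓞 M) (𝓞 N) := (om φ).toAlgebra
  have hint : Algebra.IsIntegral (𝓞 M) (𝓞 N) := by
    constructor
    intro x
    have h1 : IsIntegral ℤ x := Algebra.IsIntegral.isIntegral x
    obtain ⟨f, hf, hf2⟩ := h1
    refine ⟨f.map (algebraMap ℤ (𝓞 M)), hf.map _, ?_⟩
    rw [Polynomial.eval₂_map]
    have h2 : (algebraMap (𝓞 M) (𝓞 N)).comp (algebraMap ℤ (𝓞 M)) = algebraMap ℤ (𝓞 N) :=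
      RingHom.ext_int _ _
    rw [h2]
    exact hf2
  obtain ⟨Q, -, hQ, hQ2⟩ := Ideal.exists_ideal_over_prime_of_isIntegral (S := 𝓞 N) P ⊥ (by
    intro x hx
    rw [Ideal.mem_comap, Ideal.mem_bot] at hx
    have h1 : om φ x = om φ 0 := by rw [map_zero]; exact hx
    rw [om_inj φ h1]
    exact Ideal.zero_mem _)
  exact ⟨Q, hQ, hQ2⟩

/-- the ring automorphism of the ring of integers induced by an automorphism -/
noncomputable abbrev g (σ : N ≃ₐ[K] N) : 𝓞 N ≃ₐ[𝓞 K] 𝓞 N := galRestrict (𝓞 K) K N (𝓞 N) σ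

lemma comap_comp (σ : N ≃ₐ[K] N) (φ : M →ₐ[K] N) (Q : Ideal (𝓞 N)) :
    Q.comap (om (σ.toAlgHom.comp φ)) = (Q.comap (g σ)).comap (om φ) := by
  ext x
  rw [Ideal.mem_comap, Ideal.mem_comap, Ideal.mem_comap]
  have : om (σ.toAlgHom.comp φ) x = g σ (om φ x) := by
    apply RingOfIntegers.ext
    rw [coe_om]
    exact (algebraMap_galRestrict_apply (𝓞 K) σ (om φ x)).symm
  rw [this]

lemma om_bij [IsGalois K N] (hcard : Nat.card (M →ₐ[K] N) = Module.finrank K M)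
    {p : Ideal (𝓞 K)} (hsplit : Set.ncard (p.primesOver (𝓞 M)) = Module.finrank K M)
    (φ₀ : M →ₐ[K] N) {Q : Ideal (𝓞 N)} (hQ : Q ∈ p.primesOver (𝓞 N)) {φ ψ : M →ₐ[K] N}
    (h : Q.comap (om φ) = Q.comap (om ψ)) : φ = ψ := by
  let Φ : (M →ₐ[K] N) → p.primesOver (𝓞 M) := fun φ => ⟨Q.comap (om φ), om_mem φ hQ⟩
  have hsurj : Function.Surjective Φ := by
    rintro ⟨P', hP'⟩
    have hP'1 : P'.IsPrime := hP'.1
    obtain ⟨Q', hQ', hQ'2⟩ := exists_over φ₀ P'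
    have hQ'3 : Q' ∈ p.primesOver (𝓞 N) := om_mem' φ₀ hQ' (by rw [hQ'2]; exact hP')
    obtain ⟨σ, hσ⟩ := Ideal.exists_comap_galRestrict_eq (𝓞 K) K N (𝓞 N) hQ hQ'3
    refine ⟨σ.toAlgHom.comp φ₀, Subtype.ext ?_⟩
    change Q.comap (om (σ.toAlgHom.comp φ₀)) = P'
    rw [comap_comp, hσ, hQ'2]
  have hfin : Finite (M →ₐ[K] N) := by
    apply Nat.finite_of_card_ne_zero
    rw [hcard]
    exact Module.finrank_pos.ne'
  have hb : Function.Bijective Φ := by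
    refine hsurj.bijective_of_nat_card_le ?_
    rw [Nat.card_coe_set_eq, hcard, hsplit]
  exact hb.1 (Subtype.ext h)

lemma split_N [IsGalois K N] (hcard : Nat.card (M →ₐ[K] N) = Module.finrank K M)
    (hgen : ∀ σ : N ≃ₐ[K] N, (∀ (φ : M →ₐ[K] N) (x : M), σ (φ x) = φ x) → σ = 1)
    {p : Ideal (𝓞 K)} (hsplit : Set.ncard (p.primesOver (𝓞 M)) = Module.finrank K M)
    (φ₀ : M →ₐ[K] N) {Q : Ideal (𝓞 N)} (hQ : Q ∈ p.primesOver (𝓞 N)) :
    Set.ncard (p.primesOver (𝓞 N)) = Module.finrank K N := by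
  have hmem : ∀ (τ : 𝓞 N ≃ₐ[𝓞 K] 𝓞 N), Q.comap τ ∈ p.primesOver (𝓞 N) := by
    intro τ
    have hQ1 : Q.IsPrime := hQ.1
    have hQ2 : Q.LiesOver p := hQ.2
    refine ⟨Ideal.comap_isPrime _ _, ⟨?_⟩⟩
    rw [hQ2.over]
    ext x
    simp only [Ideal.under_def, Ideal.mem_comap]
    rw [AlgEquiv.commutes]
  let Φ : (N ≃ₐ[K] N) → p.primesOver (𝓞 N) := fun σ => ⟨Q.comap (g σ), hmem _⟩
  have hsurj : Function.Surjective Φ := by
    rintro ⟨Q', hQ'⟩
    obtain ⟨σ, hσ⟩ := Ideal.exists_comap_galRestrict_eq (𝓞 K) K N (𝓞 N) hQ hQ'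
    exact ⟨σ, Subtype.ext hσ⟩
  have hinj : Function.Injective Φ := by
    intro σ τ h
    have h1 : Q.comap (g σ) = Q.comap (g τ) := congrArg Subtype.val h
    have h2 : ∀ φ : M →ₐ[K] N, σ.toAlgHom.comp φ = τ.toAlgHom.comp φ := by
      intro φ
      apply om_bij hcard hsplit φ₀ hQ
      rw [comap_comp, comap_comp, h1]
    have h3 : τ⁻¹ * σ = 1 := by
      apply hgen
      intro φ x
      have h4 : σ (φ x) = τ (φ x) := DFunLike.congr_fun (h2 φ) x
      rw [AlgEquiv.mul_apply, h4]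
      exact τ.symm_apply_apply _
    exact (inv_mul_eq_one.mp h3).symm
  rw [← IsGalois.card_aut_eq_finrank, ← Nat.card_coe_set_eq]
  exact (Nat.card_congr (Equiv.ofBijective Φ ⟨hinj, hsurj⟩)).symm

lemma ram_one {p : Ideal (𝓞 K)} (hp : p.IsPrime) (hp0 : p ≠ ⊥)
    (hsplit : Set.ncard (p.primesOver (𝓞 N)) = Module.finrank K N) {Q : Ideal (𝓞 N)}
    (hQ : Q ∈ p.primesOver (𝓞 N)) : Ideal.ramificationIdx' p Q = 1 := by
  have : p.IsMaximal := hp.isMaximal hp0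
  have hsum := Ideal.sum_ramification_inertia (𝓞 N) K N hp0
  have hc : (IsDedekindDomain.primesOverFinset p (𝓞 N)).card = Module.finrank K N := by
    rw [← hsplit, ← IsDedekindDomain.coe_primesOverFinset hp0 (𝓞 N), Set.ncard_coe_finset]
  have hone : ∀ Q ∈ IsDedekindDomain.primesOverFinset p (𝓞 N),
      1 ≤ Ideal.ramificationIdx' p Q * Ideal.inertiaDeg' p Q := by
    intro Q hQ
    have hQ' := (IsDedekindDomain.mem_primesOverFinset_iff hp0 (𝓞 N)).mp hQ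
    have : Q.IsPrime := hQ'.1
    have : Q.LiesOver p := hQ'.2
    refine Right.one_le_mul ?_ ?_
    · exact Nat.pos_iff_ne_zero.mpr <|
        Ideal.IsDedekindDomain.ramificationIdx'_ne_zero_of_liesOver _ hp0
    · exact Nat.pos_iff_ne_zero.mpr <| Ideal.inertiaDeg'_ne_zero p Q
  have hPf : Q ∈ IsDedekindDomain.primesOverFinset p (𝓞 N) :=
    (IsDedekindDomain.mem_primesOverFinset_iff hp0 (𝓞 N)).mpr hQ
  have heq : Ideal.ramificationIdx' p Q * Ideal.inertiaDeg' p Q = 1 := by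
    by_contra hcon
    have h2 : 1 < Ideal.ramificationIdx' p Q * Ideal.inertiaDeg' p Q :=
      lt_of_le_of_ne (hone Q hPf) (Ne.symm hcon)
    have h3 : ∑ Q ∈ IsDedekindDomain.primesOverFinset p (𝓞 N), 1 <
        ∑ Q ∈ IsDedekindDomain.primesOverFinset p (𝓞 N),
          Ideal.ramificationIdx' p Q * Ideal.inertiaDeg' p Q :=
      Finset.sum_lt_sum hone ⟨Q, hPf, h2⟩
    rw [hsum, Finset.sum_const, smul_eq_mul, mul_one, hc] at h3
    exact lt_irrefl _ h3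
  exact Nat.eq_one_of_mul_eq_one_right heq

theorem main [IsGalois K N] (hcard : Nat.card (M →ₐ[K] N) = Module.finrank K M)
    (hgen : ∀ σ : N ≃ₐ[K] N, (∀ (φ : M →ₐ[K] N) (x : M), σ (φ x) = φ x) → σ = 1)
    (α : 𝓞 M) (𝔡 𝔠 : Ideal (𝓞 M)) (S : Finset (M →ₐ[K] N)) (b : N) (hα : α ≠ 0)
    (hsq : Squarefree 𝔡) (hdc : Ideal.span {α} = 𝔡 * 𝔠 ^ 2) (hS : S.Nonempty)
    (hb : b ^ 2 = ∏ φ ∈ S, φ (α : M)) : 𝔡 ∈ badId K M := by
  classical
  refine ⟨hsq, fun p hp hp0 hsplit => ?_⟩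
  rintro ⟨P, ⟨hPp, hPd⟩, huniq⟩
  obtain ⟨φ₀, hφ₀⟩ := hS
  have hPprime : P.IsPrime := hPp.1
  obtain ⟨Q, hQprime, hQP⟩ := exists_over φ₀ P
  have hQp : Q ∈ p.primesOver (𝓞 N) := om_mem' φ₀ hQprime (by rw [hQP]; exact hPp)
  have hsplitN := split_N hcard hgen hsplit φ₀ hQp
  have hram := ram_one hp hp0 hsplitN hQp
  have hspan : Ideal.span {α} ≠ ⊥ := by
    rw [Ne, Ideal.span_singleton_eq_bot]
    exact hα
  have hd0 : 𝔡 ≠ ⊥ := by
    rintro rfl
    apply hspan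
    rw [hdc, Ideal.bot_mul]
  have hc0 : 𝔠 ≠ ⊥ := by
    rintro rfl
    apply hspan
    rw [hdc]
    simp [pow_two]
  have hmap0 : ∀ (φ : M →ₐ[K] N) (I : Ideal (𝓞 M)), I ≠ ⊥ → I.map (om φ) ≠ ⊥ := by
    intro φ I hI h
    apply hI
    rwa [Ideal.map_eq_bot_iff_of_injective (om_inj φ)] at h
  have hpN0 : p.map (algebraMap (𝓞 K) (𝓞 N)) ≠ ⊥ := Ideal.map_ne_bot_of_ne_bot hp0
  have hQ0 : Q ≠ ⊥ := by
    rintro rfl
    have h1 : p = (⊥ : Ideal (𝓞 N)).under (𝓞 K) := hQp.2.over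
    apply hp0
    rw [h1]
    exact Ideal.comap_bot_of_injective _ (FaithfulSMul.algebraMap_injective (𝓞 K) (𝓞 N))
  have hvp : v Q (p.map (algebraMap (𝓞 K) (𝓞 N))) = 1 := by
    unfold v
    rw [← hram, Ideal.IsDedekindDomain.ramificationIdx'_eq_normalizedFactors_count hpN0 hQprime hQ0]
  have hP0 : P ≠ ⊥ := by
    rintro rfl
    apply hp0
    rw [hPp.2.over]
    exact Ideal.comap_bot_of_injective _ (FaithfulSMul.algebraMap_injective (𝓞 K) (𝓞 M))
  have hPQ : P.map (om φ₀) ≤ Q := by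
    rw [Ideal.map_le_iff_le_comap, hQP]
  have hvP : v Q (P.map (om φ₀)) = 1 := by
    have h1 : P ∣ p.map (algebraMap (𝓞 K) (𝓞 M)) := by
      rw [Ideal.dvd_iff_le, Ideal.map_le_iff_le_comap]
      exact hPp.2.over.le
    obtain ⟨J, hJ⟩ := h1
    have h2 : p.map (algebraMap (𝓞 K) (𝓞 N)) = P.map (om φ₀) * J.map (om φ₀) := by
      rw [← Ideal.map_mul, ← hJ, Ideal.map_map]
      congr 1
      ext x
      rw [RingHom.comp_apply, om_alg]
    have h3 : J.map (om φ₀) ≠ ⊥ := by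
      intro h
      apply hpN0
      rw [h2, h, Ideal.mul_bot]
    rw [h2, v_mul _ (hmap0 _ _ hP0) h3] at hvp
    have h4 : v Q (P.map (om φ₀)) ≠ 0 := by
      unfold v
      rw [Multiset.count_ne_zero]
      exact (Ideal.mem_normalizedFactors_iff (hmap0 _ _ hP0)).mpr ⟨hQprime, hPQ⟩
    omega
  have hcnt : ∀ φ : M →ₐ[K] N, v Q (𝔡.map (om φ)) = if φ = φ₀ then 1 else 0 := by
    intro φ
    by_cases hφ : φ = φ₀
    · rw [if_pos hφ, hφ]
      obtain ⟨𝔢, h𝔢⟩ := hPd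
      have he0 : 𝔢 ≠ ⊥ := by
        rintro rfl
        apply hd0
        rw [h𝔢, Ideal.mul_bot]
      rw [h𝔢, Ideal.map_mul, v_mul _ (hmap0 _ _ hP0) (hmap0 _ _ he0), hvP, v_zero _ _ (hmap0 _ _ he0)]
      intro h
      rw [Ideal.map_le_iff_le_comap, hQP] at h
      obtain ⟨𝔣, h𝔣⟩ := Ideal.dvd_iff_le.mpr h
      have h1 : IsUnit P := hsq P ⟨𝔣, by rw [h𝔢, h𝔣, mul_assoc]⟩
      rw [Ideal.isUnit_iff] at h1
      exact hPprime.ne_top h1
    · rw [if_neg hφ]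
      refine v_zero _ _ (hmap0 _ _ hd0) ?_
      intro h
      rw [Ideal.map_le_iff_le_comap] at h
      have h3 : Q.comap (om φ) = P :=
        huniq _ ⟨om_mem φ hQp, Ideal.dvd_iff_le.mpr h⟩
      exact hφ (om_bij hcard hsplit φ₀ hQp (h3.trans hQP.symm))
  -- the product is a square
  have hbint : IsIntegral ℤ b := by
    have h1 : IsIntegral ℤ (b ^ 2) := by
      rw [hb]
      refine IsIntegral.prod _ fun φ _ => ?_
      exact map_isIntegral_int (φ : M →+* N) α.2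
    exact IsIntegral.of_pow (by norm_num) h1
  obtain ⟨β, hβ⟩ : ∃ β : 𝓞 N, (β : N) = b := ⟨⟨b, hbint⟩, rfl⟩
  have hprod2 : ∏ φ ∈ S, om φ α = β * β := by
    apply RingOfIntegers.coe_injective
    rw [map_prod, map_mul, show algebraMap (𝓞 N) N β = b from hβ, ← pow_two, hb]
    rfl
  have hI0 : ∀ φ : M →ₐ[K] N, (Ideal.span {α}).map (om φ) ≠ ⊥ := fun φ => hmap0 φ _ hspan
  have h1 : ∏ φ ∈ S, (Ideal.span {α}).map (om φ) = Ideal.span {β} * Ideal.span {β} := by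
    rw [Ideal.span_singleton_mul_span_singleton, ← hprod2, ← Ideal.prod_span_singleton]
    refine Finset.prod_congr rfl fun φ _ => ?_
    rw [Ideal.map_span, Set.image_singleton]
  have hβ0 : Ideal.span {β} ≠ ⊥ := by
    intro h
    have h4 : ∏ φ ∈ S, (Ideal.span {α}).map (om φ) ≠ 0 :=
      Finset.prod_ne_zero_iff.mpr fun φ _ => hI0 φ
    rw [h1, h] at h4
    exact h4 (by simp)
  have h2 : v Q (∏ φ ∈ S, (Ideal.span {α}).map (om φ)) =
      v Q (Ideal.span {β}) + v Q (Ideal.span {β}) := by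
    rw [h1, v_mul _ hβ0 hβ0]
  rw [v_prod _ _ _ hI0] at h2
  have h3 : ∀ φ ∈ S, v Q ((Ideal.span {α}).map (om φ)) =
      (if φ = φ₀ then 1 else 0) + 2 * v Q (𝔠.map (om φ)) := by
    intro φ _
    rw [hdc, Ideal.map_mul, Ideal.map_pow, pow_two, v_mul _ (hmap0 _ _ hd0)
      (mul_ne_zero (hmap0 _ _ hc0) (hmap0 _ _ hc0)), v_mul _ (hmap0 _ _ hc0) (hmap0 _ _ hc0), hcnt]
    ring
  rw [Finset.sum_congr rfl h3, Finset.sum_add_distrib, Finset.sum_ite_eq', if_pos hφ₀,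
    ← Finset.mul_sum] at h2
  omega

end

end SB

theorem sqBadX : SqBadX := by
  classical
  intro K Ω _ _ _ _ _ M _ _ α 𝔡 𝔠 S b hα hsq hdc hS hbN hb
  have hAC : IsAlgClosed Ω := IsAlgClosure.isAlgClosed K
  have hnorm : Normal K Ω := IsAlgClosure.normal K Ω
  set N : IntermediateField K Ω := IntermediateField.normalClosure K M Ω with hN
  have hNF : FiniteDimensional K N := normalClosure.is_finiteDimensional K M Ω
  have hNn : Normal K N := normalClosure.normal K M Ω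
  have hNN : NumberField N := NumberField.of_module_finite K N
  have hNG : IsGalois K N := ⟨⟩
  have hle : ∀ (φ : M →ₐ[K] Ω) (x : M), φ x ∈ N := fun φ x =>
    AlgHom.fieldRange_le_normalClosure φ ⟨x, rfl⟩
  let E : (M →ₐ[K] N) ≃ (M →ₐ[K] Ω) := normalClosure.algHomEquiv K M Ω
  have hE : ∀ (φ : M →ₐ[K] Ω) (x : M), ((E.symm φ x : N) : Ω) = φ x := fun φ x => rfl
  have hE' : ∀ (φ : M →ₐ[K] N) (x : M), E φ x = ((φ x : N) : Ω) := fun φ x => rfl
  have hcard : Nat.card (M →ₐ[K] N) = Module.finrank K M := by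
    rw [Nat.card_congr E, Nat.card_eq_fintype_card, AlgHom.card]
  refine SB.main (N := N) hcard ?_ α 𝔡 𝔠 (S.map E.symm.toEmbedding) ⟨b, hbN⟩ hα hsq hdc
    (hS.map) ?_
  · intro σ hσ
    have h1 : N ≤ IntermediateField.lift (IntermediateField.fixedField (Subgroup.zpowers σ)) := by
      refine normalClosure_le_iff.mpr ?_
      rintro φ _ ⟨x, rfl⟩
      have h2 : (φ x : Ω) = ((E.symm φ x : N) : Ω) := (hE φ x).symm
      change φ x ∈ _
      rw [h2]
      refine (IntermediateField.mem_lift _).mpr ?_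
      rintro ⟨τ, hτ⟩
      obtain ⟨k, rfl⟩ := hτ
      have h3 : σ ∈ MulAction.stabilizer (N ≃ₐ[K] N) (E.symm φ x) := hσ (E.symm φ) x
      exact (MulAction.stabilizer (N ≃ₐ[K] N) (E.symm φ x)).zpow_mem h3 k
    apply AlgEquiv.ext
    intro y
    have h2 : (y : Ω) ∈ IntermediateField.lift (IntermediateField.fixedField (Subgroup.zpowers σ)) :=
      h1 y.2
    rw [IntermediateField.mem_lift] at h2
    exact h2 ⟨σ, Subgroup.mem_zpowers σ⟩
  · apply Subtype.ext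
    rw [Finset.prod_map]
    push_cast
    rw [hb]
    rfl

end Pool.Agent.NH85.ML
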