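import Pool.Agent.TH444.ML.Defs2

/-!
# Malle's conjecture for `C₂ ≀ H`, `H` any transitive permutation group : definitions

(helper85, MP_af4c59_nt.)  `K` is a number field, `Ω` its algebraic closure, `X` a finite set and
`H` a group of permutations of `X`.  The extensions `M/K` with group `H` need not be Galois.  This
extends the files `Pool/Agent/TH444/ML/*`, where `H` acts on itself by multiplication.
-/

set_option autoImplicit false

open NumberField Filter Topology

namespace Pool.Agent.NH85.ML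

open Pool.Agent.TH444.ML

/-- the Galois group of `M/K`, acting on the embeddings of `M`, is `H`, up to numbering -/
def HasG (K Ω : Type) [Field K] [Field Ω] [Algebra K Ω] {X : Type} (H : Subgroup (Equiv.Perm X))
    (M : IntermediateField K Ω) : Prop :=
  ∃ e : (M →ₐ[K] Ω) ≃ X, ∀ π : Equiv.Perm X, π ∈ H ↔
    ∃ σ : Ω ≃ₐ[K] Ω, ∀ φ : M →ₐ[K] Ω, e (σ.toAlgHom.comp φ) = π (e φ)

/-- the extensions of `K` of finite degree with group `H` -/
def GalX (K Ω : Type) [Field K] [Field Ω] [Algebra K Ω] {X : Type} (H : Subgroup (Equiv.Perm X)) :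
    Set (IntermediateField K Ω) :=
  {M | FiniteDimensional K M ∧ HasG K Ω H M}

/-- the wreath product `C₂ ≀ H` acting on `X × Bool` -/
def W2 {X : Type} (H : Subgroup (Equiv.Perm X)) : Subgroup (Equiv.Perm (X × Bool)) where
  carrier := {π | ∃ h ∈ H, ∀ x : X × Bool, (π x).1 = h x.1}
  one_mem' := ⟨1, H.one_mem, fun x => rfl⟩
  mul_mem' := by
    rintro π ρ ⟨h, hh, h1⟩ ⟨h', hh', h2⟩
    refine ⟨h * h', H.mul_mem hh hh', fun x => ?_⟩
    rw [Equiv.Perm.mul_apply, h1, h2, Equiv.Perm.mul_apply]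
  inv_mem' := by
    rintro π ⟨h, hh, h1⟩
    refine ⟨h⁻¹, H.inv_mem hh, fun x => ?_⟩
    have h2 := h1 (π⁻¹ x)
    rw [show π (π⁻¹ x) = x from π.apply_symm_apply x] at h2
    rw [h2]
    exact (h.symm_apply_apply _).symm

/-- the subfields `M` of `L` which show that `L/K` has group `C₂ ≀ H` -/
def MidX (K Ω : Type) [Field K] [Field Ω] [Algebra K Ω] {X : Type} (H : Subgroup (Equiv.Perm X))
    (L M : IntermediateField K Ω) : Prop :=
  M ∈ GalX K Ω H ∧ M ≤ L ∧ FiniteDimensional K L ∧ Module.finrank K L = 2 * Module.finrank K M ∧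
    Module.finrank K (IntermediateField.normalClosure K L Ω) =
      2 ^ Module.finrank K M * Module.finrank K (IntermediateField.normalClosure K M Ω)

/-- description of the extensions with group `C₂ ≀ H` -/
def WrIffX : Prop :=
  ∀ (K Ω : Type) [Field K] [NumberField K] [Field Ω] [Algebra K Ω] [IsAlgClosure K Ω]
    (X : Type) [Finite X] (H : Subgroup (Equiv.Perm X)) (L : IntermediateField K Ω),
    L ∈ GalX K Ω (W2 H) ↔ ∃ M, MidX K Ω H L M

/-- uniqueness of `M` -/
def MidUniqueX : Prop :=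
  ∀ (K Ω : Type) [Field K] [NumberField K] [Field Ω] [Algebra K Ω] [IsAlgClosure K Ω]
    (X : Type) [Finite X] (H : Subgroup (Equiv.Perm X)) (L M M' : IntermediateField K Ω),
    MidX K Ω H L M → MidX K Ω H L M' → M = M'

/-- Kummer theory: if the normal closure of `M(√α)` over `K` is smaller than expected, a product of
conjugates of `α` is a square in the normal closure of `M` -/
def NotFullX : Prop :=
  ∀ (K Ω : Type) [Field K] [NumberField K] [Field Ω] [Algebra K Ω] [IsAlgClosure K Ω]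
    (M : IntermediateField K Ω) [FiniteDimensional K M]
    (L : IntermediateField K Ω), M ≤ L → ∀ (α : M) (s : Ω), α ≠ 0 →
    s ^ 2 = (α : Ω) → s ∉ M → L = M ⊔ IntermediateField.adjoin K {s} →
    Module.finrank K (IntermediateField.normalClosure K L Ω) ≠
      2 ^ Module.finrank K M * Module.finrank K (IntermediateField.normalClosure K M Ω) →
    ∃ (S : Finset (M →ₐ[K] Ω)) (b : Ω), S.Nonempty ∧ b ∈ IntermediateField.normalClosure K M Ω ∧
      b ^ 2 = ∏ φ ∈ S, φ α

/-- the squarefree part of an `α` with a product of conjugates a square is bad -/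
def SqBadX : Prop :=
  ∀ (K Ω : Type) [Field K] [NumberField K] [Field Ω] [Algebra K Ω] [IsAlgClosure K Ω]
    (M : IntermediateField K Ω) [FiniteDimensional K M] [NumberField M] (α : 𝓞 M)
    (𝔡 𝔠 : Ideal (𝓞 M)) (S : Finset (M →ₐ[K] Ω)) (b : Ω), α ≠ 0 →
    Squarefree 𝔡 → Ideal.span {α} = 𝔡 * 𝔠 ^ 2 → S.Nonempty →
    b ∈ IntermediateField.normalClosure K M Ω → b ^ 2 = ∏ φ ∈ S, φ (α : M) → 𝔡 ∈ badId K M

/-- totally split primes are numerous, also for extensions which are not Galois -/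
def SplitSumX : Prop :=
  ∀ (K M : Type) [Field K] [NumberField K] [Field M] [NumberField M] [Algebra K M],
    ¬ Summable (fun p : {p : Ideal (𝓞 K) // p.IsPrime ∧ p ≠ ⊥ ∧
      Set.ncard (p.primesOver (𝓞 M)) = Module.finrank K M} => (1 : ℝ) / Ideal.absNorm p.1)

/-- the sieve -/
def SieveX : Prop :=
  ∀ (K M : Type) [Field K] [NumberField K] [Field M] [NumberField M] [Algebra K M],
    Tendsto (fun Z : ℝ =>
      (Set.ncard {𝔡 : Ideal (𝓞 M) | 𝔡 ∈ badId K M ∧ (Ideal.absNorm 𝔡 : ℝ) ≤ Z} : ℝ) / Z)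
      atTop (𝓝 0)

/-- the quadratic extensions `L` of `M` with small normal closure over `K` are few -/
def BadSmallX : Prop :=
  ∀ (K Ω : Type) [Field K] [NumberField K] [Field Ω] [Algebra K Ω] [IsAlgClosure K Ω]
    (M : IntermediateField K Ω) [FiniteDimensional K M],
    Tendsto (fun Y : ℝ => (Set.ncard {L : IntermediateField K Ω | M ≤ L ∧
      Module.finrank K L = 2 * Module.finrank K M ∧
      Module.finrank K (IntermediateField.normalClosure K L Ω) ≠
        2 ^ Module.finrank K M * Module.finrank K (IntermediateField.normalClosure K M Ω) ∧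
      dsc L ≤ Y * dsc M ^ 2} : ℝ) / Y)
      atTop (𝓝 0)

/-- the discriminant of a compositum: if the number field `L` is generated by (the images of) its
subfields `F₁`, `F₂`, then `|d_L| ≤ |d_F₁| ^ [L : F₁] |d_F₂| ^ [L : F₂]` -/
def CompDisc : Prop :=
  ∀ (F₁ F₂ L : Type) [Field F₁] [NumberField F₁] [Field F₂] [NumberField F₂] [Field L]
    [NumberField L] [Algebra F₁ L] [Algebra F₂ L],
    (∀ S : Subfield L, (∀ x : F₁, algebraMap F₁ L x ∈ S) → (∀ x : F₂, algebraMap F₂ L x ∈ S) →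
      S = ⊤) →
    (discr L).natAbs ≤
      (discr F₁).natAbs ^ Module.finrank F₁ L * (discr F₂).natAbs ^ Module.finrank F₂ L

/-- few extensions with group `H`: `H` has a subgroup `U` with trivial core, and `B` is a set of
points of `X` with trivial pointwise stabilizer (a base of `H`) -/
def FewX : Prop :=
  ∀ (K Ω : Type) [Field K] [NumberField K] [Field Ω] [Algebra K Ω] [IsAlgClosure K Ω]
    (X : Type) [Finite X] (H : Subgroup (Equiv.Perm X)) (U : Subgroup H) (B : Finset X),
    U.normalCore = ⊥ → (∀ h ∈ H, (∀ x ∈ B, h x = x) → h = 1) →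
    8 * U.index * (U.index + 1) * B.card ≤ Nat.card X →
    Summable (fun M : GalX K Ω H => (dsc M.1) ^ (-(1 / 4) : ℝ))

/-- uniform counting of ideals, any exponent `> 1` -/
def IdealUnifE : Prop :=
  ∀ (D : ℕ) (ε : ℝ), 0 < ε → ∃ C : ℝ, 0 ≤ C ∧ ∀ (M : Type) [Field M] [NumberField M],
    Module.finrank ℚ M = D →
    ∀ Z : ℝ, 1 ≤ Z → {I : Ideal (𝓞 M) | I ≠ ⊥ ∧ (Ideal.absNorm I : ℝ) ≤ Z}.Finite ∧
      (Set.ncard {I : Ideal (𝓞 M) | I ≠ ⊥ ∧ (Ideal.absNorm I : ℝ) ≤ Z} : ℝ) ≤ C * Z ^ (1 + ε)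

/-- quadratic extensions: uniform upper bound, with a small power of the discriminant of `M` -/
def QuadUnifE : Prop :=
  ∀ (D : ℕ) (ε : ℝ), 0 < ε → ∃ C : ℝ, 0 ≤ C ∧ ∀ (M E : Type) [Field M] [NumberField M] [Field E]
    [Algebra M E] [IsAlgClosed E], Module.finrank ℚ M = D → ∀ Y : ℝ, 0 ≤ Y →
      (Set.ncard (QS M E Y) : ℝ) ≤
        C * ((|discr M| : ℤ) : ℝ) ^ ((1 + ε) / 2) * Y ^ (1 + ε)

end Pool.Agent.NH85.ML
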