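import Pool.Agent.NH85.ML.Out

/-!
# The weak form of Malle's conjecture passes from `H` to `C₂ ≀ H`
-/

set_option autoImplicit false

open NumberField Filter Topology IntermediateField

namespace Pool.Agent.NH85.ML

open Pool.Agent.TH444.ML

/-- summation over a set with few elements -/
theorem summable_of_count {ι : Type} (g : ι → ℝ) (hg : ∀ i, 1 ≤ g i) (C A s : ℝ)
    (hC : ∀ Z : ℝ, 1 ≤ Z → {i | g i ≤ Z}.Finite ∧ (Set.ncard {i | g i ≤ Z} : ℝ) ≤ C * Z ^ A)
    (hs : A < s) (hs0 : 0 ≤ s) : Summable (fun i => g i ^ (-s)) := by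
  classical
  have hCp : 0 ≤ C := by
    have h := (hC 1 le_rfl).2
    rw [Real.one_rpow, mul_one] at h
    exact le_trans (Nat.cast_nonneg _) h
  let κ : ι → ℕ := fun i => Nat.log 2 ⌊g i⌋₊
  have hfl : ∀ i, 1 ≤ ⌊g i⌋₊ := fun i => Nat.le_floor (by exact_mod_cast hg i)
  have hκ1 : ∀ i, (2 : ℝ) ^ (κ i) ≤ g i := by
    intro i
    have h1 : 2 ^ (κ i) ≤ ⌊g i⌋₊ := Nat.pow_log_le_self 2 (by have := hfl i; omega)
    have h2 : ((2 ^ (κ i) : ℕ) : ℝ) ≤ ⌊g i⌋₊ := by exact_mod_cast h1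
    push_cast at h2
    exact h2.trans (Nat.floor_le (by have := hg i; linarith))
  have hκ2 : ∀ i, g i ≤ (2 : ℝ) ^ (κ i + 1) := by
    intro i
    have h1 : ⌊g i⌋₊ < 2 ^ (κ i + 1) := Nat.lt_pow_succ_log_self (by norm_num) _
    have h2 : g i < ((2 ^ (κ i + 1) : ℕ) : ℝ) := (Nat.floor_lt (by have := hg i; linarith)).1 h1
    push_cast at h2
    exact h2.le
  set q : ℝ := (2 : ℝ) ^ (-(s - A)) with hq
  have hq0 : 0 < q := Real.rpow_pos_of_pos (by norm_num) _
  have hq1 : q < 1 := Real.rpow_lt_one_of_one_lt_of_neg (by norm_num) (by linarith)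
  have hgeo : Summable (fun k : ℕ => q ^ k) := summable_geometric_of_lt_one hq0.le hq1
  refine summable_of_sum_le (c := C * 2 ^ A * ∑' k : ℕ, q ^ k)
    (fun i => Real.rpow_nonneg (by have := hg i; linarith) _) ?_
  intro F
  have hterm : ∀ i, g i ^ (-s) ≤ ((2 : ℝ) ^ (κ i)) ^ (-s) := fun i =>
    Real.rpow_le_rpow_of_nonpos (by positivity) (hκ1 i) (by linarith)
  calc ∑ i ∈ F, g i ^ (-s) = ∑ k ∈ F.image κ, ∑ i ∈ F with κ i = k, g i ^ (-s) :=
        (Finset.sum_fiberwise_of_maps_to (fun i hi => Finset.mem_image_of_mem κ hi) _).symm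
    _ ≤ ∑ k ∈ F.image κ, C * 2 ^ A * q ^ k := by
        refine Finset.sum_le_sum fun k _ => ?_
        have h1 : ∑ i ∈ F with κ i = k, g i ^ (-s) ≤
            ∑ i ∈ F with κ i = k, ((2 : ℝ) ^ k) ^ (-s) := by
          refine Finset.sum_le_sum fun i hi => ?_
          have h2 := hterm i
          rw [(Finset.mem_filter.1 hi).2] at h2
          exact h2
        rw [Finset.sum_const, nsmul_eq_mul] at h1
        have h3 : ((F.filter (fun i => κ i = k)).card : ℝ) ≤ C * ((2 : ℝ) ^ (k + 1)) ^ A := by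
          obtain ⟨h4, h5⟩ := hC ((2 : ℝ) ^ (k + 1)) (one_le_pow₀ (by norm_num))
          refine le_trans ?_ h5
          have h6 : (F.filter (fun i => κ i = k)).card ≤
              Set.ncard {i | g i ≤ (2 : ℝ) ^ (k + 1)} := by
            rw [← Set.ncard_coe_finset]
            refine Set.ncard_le_ncard ?_ h4
            intro i hi
            have h7 := hκ2 i
            rw [(Finset.mem_filter.1 (Finset.mem_coe.1 hi)).2] at h7
            exact h7
          exact_mod_cast h6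
        refine h1.trans ((mul_le_mul_of_nonneg_right h3 (by positivity)).trans (le_of_eq ?_))
        have e1 : ((2 : ℝ) ^ (k + 1)) ^ A = 2 ^ A * ((2 : ℝ) ^ A) ^ k := by
          rw [← Real.rpow_natCast, ← Real.rpow_mul (by norm_num), ← Real.rpow_natCast,
            ← Real.rpow_mul (by norm_num), ← Real.rpow_add (by norm_num)]
          congr 1
          push_cast
          ring
        have e2 : ((2 : ℝ) ^ k) ^ (-s) = ((2 : ℝ) ^ (-s)) ^ k := by
          rw [← Real.rpow_natCast, ← Real.rpow_mul (by norm_num), ← Real.rpow_natCast,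
            ← Real.rpow_mul (by norm_num)]
          congr 1
          ring
        have e3 : q = (2 : ℝ) ^ A * (2 : ℝ) ^ (-s) := by
          rw [hq, ← Real.rpow_add (by norm_num)]
          congr 1
          ring
        rw [e1, e2, e3, mul_pow]
        ring
    _ = C * 2 ^ A * ∑ k ∈ F.image κ, q ^ k := by rw [Finset.mul_sum]
    _ ≤ C * 2 ^ A * ∑' k : ℕ, q ^ k := by
        refine mul_le_mul_of_nonneg_left ?_ (by positivity)
        exact hgeo.sum_le_tsum _ (fun k _ => by positivity)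

section

variable {K Ω : Type} [Field K] [NumberField K] [Field Ω] [Algebra K Ω] [IsAlgClosure K Ω]
variable {P : Type} [Finite P]

/-- finitely many fields of bounded degree and discriminant -/
theorem TTX_finite (H : Subgroup (Equiv.Perm P)) (Z : ℝ) : (TTX K Ω H Z).Finite := by
  obtain ⟨C, hC⟩ := Pool.Agent.TH979.J3100.hermiteRel K Ω (Nat.card P)
  obtain ⟨h1, -⟩ := hC (max Z 1) (le_max_right _ _)
  refine h1.subset ?_
  rintro M ⟨hM, hZ⟩
  exact ⟨hM.1, galX_card hM, hZ.trans (le_max_left _ _)⟩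

/-- polynomial upper bound with exponent `A` -/
def Upper (K Ω : Type) [Field K] [Field Ω] [Algebra K Ω] {P : Type}
    (H : Subgroup (Equiv.Perm P)) (A : ℝ) : Prop :=
  ∃ C : ℝ, 0 ≤ C ∧ ∀ Z : ℝ, 1 ≤ Z → (Set.ncard (TTX K Ω H Z) : ℝ) ≤ C * Z ^ A

theorem summable_of_upper {H : Subgroup (Equiv.Perm P)} {A s : ℝ} (h : Upper K Ω H A)
    (hs : A < s) (hs0 : 0 ≤ s) : Summable (fun M : GalX K Ω H => (dsc M.1) ^ (-s)) := by
  obtain ⟨C, -, hC⟩ := h
  refine summable_of_count (fun M : GalX K Ω H => dsc M.1) (fun M => one_le_dsc M.1) C A s ?_ hs hs0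
  intro Z hZ
  have himg : (fun M : GalX K Ω H => M.1) '' {M | dsc M.1 ≤ Z} = TTX K Ω H Z := by
    ext M
    constructor
    · rintro ⟨M', hM', rfl⟩
      exact ⟨M'.2, hM'⟩
    · rintro ⟨h1, h2⟩
      exact ⟨⟨M, h1⟩, h2, rfl⟩
  have hinj : Function.Injective (fun M : GalX K Ω H => M.1) := Subtype.val_injective
  constructor
  · refine Set.Finite.of_finite_image (f := fun M : GalX K Ω H => M.1) ?_ hinj.injOn
    rw [himg]
    exact TTX_finite H Z
  · have h1 := hC Z hZ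
    rw [← himg, Set.ncard_image_of_injective _ hinj] at h1
    exact h1

theorem dsc_sq_le {M L : IntermediateField K Ω} (hML : M ≤ L) [FiniteDimensional K M]
    [FiniteDimensional K L] (h2 : Module.finrank K L = 2 * Module.finrank K M) :
    dsc M ^ 2 ≤ dsc L := by
  have hnM : NumberField M := nf_of_fd M
  have hnL : NumberField L := nf_of_fd L
  let _ : Algebra M L := (IntermediateField.inclusion hML).toAlgebra
  have htower : IsScalarTower K M L := IsScalarTower.of_algebraMap_eq fun x => rfl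
  have hf2 : Module.finrank M L = 2 := by
    have h5 := Module.finrank_mul_finrank K M L
    rw [h2] at h5
    exact Nat.eq_of_mul_eq_mul_left Module.finrank_pos (by rw [h5]; ring)
  have h3 := natAbs_discr_eq_absNorm_differentIdeal_mul_natAbs_discr_pow M (𝓞 M) L (𝓞 L)
  rw [hf2] at h3
  have h4 : (discr L).natAbs ≠ 0 := Int.natAbs_ne_zero.2 (discr_ne_zero L)
  have h5 : (discr M).natAbs ^ 2 ∣ (discr L).natAbs := ⟨_, by rw [h3, mul_comm]⟩
  have h6 := Nat.le_of_dvd (Nat.pos_of_ne_zero h4) h5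
  rw [dsc_eq M, dsc_eq L, ← Nat.cast_natAbs, ← Nat.cast_natAbs]
  exact_mod_cast h6

/-- the upper bound for `C₂ ≀ H` -/
theorem upper_step {H : Subgroup (Equiv.Perm P)} {A : ℝ} (hA : A < 3 / 2) (h : Upper K Ω H A)
    (ε : ℝ) (hε : 0 < ε) : Upper K Ω (W2 H) (1 + ε) := by
  classical
  have hac : IsAlgClosed Ω := IsAlgClosure.isAlgClosed K
  obtain ⟨C, hC0, hC⟩ := unif_all (Module.finrank ℚ K * Nat.card P) ε hε
  set s : ℝ := 3 / 2 * (1 + ε) with hs
  have hsum : Summable (fun M : GalX K Ω H => (dsc M.1) ^ (-s)) :=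
    summable_of_upper h (by rw [hs]; linarith) (by positivity)
  have hnn : ∀ M : GalX K Ω H, 0 ≤ (dsc M.1) ^ (-s) := fun M =>
    Real.rpow_nonneg (by have := one_le_dsc M.1; linarith) _
  refine ⟨C * ∑' M : GalX K Ω H, (dsc M.1) ^ (-s), mul_nonneg hC0 (tsum_nonneg hnn), ?_⟩
  intro Z hZ
  have hZ0 : 0 < Z := by linarith
  -- the bound for a single `M`
  have hM : ∀ M : GalX K Ω H, (SMX H M.1 Z).Finite ∧
      (Set.ncard (SMX H M.1 Z) : ℝ) ≤ C * Z ^ (1 + ε) * (dsc M.1) ^ (-s) := by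
    rintro ⟨M, hM⟩
    have hfd := galX_fd hM
    have hnf : NumberField M := nf_of_fd M
    have hdeg : Module.finrank ℚ M = Module.finrank ℚ K * Nat.card P := by
      rw [← galX_card hM, Module.finrank_mul_finrank ℚ K M]
    set d : ℝ := dsc M with hd
    have hd1 : 1 ≤ d := one_le_dsc M
    have hd0 : 0 < d := by linarith
    have hsub : SMX H M Z ⊆ AS M (Z / d ^ 2) := by
      rintro L ⟨hL, hLZ⟩
      refine ⟨hL.2.1, hL.2.2.2.1, ?_⟩
      rw [← hd, div_mul_cancel₀ _ (by positivity)]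
      exact hLZ
    have hfin : (AS M (Z / d ^ 2)).Finite := finite_ASX' quadUnif M _ (by positivity)
    refine ⟨hfin.subset hsub, ?_⟩
    have h1 : (Set.ncard (SMX H M Z) : ℝ) ≤ Set.ncard (QS M Ω (Z / d ^ 2)) := by
      rw [← ncard_AS]
      exact_mod_cast Set.ncard_le_ncard hsub hfin
    have h2 := hC M Ω hdeg (Z / d ^ 2) (by positivity)
    rw [← dsc_eq M, ← hd] at h2
    refine h1.trans (h2.trans (le_of_eq ?_))
    rw [Real.div_rpow hZ0.le (by positivity)]
    have e1 : (d ^ 2) ^ (1 + ε) = d ^ (2 * (1 + ε)) := by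
      rw [← Real.rpow_natCast, ← Real.rpow_mul hd0.le]
      norm_num
    have e2 : d ^ ((1 + ε) / 2) / d ^ (2 * (1 + ε)) = d ^ (-s) := by
      rw [← Real.rpow_sub hd0]
      congr 1
      rw [hs]
      ring
    rw [e1, ← e2]
    ring
  -- the union
  have hfinH : (TTX K Ω H Z).Finite := TTX_finite H Z
  have hsubU : TTX K Ω (W2 H) Z ⊆ ⋃ M ∈ hfinH.toFinset, SMX H M Z := by
    rintro L ⟨hL, hLZ⟩
    obtain ⟨M, hML⟩ := (wrIffX K Ω P H L).1 hL
    simp only [Set.mem_iUnion, Set.Finite.mem_toFinset, exists_prop]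
    refine ⟨M, ⟨hML.1, ?_⟩, hML, hLZ⟩
    have hfd := galX_fd hML.1
    have hfdL := hML.2.2.1
    have h1 := dsc_sq_le hML.2.1 hML.2.2.2.1
    have h2 := one_le_dsc M
    nlinarith
  have hmemG : ∀ M ∈ hfinH.toFinset, M ∈ GalX K Ω H := by
    intro M hMm
    rw [Set.Finite.mem_toFinset] at hMm
    exact hMm.1
  have hU : (Set.ncard (TTX K Ω (W2 H) Z) : ℝ) ≤
      ∑ M ∈ hfinH.toFinset.attach, (Set.ncard (SMX H M.1 Z) : ℝ) := by
    have h1 : Set.ncard (TTX K Ω (W2 H) Z) ≤ Set.ncard (⋃ M ∈ hfinH.toFinset, SMX H M Z) := by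
      refine Set.ncard_le_ncard hsubU ?_
      exact Set.Finite.biUnion hfinH.toFinset.finite_toSet
        (fun M hMm => (hM ⟨M, hmemG M hMm⟩).1)
    have h2 : Set.ncard (⋃ M ∈ hfinH.toFinset, SMX H M Z) ≤
        ∑ M ∈ hfinH.toFinset, Set.ncard (SMX H M Z) :=
      Finset.set_ncard_biUnion_le _ _
    rw [Finset.sum_attach hfinH.toFinset (fun M => (Set.ncard (SMX H M Z) : ℝ))]
    exact_mod_cast h1.trans h2
  refine hU.trans ?_
  have h3 : ∑ M ∈ hfinH.toFinset.attach, (Set.ncard (SMX H M.1 Z) : ℝ) ≤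
      ∑ M ∈ hfinH.toFinset.attach, C * Z ^ (1 + ε) * (dsc M.1) ^ (-s) :=
    Finset.sum_le_sum fun M _ => (hM ⟨M.1, hmemG M.1 M.2⟩).2
  refine h3.trans ?_
  rw [← Finset.mul_sum]
  have h4 : ∑ M ∈ hfinH.toFinset.attach, (dsc M.1) ^ (-s) ≤ ∑' M : GalX K Ω H, (dsc M.1) ^ (-s) := by
    let j : {x // x ∈ hfinH.toFinset} → GalX K Ω H := fun M => ⟨M.1, hmemG M.1 M.2⟩
    have hj : Function.Injective j := fun x y hxy =>
      Subtype.ext (congrArg (fun z : GalX K Ω H => z.1) hxy)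
    have h5 := hsum.sum_le_tsum (hfinH.toFinset.attach.map ⟨j, hj⟩) (fun M _ => hnn M)
    rw [Finset.sum_map] at h5
    exact h5
  calc C * Z ^ (1 + ε) * ∑ M ∈ hfinH.toFinset.attach, (dsc M.1) ^ (-s)
      ≤ C * Z ^ (1 + ε) * ∑' M : GalX K Ω H, (dsc M.1) ^ (-s) :=
        mul_le_mul_of_nonneg_left h4 (by positivity)
    _ = _ := by ring

/-- the lower bound for `C₂ ≀ H` -/
theorem lower_step {H : Subgroup (Equiv.Perm P)} (hne : (GalX K Ω H).Nonempty) (D : ℝ)
    (hD : 0 < D) : ∃ c : ℝ, 0 < c ∧ ∀ᶠ X : ℝ in atTop, c * X ≤ Set.ncard (TTX K Ω (W2 H) (X * D)) := by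
  obtain ⟨M, hM⟩ := hne
  obtain ⟨c, hc, hlim⟩ := lim_SMX (H := H) (quadLim rest) quadPos quadUnif badSmall_all M hM D hD
  refine ⟨c / 2, by positivity, ?_⟩
  filter_upwards [hlim.eventually (lt_mem_nhds (by linarith : c / 2 < c)),
    eventually_gt_atTop (0 : ℝ)] with X h1 h2
  rw [lt_div_iff₀ h2] at h1
  refine h1.le.trans ?_
  have h3 : Set.ncard (SMX H M (X * D)) ≤ Set.ncard (TTX K Ω (W2 H) (X * D)) := by
    refine Set.ncard_le_ncard ?_ (TTX_finite _ _)
    rintro L ⟨hL, hLZ⟩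
    exact ⟨(wrIffX K Ω P H L).2 ⟨M, hL⟩, hLZ⟩
  exact_mod_cast h3

end

end Pool.Agent.NH85.ML
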