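import Pool.Agent.NH85.ML.Weak

/-!
# The weak form for permutation groups on `Fin d`, iteration
-/

set_option autoImplicit false

open NumberField Filter Topology IntermediateField

namespace Pool.Agent.NH85.ML

open Pool.Agent.TH444.ML

/-- `G ≤ S_d` is the wreath product `C₂ ≀ H`, `H` a permutation group on `Q` -/
def IsWrP {Q : Type} (H : Subgroup (Equiv.Perm Q)) {d : ℕ} (G : Subgroup (Equiv.Perm (Fin d))) :
    Prop :=
  ∃ f : Fin d ≃ Q × Bool, ∀ π : Equiv.Perm (Fin d), π ∈ G ↔ ∃ h ∈ H, ∀ i, (f (π i)).1 = h (f i).1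

theorem isWrP_of (Γ P : Type) [Group Γ] [MulAction Γ P] {d : ℕ} (G : Subgroup (Equiv.Perm (Fin d)))
    (hG : IsC2WrX Γ P G) : IsWrP (img Γ P) G := by
  obtain ⟨f, hf⟩ := hG
  refine ⟨f, fun π => ?_⟩
  rw [hf]
  constructor
  · rintro ⟨γ, h⟩
    exact ⟨MulAction.toPermHom Γ P γ, ⟨γ, rfl⟩, h⟩
  · rintro ⟨_, ⟨γ, rfl⟩, h⟩
    exact ⟨γ, h⟩

section

variable {Q : Type} {H : Subgroup (Equiv.Perm Q)} {d : ℕ} {G : Subgroup (Equiv.Perm (Fin d))}

theorem isWrP_iff (K : Type) [Field K] (hG : IsWrP H G)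
    (L : IntermediateField K (AlgebraicClosure K)) :
    HasGp K G L ↔ HasG K (AlgebraicClosure K) (W2 H) L := by
  obtain ⟨f, hf⟩ := hG
  refine hasGp_of_equiv K f _ (fun π => ?_) L
  rw [hf]
  constructor
  · rintro ⟨h, hh, h1⟩
    refine ⟨h, hh, fun x => ?_⟩
    rw [Equiv.permCongr_apply, h1, Equiv.apply_symm_apply]
  · rintro ⟨h, hh, h1⟩
    refine ⟨h, hh, fun i => ?_⟩
    have := h1 (f i)
    rw [Equiv.permCongr_apply, Equiv.symm_apply_apply] at this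
    exact this

theorem isWrP_TTX (K : Type) [Field K] [NumberField K] (hG : IsWrP H G) (Z : ℝ) :
    TTX K (AlgebraicClosure K) G Z = TTX K (AlgebraicClosure K) (W2 H) Z := by
  ext L
  constructor
  · rintro ⟨⟨h1, h2⟩, h3⟩
    exact ⟨⟨h1, (isWrP_iff K hG L).1 h2⟩, h3⟩
  · rintro ⟨⟨h1, h2⟩, h3⟩
    exact ⟨⟨h1, (isWrP_iff K hG L).2 h2⟩, h3⟩

theorem isWrP_deg (hG : IsWrP H G) : d = 2 * Nat.card Q := by
  obtain ⟨f, -⟩ := hG
  have := Nat.card_congr f
  rw [Nat.card_prod] at this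
  simpa [mul_comm] using this

theorem cnt_TTX (K : Type) [Field K] [NumberField K] (hd : 0 < d) (X : ℝ) :
    Cnt K G X = TTX K (AlgebraicClosure K) G (X * ((|discr K| : ℤ) : ℝ) ^ d) := by
  ext L
  constructor
  · rintro ⟨h1, h2, h3, h4⟩
    have hfd : FiniteDimensional K L := FiniteDimensional.of_finrank_pos (by omega)
    refine ⟨⟨hfd, h2⟩, ?_⟩
    rw [dsc_eq L]
    exact h4
  · rintro ⟨⟨hfd, h2⟩, h3⟩
    have hnf : NumberField L := nf_of_fd L
    refine ⟨?_, h2, hnf, ?_⟩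
    · have h5 := galX_card (K := K) (Ω := AlgebraicClosure K) (Pt := Fin d)
        (H := G) (M := L) ⟨hfd, h2⟩
      rw [h5, Nat.card_fin]
    · rw [dsc_eq L] at h3
      exact h3

theorem least_indP [Nonempty Q] (hG : IsWrP H G) :
    IsLeast {k : ℕ | ∃ g ∈ G, g ≠ 1 ∧ k = ind g} 1 := by
  constructor
  · obtain ⟨f, hf⟩ := hG
    obtain ⟨x⟩ := (inferInstance : Nonempty Q)
    have hab : f.symm (x, false) ≠ f.symm (x, true) := by
      intro h
      have := f.symm.injective h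
      simp at this
    refine ⟨Equiv.swap (f.symm (x, false)) (f.symm (x, true)), ?_, ?_, (ind_swap hab).symm⟩
    · rw [hf]
      refine ⟨1, H.one_mem, fun i => ?_⟩
      rw [Equiv.Perm.one_apply]
      by_cases h1 : i = f.symm (x, false)
      · subst h1; rw [Equiv.swap_apply_left]; simp
      · by_cases h2 : i = f.symm (x, true)
        · subst h2; rw [Equiv.swap_apply_right]; simp
        · rw [Equiv.swap_apply_of_ne_of_ne h1 h2]
    · intro h
      exact hab (Equiv.swap_eq_one_iff.1 h)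
  · rintro k ⟨g, -, h2, rfl⟩
    exact one_le_ind g h2

/-- `K` has an extension with group `H`, and there are `O(Z ^ A)` of them -/
structure Good (K : Type) [Field K] [NumberField K] {Q : Type} (H : Subgroup (Equiv.Perm Q))
    (A : ℝ) : Prop where
  ne : (GalX K (AlgebraicClosure K) H).Nonempty
  upper : Upper K (AlgebraicClosure K) H A

/-- the step -/
theorem good_step (K : Type) [Field K] [NumberField K] [Finite Q] (hG : IsWrP H G)
    {A : ℝ} (hA : A < 3 / 2) (h : Good K H A) (ε : ℝ) (hε : 0 < ε) : Good K G (1 + ε) := by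
  have hup := upper_step hA h.upper ε hε
  obtain ⟨c, hc, hlow⟩ := lower_step (K := K) (Ω := AlgebraicClosure K) h.ne 1 one_pos
  refine ⟨?_, ?_⟩
  · obtain ⟨X, h1, h2⟩ := (hlow.and (eventually_gt_atTop (0 : ℝ))).exists
    have h3 : 0 < (Set.ncard (TTX K (AlgebraicClosure K) (W2 H) (X * 1)) : ℝ) :=
      (mul_pos hc h2).trans_le h1
    have h4 : 0 < Set.ncard (TTX K (AlgebraicClosure K) (W2 H) (X * 1)) := by exact_mod_cast h3
    rw [← isWrP_TTX K hG] at h4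
    obtain ⟨L, hL⟩ := Set.nonempty_of_ncard_ne_zero h4.ne'
    exact ⟨L, hL.1⟩
  · obtain ⟨C, hC0, hC⟩ := hup
    refine ⟨C, hC0, fun Z hZ => ?_⟩
    rw [isWrP_TTX K hG]
    exact hC Z hZ

/-- the two bounds for `C₂ ≀ H` -/
theorem weak_bounds (K : Type) [Field K] [NumberField K] [Finite Q] [Nonempty Q]
    (hG : IsWrP H G) {A : ℝ} (hA : A < 3 / 2) (h : Good K H A) :
    (∃ c : ℝ, 0 < c ∧ ∃ X₀ : ℝ, ∀ X : ℝ, X₀ ≤ X → c * X ≤ Set.ncard (Cnt K G X)) ∧
    ∀ ε : ℝ, 0 < ε → ∃ C : ℝ, 0 < C ∧ ∃ X₀ : ℝ, ∀ X : ℝ, X₀ ≤ X →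
      (Set.ncard (Cnt K G X) : ℝ) < C * X ^ (1 + ε) := by
  have hd := isWrP_deg hG
  have hpos : 0 < Nat.card Q := Nat.card_pos
  have hd0 : 0 < d := by omega
  obtain ⟨D, hDdef⟩ : ∃ D : ℝ, D = ((|discr K| : ℤ) : ℝ) ^ d := ⟨_, rfl⟩
  have hD1 : 1 ≤ D := by
    have h1 : (1 : ℤ) ≤ |discr K| := Int.one_le_abs (discr_ne_zero K)
    have h2 : (1 : ℝ) ≤ ((|discr K| : ℤ) : ℝ) := by exact_mod_cast h1
    rw [hDdef]
    exact one_le_pow₀ h2
  have hcnt : ∀ X : ℝ, Cnt K G X = TTX K (AlgebraicClosure K) (W2 H) (X * D) := by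
    intro X
    rw [cnt_TTX K hd0, isWrP_TTX K hG, hDdef]
  constructor
  · obtain ⟨c, hc, hlow⟩ := lower_step (K := K) (Ω := AlgebraicClosure K) h.ne D (by linarith)
    obtain ⟨X₀, hX₀⟩ := eventually_atTop.1 hlow
    refine ⟨c, hc, X₀, fun X hX => ?_⟩
    rw [hcnt]
    exact hX₀ X hX
  · intro ε hε
    obtain ⟨C, hC0, hC⟩ := upper_step hA h.upper ε hε
    refine ⟨C * D ^ (1 + ε) + 1, by positivity, 1, fun X hX => ?_⟩
    rw [hcnt]
    have h1 := hC (X * D) (by nlinarith)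
    rw [Real.mul_rpow (by linarith) (by linarith)] at h1
    have h2 : (0 : ℝ) < X ^ (1 + ε) := Real.rpow_pos_of_pos (by linarith) _
    calc (Set.ncard (TTX K (AlgebraicClosure K) (W2 H) (X * D)) : ℝ)
        ≤ C * (X ^ (1 + ε) * D ^ (1 + ε)) := h1
      _ < (C * D ^ (1 + ε) + 1) * X ^ (1 + ε) := by nlinarith

end

/-- from a convergent sum to a bound -/
theorem upper_of_summable (K Ω : Type) [Field K] [NumberField K] [Field Ω] [Algebra K Ω]
    [IsAlgClosure K Ω] {P : Type} [Finite P] (H : Subgroup (Equiv.Perm P)) {A : ℝ} (hA : 0 ≤ A)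
    (h : Summable (fun M : GalX K Ω H => (dsc M.1) ^ (-A))) : Upper K Ω H A := by
  classical
  have hnn : ∀ M : GalX K Ω H, 0 ≤ (dsc M.1) ^ (-A) := fun M =>
    Real.rpow_nonneg (by have := one_le_dsc M.1; linarith) _
  refine ⟨∑' M : GalX K Ω H, (dsc M.1) ^ (-A), tsum_nonneg hnn, fun Z hZ => ?_⟩
  have hfin := TTX_finite (K := K) (Ω := Ω) H Z
  have hmem : ∀ M ∈ hfin.toFinset, M ∈ GalX K Ω H := by
    intro M hMm
    rw [Set.Finite.mem_toFinset] at hMm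
    exact hMm.1
  let j : {x // x ∈ hfin.toFinset} → GalX K Ω H := fun M => ⟨M.1, hmem M.1 M.2⟩
  have hj : Function.Injective j := fun x y hxy =>
    Subtype.ext (congrArg (fun z : GalX K Ω H => z.1) hxy)
  have h5 := h.sum_le_tsum (hfin.toFinset.attach.map ⟨j, hj⟩) (fun M _ => hnn M)
  rw [Finset.sum_map] at h5
  have h6 : ∑ M ∈ hfin.toFinset.attach, Z ^ (-A) ≤
      ∑ M ∈ hfin.toFinset.attach, (dsc (j M).1) ^ (-A) := by
    refine Finset.sum_le_sum fun M _ => ?_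
    have h7 : M.1 ∈ TTX K Ω H Z := hfin.mem_toFinset.1 M.2
    have h8 := one_le_dsc M.1
    exact Real.rpow_le_rpow_of_nonpos (by linarith) h7.2 (by linarith)
  rw [Finset.sum_const, Finset.card_attach, nsmul_eq_mul, ← Set.ncard_eq_toFinset_card _ hfin]
    at h6
  have h9 := h6.trans h5
  have hZ0 : 0 < Z := by linarith
  have h10 : (0 : ℝ) < Z ^ A := Real.rpow_pos_of_pos hZ0 _
  rw [Real.rpow_neg hZ0.le, ← div_eq_mul_inv, div_le_iff₀ h10] at h9
  exact h9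

theorem good_of_large (K : Type) [Field K] [NumberField K] (Γ P : Type) [Group Γ] [Finite Γ] [Finite P]
    [Nonempty P] [MulAction Γ P] [FaithfulSMul Γ P] [MulAction.IsPretransitive Γ P]
    (U : Subgroup Γ) (hU : U.normalCore = ⊥) (B : Finset P)
    (hB : ∀ γ : Γ, (∀ x ∈ B, γ • x = x) → γ = 1)
    (hc : 8 * U.index * (U.index + 1) * B.card ≤ Nat.card P)
    (hne : (Gal K (AlgebraicClosure K) Γ).Nonempty) : Good K (img Γ P) (1 / 4) := by
  obtain ⟨x₀⟩ := (inferInstance : Nonempty P)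
  obtain ⟨M, hM⟩ := hne
  exact ⟨galX_of_gal M hM x₀ (fun x => MulAction.exists_smul_eq Γ x₀ x),
    upper_of_summable K _ _ (by norm_num) (few_of K (AlgebraicClosure K) U hU B hB hc)⟩

/-- a bound for large `X` gives a bound for all `X ≥ 1` -/
theorem good_of_cnt (K : Type) [Field K] [NumberField K] {m : ℕ} (hm : 0 < m)
    (H : Subgroup (Equiv.Perm (Fin m))) {A : ℝ} (C X₀ : ℝ)
    (hC : ∀ X : ℝ, X₀ ≤ X → (Set.ncard (Cnt K H X) : ℝ) ≤ C * X ^ A)
    (hne : ∃ X : ℝ, 0 < Set.ncard (Cnt K H X)) : Good K H A := by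
  obtain ⟨D, hDdef⟩ : ∃ D : ℝ, D = ((|discr K| : ℤ) : ℝ) ^ m := ⟨_, rfl⟩
  have hD1 : 1 ≤ D := by
    have h1 : (1 : ℤ) ≤ |discr K| := Int.one_le_abs (discr_ne_zero K)
    have h2 : (1 : ℝ) ≤ ((|discr K| : ℤ) : ℝ) := by exact_mod_cast h1
    rw [hDdef]
    exact one_le_pow₀ h2
  have hcnt : ∀ X : ℝ, Cnt K H X = TTX K (AlgebraicClosure K) H (X * D) := by
    intro X
    rw [cnt_TTX K hm, hDdef]
  constructor
  · obtain ⟨X, hX⟩ := hne
    rw [hcnt] at hX
    obtain ⟨L, hL⟩ := Set.nonempty_of_ncard_ne_zero hX.ne'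
    exact ⟨L, hL.1⟩
  · obtain ⟨X₁, hX₁⟩ : ∃ X₁ : ℝ, X₁ = max X₀ 1 := ⟨_, rfl⟩
    have h1 : X₀ ≤ X₁ := by rw [hX₁]; exact le_max_left _ _
    have h2 : 1 ≤ X₁ := by rw [hX₁]; exact le_max_right _ _
    refine ⟨|C| * X₁ ^ A, by positivity, fun Z hZ => ?_⟩
    have h3 : TTX K (AlgebraicClosure K) H Z ⊆ Cnt K H (X₁ * Z) := by
      rw [hcnt]
      rintro L ⟨h4, h5⟩
      refine ⟨h4, h5.trans ?_⟩
      have : 1 * Z * 1 ≤ X₁ * Z * D := by
        apply mul_le_mul (mul_le_mul_of_nonneg_right h2 (by linarith)) hD1 (by norm_num)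
          (by positivity)
      linarith
    have h4 : (Cnt K H (X₁ * Z)).Finite := by rw [hcnt]; exact TTX_finite _ _
    have h5 : (Set.ncard (TTX K (AlgebraicClosure K) H Z) : ℝ) ≤ Set.ncard (Cnt K H (X₁ * Z)) := by
      exact_mod_cast Set.ncard_le_ncard h3 h4
    have h6 := hC (X₁ * Z) (by nlinarith)
    rw [Real.mul_rpow (by linarith) (by linarith)] at h6
    have h7 : 0 ≤ X₁ ^ A * Z ^ A := by positivity
    calc (Set.ncard (TTX K (AlgebraicClosure K) H Z) : ℝ) ≤ C * (X₁ ^ A * Z ^ A) := h5.trans h6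
      _ ≤ |C| * (X₁ ^ A * Z ^ A) := mul_le_mul_of_nonneg_right (le_abs_self C) h7
      _ = _ := by ring

end Pool.Agent.NH85.ML
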