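import Pool.Agent.TH713.J3096
import Pool.Agent.TH857.J3095
import Pool.Agent.NH85.ML.Defs

/-!
# Totally split primes in extensions which are not Galois; the sieve
-/

set_option autoImplicit false

open NumberField Filter Topology

namespace Pool.Agent.NH85.ML

open Pool.Agent.TH444.ML Ideal

section
variable (K M : Type) [Field K] [NumberField K] [Field M] [NumberField M] [Algebra K M]

/-- `#primes = degree` means `e = f = 1` everywhere -/
theorem ef_one (p : Ideal (𝓞 K)) (hp : p.IsPrime) (hp0 : p ≠ ⊥)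
    (hcard : Set.ncard (p.primesOver (𝓞 M)) = Module.finrank K M) (P : Ideal (𝓞 M))
    (hP : P ∈ p.primesOver (𝓞 M)) : ramificationIdx' p P = 1 ∧ inertiaDeg' p P = 1 := by
  have := hp
  have : p.IsMaximal := hp.isMaximal hp0
  have hsum := sum_ramification_inertia (𝓞 M) K M hp0
  have hc : (IsDedekindDomain.primesOverFinset p (𝓞 M)).card = Module.finrank K M := by
    rw [← hcard, ← IsDedekindDomain.coe_primesOverFinset hp0 (𝓞 M), Set.ncard_coe_finset]
  have hone : ∀ Q ∈ IsDedekindDomain.primesOverFinset p (𝓞 M),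
      1 ≤ ramificationIdx' p Q * inertiaDeg' p Q := by
    intro Q hQ
    have hQ' := (IsDedekindDomain.mem_primesOverFinset_iff hp0 (𝓞 M)).mp hQ
    have : Q.IsPrime := hQ'.1
    have : Q.LiesOver p := hQ'.2
    refine Right.one_le_mul ?_ ?_
    · exact Nat.pos_iff_ne_zero.mpr <| IsDedekindDomain.ramificationIdx'_ne_zero_of_liesOver _ hp0
    · exact Nat.pos_iff_ne_zero.mpr <| inertiaDeg'_ne_zero p Q
  have hPf : P ∈ IsDedekindDomain.primesOverFinset p (𝓞 M) :=
    (IsDedekindDomain.mem_primesOverFinset_iff hp0 (𝓞 M)).mpr hP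
  have heq : ramificationIdx' p P * inertiaDeg' p P = 1 := by
    by_contra hcon
    have h2 : 1 < ramificationIdx' p P * inertiaDeg' p P :=
      lt_of_le_of_ne (hone P hPf) (Ne.symm hcon)
    have h3 : ∑ Q ∈ IsDedekindDomain.primesOverFinset p (𝓞 M), 1 <
        ∑ Q ∈ IsDedekindDomain.primesOverFinset p (𝓞 M),
          ramificationIdx' p Q * inertiaDeg' p Q :=
      Finset.sum_lt_sum hone ⟨P, hPf, h2⟩
    rw [hsum, Finset.sum_const, smul_eq_mul, mul_one, hc] at h3
    exact lt_irrefl _ h3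
  exact ⟨Nat.eq_one_of_mul_eq_one_right heq, Nat.eq_one_of_mul_eq_one_left heq⟩

/-- conversely -/
theorem card_of_ef_one (p : Ideal (𝓞 K)) (hp : p.IsPrime) (hp0 : p ≠ ⊥)
    (h : ∀ P : Ideal (𝓞 M), P ∈ p.primesOver (𝓞 M) →
      ramificationIdx' p P = 1 ∧ inertiaDeg' p P = 1) :
    Set.ncard (p.primesOver (𝓞 M)) = Module.finrank K M := by
  have := hp
  have : p.IsMaximal := hp.isMaximal hp0
  have hsum := sum_ramification_inertia (𝓞 M) K M hp0
  rw [← hsum, ← IsDedekindDomain.coe_primesOverFinset hp0 (𝓞 M), Set.ncard_coe_finset,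
    Finset.card_eq_sum_ones]
  refine Finset.sum_congr rfl fun Q hQ => ?_
  obtain ⟨h1, h2⟩ := h Q ((IsDedekindDomain.mem_primesOverFinset_iff hp0 (𝓞 M)).mp hQ)
  rw [h1, h2]

variable (N : Type) [Field N] [NumberField N] [Algebra K N] [Algebra M N] [IsScalarTower K M N]

/-- primes which split totally in `N` split totally in `M ⊆ N` -/
theorem split_down (p : Ideal (𝓞 K)) (hp : p.IsPrime) (hp0 : p ≠ ⊥)
    (hcard : Set.ncard (p.primesOver (𝓞 N)) = Module.finrank K N) :
    Set.ncard (p.primesOver (𝓞 M)) = Module.finrank K M := by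
  refine card_of_ef_one K M p hp hp0 fun P hP => ?_
  have := hp
  have : p.IsMaximal := hp.isMaximal hp0
  have : P.IsPrime := hP.1
  have : P.LiesOver p := hP.2
  have hP0 : P ≠ ⊥ := ne_bot_of_liesOver_of_ne_bot hp0 P
  have : P.IsMaximal := hP.1.isMaximal hP0
  obtain ⟨Q, hQ⟩ := (inferInstance : Nonempty (P.primesOver (𝓞 N)))
  have : Q.IsPrime := hQ.1
  have : Q.LiesOver P := hQ.2
  have hQp : Q.LiesOver p := LiesOver.trans Q P p
  obtain ⟨h1, h2⟩ := ef_one K N p hp hp0 hcard Q ⟨hQ.1, hQp⟩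
  rw [ramificationIdx'_algebra_tower' p P Q] at h1
  rw [inertiaDeg'_algebra_tower p P Q] at h2
  exact ⟨Nat.eq_one_of_mul_eq_one_right h1, Nat.eq_one_of_mul_eq_one_right h2⟩

end

/-- the statement, given a Galois extension `N` of `K` containing `M` -/
theorem splitSum_of (K M N : Type) [Field K] [NumberField K] [Field M] [NumberField M] [Algebra K M]
    [Field N] [NumberField N] [Algebra K N] [Algebra M N] [IsScalarTower K M N] [IsGalois K N] :
    ¬ Summable (fun p : {p : Ideal (𝓞 K) // p.IsPrime ∧ p ≠ ⊥ ∧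
      Set.ncard (p.primesOver (𝓞 M)) = Module.finrank K M} => (1 : ℝ) / Ideal.absNorm p.1) := by
  intro hs
  refine Pool.Agent.TH857.J3095.splitSum K N ?_
  have hι : Function.Injective (fun p : {p : Ideal (𝓞 K) // p.IsPrime ∧ p ≠ ⊥ ∧
      Set.ncard (p.primesOver (𝓞 N)) = Module.finrank K N} =>
      (⟨p.1, p.2.1, p.2.2.1, split_down K M N p.1 p.2.1 p.2.2.1 p.2.2.2⟩ :
        {p : Ideal (𝓞 K) // p.IsPrime ∧ p ≠ ⊥ ∧
      Set.ncard (p.primesOver (𝓞 M)) = Module.finrank K M})) := by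
    intro p q h
    simp only [Subtype.mk.injEq] at h
    exact Subtype.ext h
  have h2 := hs.comp_injective hι
  exact h2.congr fun p => rfl

theorem splitSumX : SplitSumX := by
  intro K M _ _ _ _ _
  have halg : Algebra.IsAlgebraic K (AlgebraicClosure M) :=
    Algebra.IsAlgebraic.trans K M (AlgebraicClosure M)
  have hac : IsAlgClosure K (AlgebraicClosure M) := ⟨inferInstance, halg⟩
  have hnorm : Normal K (AlgebraicClosure M) := IsAlgClosure.normal K _
  have hN : NumberField (IntermediateField.normalClosure K M (AlgebraicClosure M)) :=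
    NumberField.of_module_finite K _
  have hgal : IsGalois K (IntermediateField.normalClosure K M (AlgebraicClosure M)) := ⟨⟩
  exact splitSum_of K M (IntermediateField.normalClosure K M (AlgebraicClosure M))

open Pool.Agent.TH713.J3096 in
theorem sieveX : SieveX := by
  intro K M _ _ _ _ _
  obtain ⟨κ, hκ⟩ := dens_univ (M := M)
  have hκ0 := dens_nonneg hκ
  obtain ⟨c, hc⟩ : ∃ c : ℝ, c = (Module.finrank K M : ℝ) * (1/2) ^ Module.finrank K M := ⟨_, rfl⟩
  have hfr : 0 < Module.finrank K M := Module.finrank_pos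
  have hc0 : 0 < c := by
    rw [hc]
    have : (0:ℝ) < Module.finrank K M := by exact_mod_cast hfr
    positivity
  have hns := splitSumX K M
  rw [Metric.tendsto_atTop]
  intro ε hε
  have hex : ∃ Ps : Finset (Spl K M), κ / ε / c < ∑ p ∈ Ps, 1 / (absNorm p.1 : ℝ) := by
    by_contra hcon
    push Not at hcon
    exact hns (summable_of_sum_le (fun p => by positivity) hcon)
  obtain ⟨Ps, hPs⟩ := hex
  obtain ⟨A, d, hbad, hd, hdle, -⟩ := sieveFin K M κ hκ c hc Ps
  obtain ⟨S, hS⟩ : ∃ S : ℝ, S = ∑ p ∈ Ps, 1 / (absNorm p.1 : ℝ) := ⟨_, rfl⟩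
  rw [← hS] at hdle hPs
  have hdε : d < ε := by
    have h1 : κ / ε < c * S := by
      rw [div_lt_iff₀ hc0] at hPs
      linarith
    have h2 : κ < ε * (1 + c * S) := by
      rw [div_lt_iff₀ hε] at h1
      nlinarith
    have h3 : 1 + c * S ≤ Real.exp (c * S) := by
      have := Real.add_one_le_exp (c * S)
      linarith
    have h4 : κ < ε * Real.exp (c * S) := lt_of_lt_of_le h2 (mul_le_mul_of_nonneg_left h3 hε.le)
    refine lt_of_le_of_lt hdle ?_
    rw [Real.exp_neg, ← div_eq_mul_inv, div_lt_iff₀ (Real.exp_pos _)]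
    exact h4
  have hev : ∀ᶠ Z : ℝ in atTop, (cnt A Z : ℝ) / Z < ε := hd.eventually (gt_mem_nhds hdε)
  obtain ⟨Z0, hZ0⟩ := Filter.eventually_atTop.mp (hev.and (eventually_gt_atTop 0))
  refine ⟨Z0, fun Z hZ => ?_⟩
  obtain ⟨h1, h2⟩ := hZ0 Z hZ
  rw [Real.dist_eq, sub_zero, abs_of_nonneg (by positivity)]
  refine lt_of_le_of_lt ?_ h1
  apply div_le_div_of_nonneg_right _ h2.le
  unfold cnt
  apply Nat.cast_le.mpr
  apply Set.ncard_le_ncard _ (fin A Z)
  rintro 𝔡 ⟨h3, h4⟩
  exact ⟨hbad h3, h3.1.ne_zero, h4⟩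

end Pool.Agent.NH85.ML
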