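import Pool.Agent.TH444.ML.Tr
import Pool.Agent.NH85.ML.Defs

/-!
# Assembly of the asymptotic formula, `H` any permutation group

The proof is that of `Pool/Agent/TH444/ML/Main.lean`.
-/

set_option autoImplicit false
set_option linter.unusedSectionVars false

open NumberField Filter Topology

namespace Pool.Agent.NH85.ML

open Pool.Agent.TH444.ML

section

variable {K Ω : Type} [Field K] [NumberField K] [Field Ω] [Algebra K Ω] [IsAlgClosure K Ω]
variable {Pt : Type} [Finite Pt] {H : Subgroup (Equiv.Perm Pt)}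

/-- the extensions with group `C₂ ≀ H` above `M`, of bounded discriminant -/
def SMX (H : Subgroup (Equiv.Perm Pt)) (M : IntermediateField K Ω) (Z : ℝ) :
    Set (IntermediateField K Ω) :=
  {L | MidX K Ω H L M ∧ dsc L ≤ Z}

/-- the others -/
def BMX (M : IntermediateField K Ω) (Y : ℝ) : Set (IntermediateField K Ω) :=
  {L : IntermediateField K Ω | M ≤ L ∧
      Module.finrank K L = 2 * Module.finrank K M ∧
      Module.finrank K (IntermediateField.normalClosure K L Ω) ≠
        2 ^ Module.finrank K M * Module.finrank K (IntermediateField.normalClosure K M Ω) ∧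
      dsc L ≤ Y * dsc M ^ 2}

theorem galX_fd {M : IntermediateField K Ω} (hM : M ∈ GalX K Ω H) : FiniteDimensional K M := hM.1

theorem galX_card {M : IntermediateField K Ω} (hM : M ∈ GalX K Ω H) :
    Module.finrank K M = Nat.card Pt := by
  have hfd := hM.1
  have hac : IsAlgClosed Ω := IsAlgClosure.isAlgClosed K
  obtain ⟨e, -⟩ := hM.2
  rw [← Nat.card_congr e, Nat.card_eq_fintype_card, AlgHom.card]

theorem SMX_union (M : IntermediateField K Ω) (hM : M ∈ GalX K Ω H) (Y : ℝ) :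
    SMX H M (Y * dsc M ^ 2) ∪ BMX M Y = AS M Y := by
  have := galX_fd hM
  ext L
  constructor
  · rintro (h | h)
    · exact ⟨h.1.2.1, h.1.2.2.2.1, h.2⟩
    · exact ⟨h.1, h.2.1, h.2.2.2⟩
  · rintro ⟨h1, h2, h3⟩
    by_cases hn : Module.finrank K (IntermediateField.normalClosure K L Ω) =
        2 ^ Module.finrank K M * Module.finrank K (IntermediateField.normalClosure K M Ω)
    · left
      exact ⟨⟨hM, h1, fd_of_AS h2, h2, hn⟩, h3⟩
    · right
      exact ⟨h1, h2, hn, h3⟩

theorem SMX_disj (M : IntermediateField K Ω) (Y : ℝ) :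
    Disjoint (SMX H M (Y * dsc M ^ 2)) (BMX M Y) := by
  rw [Set.disjoint_left]
  rintro L h1 h2
  exact h2.2.2.1 h1.1.2.2.2.2

theorem finite_ASX' (hq : QuadUnif) (M : IntermediateField K Ω) [FiniteDimensional K M] (Y : ℝ)
    (hY : 0 ≤ Y) : (AS M Y).Finite := by
  have hnf : NumberField M := nf_of_fd M
  have : IsAlgClosed Ω := IsAlgClosure.isAlgClosed K
  obtain ⟨C, hC⟩ := hq (Module.finrank ℚ M)
  exact finite_AS M Y (hC M Ω rfl Y hY).1

/-- the limit for a fixed `M` -/
theorem lim_SMX (hl : QuadLim) (hp : QuadPos) (hu : QuadUnif) (hb : BadSmallX)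
    (M : IntermediateField K Ω) (hM : M ∈ GalX K Ω H) (D : ℝ) (hD : 0 < D) :
    ∃ c : ℝ, 0 < c ∧
      Tendsto (fun X : ℝ => (Set.ncard (SMX H M (X * D)) : ℝ) / X) atTop (𝓝 c) := by
  have hfd := galX_fd hM
  have hnf : NumberField M := nf_of_fd M
  have hac : IsAlgClosed Ω := IsAlgClosure.isAlgClosed K
  obtain ⟨c, hc⟩ := hl M Ω
  have hc0 : 0 ≤ c := by
    refine ge_of_tendsto hc ?_
    filter_upwards [eventually_ge_atTop (0 : ℝ)] with Y hY
    positivity
  have hc1 : c ≠ 0 := by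
    intro h
    rw [h] at hc
    exact hp M Ω hc
  have hcpos : 0 < c := lt_of_le_of_ne hc0 (Ne.symm hc1)
  set d : ℝ := dsc M with hd
  have hd1 : 1 ≤ d := one_le_dsc M
  have hd0 : 0 < d := by linarith
  have hdd : 0 < D / d ^ 2 := by positivity
  have hbad := hb K Ω M
  -- substitution `Y = X D / d ^ 2`
  have hsub : Tendsto (fun X : ℝ => X * (D / d ^ 2)) atTop atTop :=
    tendsto_id.atTop_mul_const hdd
  have h1 := (hc.comp hsub).mul_const (D / d ^ 2)
  have h2 := (hbad.comp hsub).mul_const (D / d ^ 2)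
  refine ⟨c * (D / d ^ 2), by positivity, ?_⟩
  have h3 := h1.sub h2
  rw [zero_mul, sub_zero] at h3
  refine h3.congr' ?_
  filter_upwards [eventually_gt_atTop (0 : ℝ)] with X hX
  have hY : 0 ≤ X * (D / d ^ 2) := by positivity
  have hfin := finite_ASX' hu M (X * (D / d ^ 2)) hY
  have hun := SMX_union M hM (X * (D / d ^ 2))
  have hdis := SMX_disj (H := H) M (X * (D / d ^ 2))
  have hXD : X * (D / d ^ 2) * dsc M ^ 2 = X * D := by
    rw [← hd]; field_simp
  rw [hXD] at hun hdis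
  have hf1 : (SMX H M (X * D)).Finite := hfin.subset (by rw [← hun]; exact Set.subset_union_left)
  have hf2 : (BMX M (X * (D / d ^ 2))).Finite :=
    hfin.subset (by rw [← hun]; exact Set.subset_union_right)
  have hcard : Set.ncard (SMX H M (X * D)) + Set.ncard (BMX M (X * (D / d ^ 2))) =
      Set.ncard (QS M Ω (X * (D / d ^ 2))) := by
    rw [← Set.ncard_union_eq hdis hf1 hf2, hun, ncard_AS]
  have hcard' : (Set.ncard (SMX H M (X * D)) : ℝ) =
      Set.ncard (QS M Ω (X * (D / d ^ 2))) - Set.ncard (BMX M (X * (D / d ^ 2))) := by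
    rw [← hcard]; push_cast; ring
  rw [hcard']
  simp only [Function.comp]
  have e1 : ∀ a : ℝ, a / (X * (D / d ^ 2)) * (D / d ^ 2) = a / X := by
    intro a
    have : D / d ^ 2 ≠ 0 := hdd.ne'
    field_simp
  rw [e1]
  have e2 : (Set.ncard {L : IntermediateField K Ω | M ≤ L ∧
      Module.finrank K L = 2 * Module.finrank K M ∧
      Module.finrank K (IntermediateField.normalClosure K L Ω) ≠
        2 ^ Module.finrank K M * Module.finrank K (IntermediateField.normalClosure K M Ω) ∧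
        dsc L ≤ X * (D / d ^ 2) * dsc M ^ 2} : ℝ) / (X * (D / d ^ 2)) * (D / d ^ 2) =
      (Set.ncard (BMX M (X * (D / d ^ 2))) : ℝ) / X := by
    rw [e1]; rfl
  rw [e2]
  ring

/-- the uniform bound -/
theorem bound_SMX (hu : QuadUnif) (H : Subgroup (Equiv.Perm Pt)) (D : ℝ) (hD : 0 < D) :
    ∃ C : ℝ, 0 ≤ C ∧ ∀ M : IntermediateField K Ω, M ∈ GalX K Ω H → ∀ X : ℝ, 0 < X →
      (SMX H M (X * D)).Finite ∧
      (Set.ncard (SMX H M (X * D)) : ℝ) ≤ C * X * (dsc M) ^ (-(1 / 4) : ℝ) := by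
  have hac : IsAlgClosed Ω := IsAlgClosure.isAlgClosed K
  obtain ⟨C, hC⟩ := hu (Module.finrank ℚ K * Nat.card Pt)
  refine ⟨max C 0 * D, by positivity, ?_⟩
  intro M hM X hX
  have hfd := galX_fd hM
  have hnf : NumberField M := nf_of_fd M
  have hcard : Module.finrank K M = Nat.card Pt := galX_card hM
  have hdeg : Module.finrank ℚ M = Module.finrank ℚ K * Nat.card Pt := by
    rw [← hcard, Module.finrank_mul_finrank ℚ K M]
  set d : ℝ := dsc M with hd
  have hd1 : 1 ≤ d := one_le_dsc M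
  have hd0 : 0 < d := by linarith
  set Y : ℝ := X * (D / d ^ 2) with hYdef
  have hY : 0 ≤ Y := by positivity
  have hXD : Y * dsc M ^ 2 = X * D := by
    rw [← hd, hYdef]; field_simp
  have hun := SMX_union M hM Y
  rw [hXD] at hun
  have hfin := finite_ASX' hu M Y hY
  have hf1 : (SMX H M (X * D)).Finite := hfin.subset (by rw [← hun]; exact Set.subset_union_left)
  refine ⟨hf1, ?_⟩
  have h1 : Set.ncard (SMX H M (X * D)) ≤ Set.ncard (QS M Ω Y) := by
    rw [← ncard_AS, ← hun]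
    exact Set.ncard_le_ncard Set.subset_union_left (by rw [hun]; exact hfin)
  have h2 := (hC M Ω hdeg Y hY).2
  rw [← dsc_eq M, ← hd] at h2
  have h3 : (Set.ncard (SMX H M (X * D)) : ℝ) ≤ C * d ^ (7 / 4 : ℝ) * Y :=
    le_trans (by exact_mod_cast h1) h2
  refine h3.trans ?_
  have h4 : d ^ (7 / 4 : ℝ) * (d ^ 2)⁻¹ = d ^ (-(1 / 4) : ℝ) := by
    rw [← Real.rpow_natCast, ← Real.rpow_neg hd0.le, ← Real.rpow_add hd0]
    norm_num
  have h5 : C * d ^ (7 / 4 : ℝ) * Y = C * (D * X * d ^ (-(1 / 4) : ℝ)) := by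
    rw [hYdef, ← h4]
    ring
  rw [h5]
  have h6 : C * (D * X * d ^ (-(1 / 4) : ℝ)) ≤ max C 0 * (D * X * d ^ (-(1 / 4) : ℝ)) := by
    apply mul_le_mul_of_nonneg_right (le_max_left _ _)
    positivity
  refine h6.trans (le_of_eq ?_)
  ring

/-- the extensions of `K` with group `C₂ ≀ H` -/
def TTX (K Ω : Type) [Field K] [Field Ω] [Algebra K Ω] {T : Type} (G : Subgroup (Equiv.Perm T))
    (Z : ℝ) : Set (IntermediateField K Ω) :=
  {L | L ∈ GalX K Ω G ∧ dsc L ≤ Z}

theorem TTX_eq (hw : WrIffX) (Z : ℝ) : TTX K Ω (W2 H) Z = ⋃ M : GalX K Ω H, SMX H M.1 Z := by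
  ext L
  simp only [Set.mem_iUnion]
  constructor
  · rintro ⟨h1, h3⟩
    obtain ⟨M, hM⟩ := (hw K Ω Pt H L).1 h1
    exact ⟨⟨M, hM.1⟩, hM, h3⟩
  · rintro ⟨M, hM, h3⟩
    exact ⟨(hw K Ω Pt H L).2 ⟨M.1, hM⟩, h3⟩

theorem main_asympX (hl : QuadLim) (hp : QuadPos) (hu : QuadUnif) (hb : BadSmallX) (hw : WrIffX)
    (hm : MidUniqueX)
    (hsum : Summable (fun M : GalX K Ω H => (dsc M.1) ^ (-(1 / 4) : ℝ)))
    (hne : (GalX K Ω H).Nonempty) (D : ℝ) (hD : 0 < D) :
    (∀ X : ℝ, 0 < X → (TTX K Ω (W2 H) (X * D)).Finite) ∧ ∃ c : ℝ, 0 < c ∧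
      Tendsto (fun X : ℝ => (Set.ncard (TTX K Ω (W2 H) (X * D)) : ℝ) / X) atTop (𝓝 c) := by
  classical
  obtain ⟨C, hC0, hC⟩ := bound_SMX (K := K) (Ω := Ω) hu H D hD
  choose cM hcM using fun M : GalX K Ω H => lim_SMX (H := H) hl hp hu hb M.1 M.2 D hD
  have hsum' : Summable (fun M : GalX K Ω H => C * (dsc M.1) ^ (-(1 / 4) : ℝ)) := hsum.mul_left C
  -- for fixed `X`
  have key : ∀ X : ℝ, 0 < X → (TTX K Ω (W2 H) (X * D)).Finite ∧
      (Set.ncard (TTX K Ω (W2 H) (X * D)) : ℝ) =
        ∑' M : GalX K Ω H, (Set.ncard (SMX H M.1 (X * D)) : ℝ) := by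
    intro X hX
    have hs1 : Summable (fun M : GalX K Ω H => (Set.ncard (SMX H M.1 (X * D)) : ℝ)) := by
      refine Summable.of_nonneg_of_le (fun M => by positivity)
        (fun M => (hC M.1 M.2 X hX).2) ?_
      have : (fun M : GalX K Ω H => C * X * (dsc M.1) ^ (-(1 / 4) : ℝ)) =
          fun M : GalX K Ω H => X * (C * (dsc M.1) ^ (-(1 / 4) : ℝ)) := by
        funext M; ring
      rw [this]
      exact hsum'.mul_left X
    have hfs : {M : GalX K Ω H | (SMX H M.1 (X * D)).Nonempty}.Finite := by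
      have h := hs1.tendsto_cofinite_zero.eventually (gt_mem_nhds (zero_lt_one (α := ℝ)))
      rw [Filter.eventually_cofinite] at h
      refine h.subset ?_
      intro M hM
      simp only [Set.mem_ofPred_eq, not_lt]
      have hf := (hC M.1 M.2 X hX).1
      have : 0 < Set.ncard (SMX H M.1 (X * D)) := (Set.ncard_pos hf).2 hM
      exact_mod_cast this
    have hT : TTX K Ω (W2 H) (X * D) = ⋃ M ∈ hfs.toFinset, SMX H M.1 (X * D) := by
      rw [TTX_eq hw]
      ext L
      simp only [Set.mem_iUnion, Set.Finite.mem_toFinset, Set.mem_ofPred_eq, exists_prop]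
      constructor
      · rintro ⟨M, hM⟩
        exact ⟨M, ⟨L, hM⟩, hM⟩
      · rintro ⟨M, -, hM⟩
        exact ⟨M, hM⟩
    have hTf : (TTX K Ω (W2 H) (X * D)).Finite := by
      rw [hT]
      exact Set.Finite.biUnion hfs.toFinset.finite_toSet (fun M _ => (hC M.1 M.2 X hX).1)
    refine ⟨hTf, ?_⟩
    have hTb : hTf.toFinset =
        hfs.toFinset.biUnion (fun M => ((hC M.1 M.2 X hX).1).toFinset) := by
      ext L
      rw [Set.Finite.mem_toFinset, hT]
      simp only [Set.mem_iUnion, Finset.mem_biUnion, Set.Finite.mem_toFinset, exists_prop]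
    have hcard : (TTX K Ω (W2 H) (X * D)).ncard =
        ∑ M ∈ hfs.toFinset, (SMX H M.1 (X * D)).ncard := by
      rw [Set.ncard_eq_toFinset_card _ hTf, hTb, Finset.card_biUnion]
      · refine Finset.sum_congr rfl fun M _ => ?_
        exact (Set.ncard_eq_toFinset_card _ (hC M.1 M.2 X hX).1).symm
      · intro M _ M' _ hMM
        simp only [Function.onFun]
        rw [Finset.disjoint_left]
        intro L h1 h2'
        rw [Set.Finite.mem_toFinset] at h1 h2'
        exact hMM (Subtype.ext (hm K Ω Pt H L M.1 M'.1 h1.1 h2'.1))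
    rw [hcard, tsum_eq_sum (s := hfs.toFinset)]
    · push_cast; rfl
    · intro M hM
      have : ¬ (SMX H M.1 (X * D)).Nonempty := by
        intro h; exact hM (by simpa using h)
      rw [Set.not_nonempty_iff_eq_empty] at this
      rw [this]; simp
  refine ⟨fun X hX => (key X hX).1, ∑' M : GalX K Ω H, cM M, ?_, ?_⟩
  · have hle : ∀ M : GalX K Ω H, cM M ≤ C * (dsc M.1) ^ (-(1 / 4) : ℝ) := by
      intro M
      refine le_of_tendsto (hcM M).2 ?_
      filter_upwards [eventually_gt_atTop (0 : ℝ)] with X hX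
      rw [div_le_iff₀ hX]
      have := (hC M.1 M.2 X hX).2
      linarith
    have hs : Summable cM :=
      Summable.of_nonneg_of_le (fun M => (hcM M).1.le) hle hsum'
    obtain ⟨M₀, hM₀⟩ := hne
    exact hs.tsum_pos (fun M => (hcM M).1.le) ⟨M₀, hM₀⟩ (hcM _).1
  · have h := tendsto_tsum_of_dominated_convergence (𝓕 := atTop)
      (f := fun (X : ℝ) (M : GalX K Ω H) => (Set.ncard (SMX H M.1 (X * D)) : ℝ) / X)
      (g := cM) hsum' (fun M => (hcM M).2) (by
        filter_upwards [eventually_gt_atTop (0 : ℝ)] with X hX M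
        rw [Real.norm_of_nonneg (by positivity), div_le_iff₀ hX]
        have := (hC M.1 M.2 X hX).2
        linarith)
    refine h.congr' ?_
    filter_upwards [eventually_gt_atTop (0 : ℝ)] with X hX
    rw [(key X hX).2, tsum_div_const]

end

end Pool.Agent.NH85.ML
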