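import Pool.Agent.NH85.ML.Defs
import Pool.Agent.TH111.J3097

/-!
# Kummer theory: if the normal closure of `M(√α)` is smaller than expected, a nonempty product of
conjugates of `α` is a square in the normal closure of `M`
-/

set_option autoImplicit false

namespace Pool.Agent.NH85.ML

theorem notFullX : NotFullX := by
  intro K Ω _ _ _ _ _ M _ L hML α s hα hs hsM hL hne
  classical
  by_contra hcon
  push Not at hcon
  apply hne
  have hac : IsAlgClosed Ω := IsAlgClosure.isAlgClosed K
  have hnorm : Normal K Ω := IsAlgClosure.normal K Ω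
  have halg : Algebra.IsAlgebraic K Ω := IsAlgClosure.isAlgebraic
  set N : IntermediateField K Ω := IntermediateField.normalClosure K M Ω with hN
  have halgN : Algebra.IsAlgebraic N Ω := Algebra.IsAlgebraic.tower_top (K := K) N
  have h2 : (2 : N) ≠ 0 := by
    have : CharZero K := inferInstance
    have : CharZero N := charZero_of_injective_algebraMap (algebraMap K N).injective
    exact two_ne_zero
  have hmemN : ∀ (φ : M →ₐ[K] Ω) (m : M), φ m ∈ N := by
    intro φ m
    rw [hN, normalClosure_def]
    exact (le_iSup (fun f : M →ₐ[K] Ω => f.fieldRange) φ) ⟨m, rfl⟩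
  have hMN : ∀ m ∈ M, m ∈ N := fun m hm => hmemN M.val ⟨m, hm⟩
  have hex : ∀ φ : M →ₐ[K] Ω, ∃ t : Ω, t ^ 2 = algebraMap N Ω ⟨φ α, hmemN φ α⟩ := fun φ =>
    IsAlgClosed.exists_pow_nat_eq _ two_pos
  choose η hη using hex
  have hη' : ∀ φ, η φ ^ 2 = φ α := hη
  have hcon' : ∀ S : Finset (M →ₐ[K] Ω), S.Nonempty →
      ¬ IsSquare (∏ φ ∈ S, (⟨φ α, hmemN φ α⟩ : N)) := by
    rintro S hS ⟨r, hr⟩
    apply hcon S (r : Ω) hS r.2
    have h3 := congrArg (algebraMap N Ω) hr
    rw [map_prod, map_mul] at h3
    rw [sq]
    exact h3.symm
  have hdeg := Pool.Agent.TH111.J3097.finrank_mq' h2 hη hcon'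
  have hcard : Fintype.card (M →ₐ[K] Ω) = Module.finrank K M := AlgHom.card K M Ω
  -- two square roots of the same element
  have hroot : ∀ (E : IntermediateField K Ω) (u v : Ω), u ^ 2 = v ^ 2 → v ∈ E → u ∈ E := by
    intro E u v h hv
    rcases sq_eq_sq_iff_eq_or_eq_neg.1 h with rfl | rfl
    · exact hv
    · exact neg_mem hv
  have hNC : (IntermediateField.adjoin N (Set.range η)).restrictScalars K =
      IntermediateField.normalClosure K L Ω := by
    apply le_antisymm
    · have hM : N ≤ IntermediateField.normalClosure K L Ω :=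
        IntermediateField.normalClosure_mono _ _ hML
      have h3 : IntermediateField.adjoin N (Set.range η) ≤
          IntermediateField.extendScalars hM := by
        rw [IntermediateField.adjoin_le_iff]
        rintro _ ⟨φ, rfl⟩
        show η φ ∈ IntermediateField.normalClosure K L Ω
        let σ : Ω →ₐ[K] Ω := φ.liftNormal Ω
        have hσ : ∀ m : M, σ (m : Ω) = φ m := fun m => φ.liftNormal_commutes Ω m
        apply hroot _ (η φ) (σ s)
        · rw [hη', ← map_pow, hs]
          exact (hσ α).symm
        · rw [IntermediateField.normalClosure_def']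
          have h4 : L.map σ ≤ ⨆ f : Ω →ₐ[K] Ω, L.map f :=
            le_iSup (fun f : Ω →ₐ[K] Ω => L.map f) σ
          apply h4
          refine ⟨s, ?_, rfl⟩
          rw [hL]
          exact (le_sup_right : IntermediateField.adjoin K {s} ≤ _)
            (IntermediateField.mem_adjoin_simple_self K s)
      exact h3
    · rw [IntermediateField.normalClosure_def']
      apply iSup_le
      intro σ
      rw [hL, IntermediateField.map_sup, IntermediateField.adjoin_map, Set.image_singleton]
      apply sup_le
      · rintro _ ⟨m, hm, rfl⟩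
        show σ m ∈ IntermediateField.adjoin N (Set.range η)
        exact IntermediateField.algebraMap_mem (IntermediateField.adjoin N (Set.range η))
          ⟨σ m, hmemN (σ.comp M.val) ⟨m, hm⟩⟩
      · rw [IntermediateField.adjoin_simple_le_iff]
        show σ s ∈ (IntermediateField.adjoin N (Set.range η)).restrictScalars K
        apply hroot _ (σ s) (η (σ.comp M.val))
        · rw [hη', ← map_pow, hs]
          rfl
        · exact IntermediateField.subset_adjoin N _ ⟨_, rfl⟩
  rw [← hNC, ← hcard, ← hdeg]
  have h7 := Module.finrank_mul_finrank K N (IntermediateField.adjoin N (Set.range η))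
  rw [mul_comm, h7]
  rfl

end Pool.Agent.NH85.ML
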