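import Pool.Agent.TH293.J3093
import Pool.Agent.NH85.ML.Defs

/-!
# Uniform upper bound for the number of quadratic extensions, small exponents

The proof follows `Pool/Agent/TH293/J3093.lean`.
-/

set_option autoImplicit false

open NumberField Filter Topology

namespace Pool.Agent.NH85.ML

open Pool.Agent.TH444.ML Pool.Agent.TH293.J3093

theorem quadUnifE (h1 : DiscQuad) (h2 : KumP) (h3 : IdealUnifE) : QuadUnifE := by
  classical
  intro D ε hε
  obtain ⟨CI, hCI0, hCI⟩ := h3 D ε hε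
  have hE0 : (0 : ℝ) < 1 + ε := by linarith
  refine ⟨CI * (2 ^ D) ^ (1 + ε) * (CI * (4 ^ D) ^ (1 + ε)) * 2 ^ D, by positivity, ?_⟩
  intro M E _ _ _ _ _ hD Y hY
  set d : ℝ := ((|discr M| : ℤ) : ℝ) with hd
  have hd1 : 1 ≤ d := disc_pos M
  have hd0 : 0 ≤ d := by linarith
  set δ : ℝ := d ^ (1 / 2 : ℝ) with hδ
  have hδ1 : 1 ≤ δ := Real.one_le_rpow hd1 (by norm_num)
  obtain ⟨k, hk⟩ := h1 M
  obtain ⟨rep, hrep, hrep0, hinj, hrepN⟩ := exists_rep M
  rw [hD] at hrepN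
  obtain ⟨kum1, kum2, -⟩ := h2 M E rep hrep
  obtain ⟨par, hpar⟩ := exists_par M
  obtain ⟨w, hw⟩ := exists_gen M
  -- finiteness of the ideals of bounded norm
  have hIfin : ∀ Z : ℝ, 1 ≤ Z → {I : Ideal (𝓞 M) | I ≠ ⊥ ∧ (Ideal.absNorm I : ℝ) ≤ Z}.Finite :=
    fun Z hZ => (hCI M hD Z hZ).1
  have hIcard : ∀ Z : ℝ, 1 ≤ Z →
      (Set.ncard {I : Ideal (𝓞 M) | I ≠ ⊥ ∧ (Ideal.absNorm I : ℝ) ≤ Z} : ℝ) ≤
        CI * Z ^ (1 + ε) := fun Z hZ => (hCI M hD Z hZ).2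
  -- the class number
  have hcl : (Fintype.card (ClassGroup (𝓞 M)) : ℝ) ≤ CI * (2 ^ D * δ) ^ (1 + ε) := by
    have hZ : (1 : ℝ) ≤ 2 ^ D * δ := by
      have : (1 : ℝ) ≤ 2 ^ D := one_le_pow₀ (by norm_num)
      nlinarith
    refine le_trans ?_ (hIcard _ hZ)
    rw [← Nat.card_eq_fintype_card, ← Set.ncard_univ]
    have h5 : (Set.univ : Set (ClassGroup (𝓞 M))).ncard ≤
        {I : Ideal (𝓞 M) | I ≠ ⊥ ∧ (Ideal.absNorm I : ℝ) ≤ 2 ^ D * δ}.ncard :=
      Set.ncard_le_ncard_of_injOn rep (fun C _ => ⟨hrep0 C, hrepN C⟩)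
        (fun C _ C' _ h => hinj h) (hIfin _ hZ)
    exact_mod_cast h5
  -- data of an extension
  have hdata : ∀ L : IntermediateField M E, ∃ (C : ClassGroup (𝓞 M)) (α : 𝓞 M) (s : E)
      (𝔡 : Ideal (𝓞 M)),
      Module.finrank M L = 2 → (α ≠ 0 ∧ Squarefree 𝔡 ∧ Ideal.span {α} = 𝔡 * rep C ^ 2) ∧
        s ^ 2 = algebraMap M E (α : M) ∧ (∀ x : M, algebraMap M E x ≠ s) ∧
        L = IntermediateField.adjoin M {s} := by
    intro L
    by_cases h : Module.finrank M L = 2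
    · obtain ⟨C, α, s, ⟨h5, 𝔡, h6, h7⟩, h8⟩ := kum1 L h
      exact ⟨C, α, s, 𝔡, fun _ => ⟨⟨h5, h6, h7⟩, h8⟩⟩
    · exact ⟨ClassGroup.mk0 1, 0, 0, ⊥, fun h' => absurd h' h⟩
  choose cl al sq dd hdat using hdata
  have hLP : ∀ L ∈ QS M E Y, 1 ≤ 4 ^ D * Y ∧ dd L ≠ ⊥ ∧
      (Ideal.absNorm (dd L) : ℝ) ≤ 4 ^ D * Y := by
    rintro L ⟨hL2, hNF, hLd⟩
    obtain ⟨⟨hα0, hsf, h𝔡⟩, hs, hsM, hLs⟩ := hdat L hL2
    have h𝔡0 : dd L ≠ 0 := hsf.ne_zero
    have hN1 : (1 : ℝ) ≤ Ideal.absNorm (dd L) := by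
      have : Ideal.absNorm (dd L) ≠ 0 := by
        rw [Ne, Ideal.absNorm_eq_zero_iff]
        exact h𝔡0
      exact_mod_cast Nat.one_le_iff_ne_zero.2 this
    have hsL : sq L ∈ L := by
      have h5 := IntermediateField.mem_adjoin_simple_self M (sq L)
      rw [← hLs] at h5
      exact h5
    have hdisc := hk.disc L (⟨sq L, hsL⟩ : L) (al L) (dd L) (rep (cl L)) hL2
      (by
        apply Subtype.ext
        exact hs) (by
        intro x hx
        exact hsM x (congrArg Subtype.val hx)) hα0 hsf h𝔡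
    have hk1 := hk.le (rep (cl L)) (al L) (hrep0 _)
    rw [hD] at hdisc hk1
    have hdiscR : ((|discr L| : ℤ) : ℝ) * (k (rep (cl L)) (al L) : ℝ) ^ 2 =
        4 ^ D * d ^ 2 * Ideal.absNorm (dd L) := by
      have e1 : ((|discr L| : ℤ) : ℝ) = ((discr L).natAbs : ℝ) := by
        rw [Int.abs_eq_natAbs]
        exact Int.cast_natCast _
      have e2 : d = ((discr M).natAbs : ℝ) := by
        rw [hd, Int.abs_eq_natAbs]
        exact Int.cast_natCast _
      rw [e1, e2]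
      exact_mod_cast hdisc
    have hkR : (k (rep (cl L)) (al L) : ℝ) ≤ 4 ^ D := by exact_mod_cast hk1
    have hk0 : (0 : ℝ) ≤ (k (rep (cl L)) (al L) : ℝ) := Nat.cast_nonneg _
    have hLd' : ((|discr L| : ℤ) : ℝ) ≤ Y * d ^ 2 := by
      have e3 : ((discr M : ℤ) : ℝ) ^ 2 = d ^ 2 := by
        rw [hd]
        push_cast
        rw [sq_abs]
      rw [← e3]
      exact hLd
    have hL0 : (0 : ℝ) ≤ ((|discr L| : ℤ) : ℝ) := by positivity
    have hNd : (Ideal.absNorm (dd L) : ℝ) ≤ 4 ^ D * Y := by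
      have h4 : (0 : ℝ) < 4 ^ D := by positivity
      have hd2 : (0 : ℝ) < d ^ 2 := by positivity
      have e4 : 4 ^ D * d ^ 2 * (Ideal.absNorm (dd L) : ℝ) ≤ 4 ^ D * d ^ 2 * (4 ^ D * Y) := by
        rw [← hdiscR]
        calc ((|discr L| : ℤ) : ℝ) * (k (rep (cl L)) (al L) : ℝ) ^ 2
            ≤ (Y * d ^ 2) * (4 ^ D) ^ 2 := by gcongr
          _ = 4 ^ D * d ^ 2 * (4 ^ D * Y) := by ring
      exact le_of_mul_le_mul_left e4 (by positivity)
    exact ⟨hN1.trans hNd, h𝔡0, hNd⟩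
  have hC0 : (0 : ℝ) ≤ CI * (2 ^ D) ^ (1 + ε) * (CI * (4 ^ D) ^ (1 + ε)) * 2 ^ D := by positivity
  rcases Set.eq_empty_or_nonempty (QS M E Y) with hemp | ⟨L0, hL0⟩
  · rw [hemp, Set.ncard_empty, Nat.cast_zero]
    exact mul_nonneg (mul_nonneg hC0 (Real.rpow_nonneg hd0 _)) (Real.rpow_nonneg hY _)
  have hY1 : 1 ≤ 4 ^ D * Y := (hLP L0 hL0).1
  set P : Set (Ideal (𝓞 M)) := {I | I ≠ ⊥ ∧ (Ideal.absNorm I : ℝ) ≤ 4 ^ D * Y} with hP
  have hPfin : P.Finite := hIfin _ hY1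
  have hPcard : (P.ncard : ℝ) ≤ CI * (4 ^ D * Y) ^ (1 + ε) := hIcard _ hY1
  -- the map
  let W := Bool × (Fin (Units.rank M) → Bool)
  let Φ : IntermediateField M E → ClassGroup (𝓞 M) × Ideal (𝓞 M) × W :=
    fun L => (cl L, dd L, par (w (al L)))
  let T : Finset (ClassGroup (𝓞 M) × Ideal (𝓞 M) × W) :=
    Finset.univ ×ˢ (hPfin.toFinset ×ˢ Finset.univ)
  have hmaps : ∀ L ∈ QS M E Y, Φ L ∈ (T : Set (ClassGroup (𝓞 M) × Ideal (𝓞 M) × W)) := by
    intro L hL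
    rw [Finset.mem_coe, Finset.mem_product, Finset.mem_product]
    exact ⟨Finset.mem_univ _, hPfin.mem_toFinset.2 (hLP L hL).2, Finset.mem_univ _⟩
  have hinjΦ : Set.InjOn Φ (QS M E Y) := by
    rintro L ⟨hL2, -⟩ L' ⟨hL2', -⟩ hΦ
    obtain ⟨⟨hα0, -, h6⟩, hs, -, hLs⟩ := hdat L hL2
    obtain ⟨⟨hα0', -, h6'⟩, hs', -, hLs'⟩ := hdat L' hL2'
    have e0 : cl L = cl L' := (Prod.ext_iff.1 hΦ).1
    have e1' : dd L = dd L' := (Prod.ext_iff.1 (Prod.ext_iff.1 hΦ).2).1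
    have e1 : Ideal.span {al L} = Ideal.span {al L'} := by rw [h6, h6', e0, e1']
    have e2 : par (w (al L)) = par (w (al L')) := (Prod.ext_iff.1 (Prod.ext_iff.1 hΦ).2).2
    obtain ⟨v, hv⟩ := hpar _ _ e2
    have e3 := hw _ _ e1
    rw [hv] at e3
    push_cast at e3
    have e4 : al L' = (v : 𝓞 M) ^ 2 * al L := by
      have hwu : ((w (al L) : (𝓞 M)ˣ) : 𝓞 M) ≠ 0 := Units.ne_zero _
      apply mul_right_cancel₀ hwu
      rw [e3]
      ring
    have e5 : (sq L') ^ 2 = (algebraMap M E ((v : 𝓞 M) : M) * sq L) ^ 2 := by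
      rw [mul_pow, hs, hs', e4, ← map_pow, ← map_mul]
      push_cast
      rfl
    have hv0 : ((v : 𝓞 M) : M) ≠ 0 := by
      have : (v : 𝓞 M) ≠ 0 := Units.ne_zero v
      exact fun h => this (RingOfIntegers.ext h)
    have hsub : ∀ (x : M) (y z : E), x ≠ 0 → y = algebraMap M E x * z →
        IntermediateField.adjoin M {y} = IntermediateField.adjoin M {z} := by
      intro x y z hx hy
      apply le_antisymm
      · rw [IntermediateField.adjoin_simple_le_iff, hy]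
        exact mul_mem (IntermediateField.algebraMap_mem _ x)
          (IntermediateField.mem_adjoin_simple_self M z)
      · rw [IntermediateField.adjoin_simple_le_iff]
        have : z = algebraMap M E x⁻¹ * y := by
          rw [hy, ← mul_assoc, ← map_mul, inv_mul_cancel₀ hx, map_one, one_mul]
        rw [this]
        exact mul_mem (IntermediateField.algebraMap_mem _ _)
          (IntermediateField.mem_adjoin_simple_self M y)
    rw [hLs, hLs']
    rcases sq_eq_sq_iff_eq_or_eq_neg.1 e5 with h | h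
    · exact (hsub _ _ _ hv0 h).symm
    · refine (hsub (-((v : 𝓞 M) : M)) _ _ (neg_ne_zero.2 hv0) ?_).symm
      rw [h, map_neg, neg_mul]
  have hcard : (QS M E Y).ncard ≤ T.card := by
    rw [← Set.ncard_coe_finset]
    exact Set.ncard_le_ncard_of_injOn Φ hmaps hinjΦ T.finite_toSet
  have hT : (T.card : ℝ) ≤ (Fintype.card (ClassGroup (𝓞 M)) : ℝ) *
      ((CI * (4 ^ D * Y) ^ (1 + ε)) * 2 ^ D) := by
    have e2 : T.card = Fintype.card (ClassGroup (𝓞 M)) * (P.ncard * Fintype.card W) := by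
      rw [Finset.card_product, Finset.card_product, Set.ncard_eq_toFinset_card _ hPfin,
        Finset.card_univ, Finset.card_univ]
    have e3 : (Fintype.card W : ℝ) ≤ 2 ^ D := by
      have := card_par M
      rw [hD] at this
      exact_mod_cast this
    rw [e2]
    push_cast
    gcongr
  have hδ0 : 0 ≤ δ := by linarith
  calc ((QS M E Y).ncard : ℝ) ≤ (T.card : ℝ) := by exact_mod_cast hcard
    _ ≤ _ := hT
    _ ≤ (CI * (2 ^ D * δ) ^ (1 + ε)) * ((CI * (4 ^ D * Y) ^ (1 + ε)) * 2 ^ D) :=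
        mul_le_mul_of_nonneg_right hcl (by positivity)
    _ = _ := by
      rw [Real.mul_rpow (by positivity) hδ0, Real.mul_rpow (by positivity) hY]
      have e6 : d ^ ((1 + ε) / 2) = δ ^ (1 + ε) := by
        rw [hδ, ← Real.rpow_mul hd0]
        congr 1
        ring
      rw [e6]
      ring

end Pool.Agent.NH85.ML
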