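import Pool.Agent.TH444.ML.Done
import Pool.Agent.NH85.ML.Bad
import Pool.Agent.NH85.ML.Ideal
import Pool.Agent.NH85.ML.Unif
import Pool.Agent.NH85.ML.Main
import Pool.Agent.NH85.ML.NotFull
import Pool.Agent.NH85.ML.SqBad
import Pool.Agent.NH85.ML.Wr
import Pool.Agent.NH85.ML.Comp
import Pool.Agent.NH85.ML.Few

/-!
# The asymptotic formula for `C₂ ≀ H`, `H` a transitive group of large degree
-/

set_option autoImplicit false

open NumberField Filter Topology IntermediateField

namespace Pool.Agent.NH85.ML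

open Pool.Agent.TH444.ML

theorem badSmall_all : BadSmallX :=
  badSmallX Pool.Agent.TH263.J3086.discQuad Pool.Agent.TH914.J3087.kumP notFullX sqBadX sieveX

theorem few_all : FewX := fewX compDisc Pool.Agent.TH979.J3100.hermiteRel

theorem unif_all : QuadUnifE :=
  quadUnifE Pool.Agent.TH263.J3086.discQuad Pool.Agent.TH914.J3087.kumP idealUnifE

/-- the extensions with group `C₂ ≀ H` and bounded discriminant -/
theorem asympX (K Ω : Type) [Field K] [NumberField K] [Field Ω] [Algebra K Ω] [IsAlgClosure K Ω]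
    {P : Type} [Finite P] (H : Subgroup (Equiv.Perm P))
    (hsum : Summable (fun M : GalX K Ω H => (dsc M.1) ^ (-(1 / 4) : ℝ)))
    (hne : (GalX K Ω H).Nonempty) (D : ℝ) (hD : 0 < D) :
    (∀ X : ℝ, 0 < X → (TTX K Ω (W2 H) (X * D)).Finite) ∧ ∃ c : ℝ, 0 < c ∧
      Tendsto (fun X : ℝ => (Set.ncard (TTX K Ω (W2 H) (X * D)) : ℝ) / X) atTop (𝓝 c) :=
  main_asympX (quadLim rest) quadPos quadUnif badSmall_all wrIffX midUniqueX hsum hne D hD

section real

variable {K Ω : Type} [Field K] [NumberField K] [Field Ω] [Algebra K Ω] [IsAlgClosure K Ω]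
variable {Γ : Type} [Group Γ] [Finite Γ] {P : Type} [MulAction Γ P]

/-- the permutations of `P` which are given by `Γ` -/
abbrev img (Γ P : Type) [Group Γ] [MulAction Γ P] : Subgroup (Equiv.Perm P) :=
  (MulAction.toPermHom Γ P).range

/-- a Galois extension with group `Γ` has a subfield with group `Γ`, acting on `P` -/
theorem galX_of_gal (N : IntermediateField K Ω) (hN : N ∈ Gal K Ω Γ) (x₀ : P)
    (ht : ∀ x : P, ∃ γ : Γ, γ • x₀ = x) : (GalX K Ω (img Γ P)).Nonempty := by
  obtain ⟨hfd, hgal, ⟨g⟩⟩ := hN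
  have i1 : IsAlgClosed Ω := IsAlgClosure.isAlgClosed K
  have i2 : Normal K Ω := IsAlgClosure.normal K Ω
  have i3 : Algebra.IsAlgebraic K Ω := IsAlgClosure.isAlgebraic
  have i4 : Algebra.IsSeparable K Ω := inferInstance
  have i5 : IsGalois K Ω := ⟨⟩
  obtain ⟨r, hr⟩ : ∃ r : (Ω ≃ₐ[K] Ω) →* Γ,
      r = g.toMonoidHom.comp (AlgEquiv.restrictNormalHom (F := K) (K₁ := Ω) N) := ⟨_, rfl⟩
  have hrs : Function.Surjective r := by
    rw [hr]
    exact g.surjective.comp (AlgEquiv.restrictNormalHom_surjective Ω)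
  have hrk : N.fixingSubgroup ≤ r.ker := by
    intro σ hσ
    rw [← restrictNormalHom_ker N, MonoidHom.mem_ker] at hσ
    rw [MonoidHom.mem_ker, hr, MonoidHom.comp_apply, hσ, map_one]
  obtain ⟨S, hS⟩ : ∃ S : Subgroup (Ω ≃ₐ[K] Ω), S = (MulAction.stabilizer Γ x₀).comap r := ⟨_, rfl⟩
  have hmemS : ∀ σ, σ ∈ S ↔ r σ • x₀ = x₀ := by
    intro σ
    rw [hS, Subgroup.mem_comap, MulAction.mem_stabilizer_iff]
  have hle : N.fixingSubgroup ≤ S := by
    intro σ hσ
    rw [hmemS, MonoidHom.mem_ker.1 (hrk hσ), one_smul]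
  have hopen : IsOpen (S : Set (Ω ≃ₐ[K] Ω)) := Subgroup.isOpen_mono hle N.fixingSubgroup_isOpen
  have hclosed : IsClosed (S : Set (Ω ≃ₐ[K] Ω)) := Subgroup.isClosed_of_isOpen _ hopen
  obtain ⟨M, hMdef⟩ : ∃ M, M = fixedField S := ⟨_, rfl⟩
  have hM : M.fixingSubgroup = S := by
    rw [hMdef]
    exact InfiniteGalois.fixingSubgroup_fixedField ⟨S, hclosed⟩
  have hMfd : FiniteDimensional K M := by
    rw [← InfiniteGalois.isOpen_iff_finite, hM]
    exact hopen
  have hlift : ∀ φ : M →ₐ[K] Ω, ∃ σ : Ω ≃ₐ[K] Ω, ∀ x : M, σ x = φ x := by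
    intro φ
    obtain ⟨σ, hσ⟩ := exists_act M φ
    refine ⟨σ, fun x => ?_⟩
    have := congrArg (fun ψ : M →ₐ[K] Ω => ψ x) hσ
    exact this
  choose s hs using hlift
  have hiff : ∀ σ τ : Ω ≃ₐ[K] Ω, (∀ x : M, σ x = τ x) ↔ r σ • x₀ = r τ • x₀ := by
    intro σ τ
    have h1 : (∀ x : M, σ x = τ x) ↔ τ⁻¹ * σ ∈ M.fixingSubgroup := by
      rw [IntermediateField.mem_fixingSubgroup_iff]
      constructor
      · intro h x hx
        rw [AlgEquiv.mul_apply, h ⟨x, hx⟩]
        exact τ.symm_apply_apply x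
      · intro h x
        have h2 := h x x.2
        rw [AlgEquiv.mul_apply] at h2
        have h3 := congrArg τ h2
        rw [← h3]
        exact (τ.apply_symm_apply _).symm
    rw [h1, hM, hmemS, map_mul, map_inv, mul_smul, inv_smul_eq_iff]
  let e0 : (M →ₐ[K] Ω) → P := fun φ => r (s φ) • x₀
  have he0 : ∀ (φ : M →ₐ[K] Ω) (σ : Ω ≃ₐ[K] Ω), (∀ x : M, σ x = φ x) → e0 φ = r σ • x₀ := by
    intro φ σ h
    refine (hiff _ _).1 fun x => ?_
    rw [hs φ x, h x]
  have hb : Function.Bijective e0 := by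
    constructor
    · intro φ ψ h
      ext x
      rw [← hs φ x, ← hs ψ x]
      exact (hiff _ _).2 h x
    · intro x
      obtain ⟨γ, rfl⟩ := ht x
      obtain ⟨σ, rfl⟩ := hrs γ
      exact ⟨σ.toAlgHom.comp M.val, he0 _ σ fun x => rfl⟩
  refine ⟨M, hMfd, Equiv.ofBijective e0 hb, fun π => ?_⟩
  have hact : ∀ (σ : Ω ≃ₐ[K] Ω) (φ : M →ₐ[K] Ω), e0 (σ.toAlgHom.comp φ) = r σ • e0 φ := by
    intro σ φ
    rw [he0 (σ.toAlgHom.comp φ) (σ * s φ) (fun x => ?_), map_mul, mul_smul]
    rw [AlgEquiv.mul_apply, hs φ x]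
    rfl
  constructor
  · rintro ⟨γ, rfl⟩
    obtain ⟨σ, rfl⟩ := hrs γ
    exact ⟨σ, fun φ => hact σ φ⟩
  · rintro ⟨σ, hσ⟩
    refine ⟨r σ, ?_⟩
    ext1 x
    obtain ⟨φ, rfl⟩ := hb.2 x
    exact (hact σ φ).symm.trans (hσ φ)

/-- the sum over the fields with group `Γ`, acting on `P`, converges -/
theorem few_of (K Ω : Type) [Field K] [NumberField K] [Field Ω] [Algebra K Ω] [IsAlgClosure K Ω]
    {Γ P : Type} [Group Γ] [Finite P] [MulAction Γ P] [FaithfulSMul Γ P] (U : Subgroup Γ)
    (hU : U.normalCore = ⊥) (B : Finset P) (hB : ∀ γ : Γ, (∀ x ∈ B, γ • x = x) → γ = 1)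
    (hc : 8 * U.index * (U.index + 1) * B.card ≤ Nat.card P) :
    Summable (fun M : GalX K Ω (img Γ P) => (dsc M.1) ^ (-(1 / 4) : ℝ)) := by
  have hinj : Function.Injective (MulAction.toPermHom Γ P) := MulAction.toPerm_injective
  let e : Γ ≃* img Γ P := MonoidHom.ofInjective hinj
  have hidx : (U.map e.toMonoidHom).index = U.index :=
    Subgroup.index_map_equiv U e
  have hcore : (U.map e.toMonoidHom).normalCore = ⊥ := by
    rw [eq_bot_iff]
    have h1 : ((U.map e.toMonoidHom).normalCore).comap e.toMonoidHom ≤ U.normalCore := by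
      have hn : (((U.map e.toMonoidHom).normalCore).comap e.toMonoidHom).Normal := inferInstance
      rw [Subgroup.normal_le_normalCore]
      intro x hx
      have h2 := Subgroup.normalCore_le _ (Subgroup.mem_comap.1 hx)
      obtain ⟨y, hy, hxy⟩ := Subgroup.mem_map.1 h2
      rw [← e.injective hxy]
      exact hy
    rw [hU] at h1
    intro x hx
    obtain ⟨y, rfl⟩ := e.surjective x
    have h2 : y ∈ (⊥ : Subgroup Γ) := h1 (Subgroup.mem_comap.2 hx)
    rw [Subgroup.mem_bot] at h2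
    rw [h2, map_one]
    exact Subgroup.one_mem _
  refine few_all K Ω P (img Γ P) (U.map e.toMonoidHom) B hcore ?_ ?_
  · rintro _ ⟨γ, rfl⟩ h
    rw [hB γ h, map_one]
  · rw [hidx]
    exact hc

/-- a base of small cardinality -/
theorem exists_base (Γ P : Type) [Group Γ] [Finite Γ] [MulAction Γ P] [FaithfulSMul Γ P] :
    ∃ B : Finset P, (∀ γ : Γ, (∀ x ∈ B, γ • x = x) → γ = 1) ∧ B.card ≤ Nat.log 2 (Nat.card Γ) := by
  classical
  have key : ∀ (n : ℕ) (S : Subgroup Γ), Nat.card S ≤ n →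
      ∃ B : Finset P, (∀ γ ∈ S, (∀ x ∈ B, γ • x = x) → γ = 1) ∧ 2 ^ B.card ≤ Nat.card S := by
    intro n
    induction n with
    | zero =>
      intro S hS
      have : 0 < Nat.card S := Nat.card_pos
      omega
    | succ n ih =>
      intro S hS
      by_cases htriv : ∀ γ ∈ S, γ = 1
      · exact ⟨∅, fun γ hγ _ => htriv γ hγ, by
          rw [Finset.card_empty, pow_zero]
          exact Nat.card_pos⟩
      · push Not at htriv
        obtain ⟨γ, hγ, hγ1⟩ := htriv
        have hx : ∃ x : P, γ • x ≠ x := by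
          by_contra hcon
          push Not at hcon
          exact hγ1 (eq_of_smul_eq_smul (α := P) fun x => by rw [hcon x, one_smul])
        obtain ⟨x, hx⟩ := hx
        let S' : Subgroup Γ := S ⊓ MulAction.stabilizer Γ x
        have hle : S' ≤ S := inf_le_left
        have hne : S' ≠ S := by
          intro h
          have : γ ∈ S' := by rw [h]; exact hγ
          exact hx (MulAction.mem_stabilizer_iff.1 (Subgroup.mem_inf.1 this).2)
        have hdvd : Nat.card S' ∣ Nat.card S := Subgroup.card_dvd_of_le hle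
        have hpos : 0 < Nat.card S := Nat.card_pos
        have hpos' : 0 < Nat.card S' := Nat.card_pos
        have hlt : Nat.card S' ≠ Nat.card S := by
          intro h
          exact hne (Subgroup.eq_of_le_of_card_ge hle h.ge)
        have h2 : 2 * Nat.card S' ≤ Nat.card S := by
          obtain ⟨k, hk⟩ := hdvd
          have : 2 ≤ k := by
            by_contra hk2
            have : k = 0 ∨ k = 1 := by omega
            rcases this with rfl | rfl
            · omega
            · omega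
          nlinarith
        obtain ⟨B, hB1, hB2⟩ := ih S' (by omega)
        refine ⟨insert x B, ?_, ?_⟩
        · intro δ hδ h
          refine hB1 δ ?_ fun y hy => h y (Finset.mem_insert_of_mem hy)
          exact Subgroup.mem_inf.2 ⟨hδ, MulAction.mem_stabilizer_iff.2
            (h x (Finset.mem_insert_self x B))⟩
        · calc 2 ^ (insert x B).card ≤ 2 ^ (B.card + 1) :=
                Nat.pow_le_pow_right (by norm_num) (Finset.card_insert_le x B)
            _ = 2 * 2 ^ B.card := by ring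
            _ ≤ 2 * Nat.card S' := by omega
            _ ≤ Nat.card S := h2
  obtain ⟨B, hB1, hB2⟩ := key (Nat.card (⊤ : Subgroup Γ)) ⊤ le_rfl
  refine ⟨B, fun γ h => hB1 γ (Subgroup.mem_top γ) h, ?_⟩
  rw [Subgroup.card_top] at hB2
  exact Nat.le_log_of_pow_le (by norm_num) hB2

end real

end Pool.Agent.NH85.ML
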