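import Pool.Agent.NH85.ML.All

/-!
# Permutation groups on `Fin d`
-/

set_option autoImplicit false

open NumberField Filter Topology IntermediateField

namespace Pool.Agent.NH85.ML

open Pool.Agent.TH444.ML

/-- `G ≤ S_d` is the wreath product `C₂ ≀ Γ`, `Γ` acting on `P` -/
def IsC2WrX (Γ P : Type) [Group Γ] [MulAction Γ P] {d : ℕ} (G : Subgroup (Equiv.Perm (Fin d))) :
    Prop :=
  ∃ f : Fin d ≃ P × Bool, ∀ π : Equiv.Perm (Fin d), π ∈ G ↔ ∃ γ : Γ, ∀ i, (f (π i)).1 = γ • (f i).1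

section

variable {Γ P : Type} [Group Γ] [MulAction Γ P] {d : ℕ} {G : Subgroup (Equiv.Perm (Fin d))}

theorem isC2WrX_deg [Finite P] (hG : IsC2WrX Γ P G) : d = 2 * Nat.card P := by
  obtain ⟨f, -⟩ := hG
  have := Nat.card_congr f
  rw [Nat.card_prod] at this
  simpa [mul_comm] using this

theorem mem_W2_img (π : Equiv.Perm (P × Bool)) :
    π ∈ W2 (img Γ P) ↔ ∃ γ : Γ, ∀ x, (π x).1 = γ • x.1 := by
  constructor
  · rintro ⟨h, ⟨γ, rfl⟩, h1⟩
    exact ⟨γ, h1⟩
  · rintro ⟨γ, h1⟩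
    exact ⟨MulAction.toPermHom Γ P γ, ⟨γ, rfl⟩, h1⟩

/-- a group of permutations of `Fin d` and its transport along a bijection with `Q` -/
theorem hasGp_of_equiv (K : Type) [Field K] {Q : Type} (f : Fin d ≃ Q) (H : Subgroup (Equiv.Perm Q))
    (h : ∀ π : Equiv.Perm (Fin d), π ∈ G ↔ f.permCongr π ∈ H)
    (L : IntermediateField K (AlgebraicClosure K)) :
    HasGp K G L ↔ HasG K (AlgebraicClosure K) H L := by
  constructor
  · rintro ⟨e, he⟩
    refine ⟨e.trans f, fun π => ?_⟩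
    have h1 := h (f.permCongr.symm π)
    rw [Equiv.apply_symm_apply] at h1
    rw [← h1, he]
    constructor
    · rintro ⟨σ, hσ⟩
      refine ⟨σ, fun φ => ?_⟩
      rw [Equiv.trans_apply, hσ φ, Equiv.permCongr_symm_apply, Equiv.apply_symm_apply]
      rfl
    · rintro ⟨σ, hσ⟩
      refine ⟨σ, fun φ => ?_⟩
      have h2 := hσ φ
      rw [Equiv.trans_apply, Equiv.trans_apply] at h2
      rw [Equiv.permCongr_symm_apply, ← h2, Equiv.symm_apply_apply]
  · rintro ⟨e, he⟩
    refine ⟨e.trans f.symm, fun π => ?_⟩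
    rw [h π, he]
    constructor
    · rintro ⟨σ, hσ⟩
      refine ⟨σ, fun φ => ?_⟩
      rw [Equiv.trans_apply, hσ φ, Equiv.permCongr_apply, Equiv.symm_apply_apply]
      rfl
    · rintro ⟨σ, hσ⟩
      refine ⟨σ, fun φ => ?_⟩
      have h2 := hσ φ
      rw [Equiv.trans_apply, Equiv.trans_apply] at h2
      rw [Equiv.permCongr_apply, ← h2, Equiv.apply_symm_apply]

theorem hasGp_iffX (K : Type) [Field K] (hG : IsC2WrX Γ P G)
    (L : IntermediateField K (AlgebraicClosure K)) :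
    HasGp K G L ↔ HasG K (AlgebraicClosure K) (W2 (img Γ P)) L := by
  obtain ⟨f, hf⟩ := hG
  refine hasGp_of_equiv K f _ (fun π => ?_) L
  rw [hf, mem_W2_img]
  constructor
  · rintro ⟨γ, h⟩
    refine ⟨γ, fun x => ?_⟩
    rw [Equiv.permCongr_apply, h, Equiv.apply_symm_apply]
  · rintro ⟨γ, h⟩
    refine ⟨γ, fun i => ?_⟩
    have := h (f i)
    rw [Equiv.permCongr_apply, Equiv.symm_apply_apply] at this
    exact this

theorem cnt_eqX (K : Type) [Field K] [NumberField K] [Finite P] [Nonempty P]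
    (hG : IsC2WrX Γ P G) (X : ℝ) :
    Cnt K G X = TTX K (AlgebraicClosure K) (W2 (img Γ P)) (X * ((|discr K| : ℤ) : ℝ) ^ d) := by
  have hn := isC2WrX_deg hG
  have hpos : 0 < Nat.card P := Nat.card_pos
  ext L
  constructor
  · rintro ⟨h1, h2, h3, h4⟩
    have hfd : FiniteDimensional K L := FiniteDimensional.of_finrank_pos (by omega)
    refine ⟨⟨hfd, (hasGp_iffX K hG L).1 h2⟩, ?_⟩
    rw [dsc_eq L]
    exact h4
  · rintro ⟨⟨hfd, h2⟩, h3⟩
    have hnf : NumberField L := nf_of_fd L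
    refine ⟨?_, (hasGp_iffX K hG L).2 h2, hnf, ?_⟩
    · have h5 := galX_card (K := K) (Ω := AlgebraicClosure K) (Pt := P × Bool)
        (H := W2 (img Γ P)) (M := L) ⟨hfd, h2⟩
      rw [h5, Nat.card_prod, hn, mul_comm]
      simp
    · rw [dsc_eq L] at h3
      exact h3

theorem least_indX [Nonempty P] (hG : IsC2WrX Γ P G) :
    IsLeast {k : ℕ | ∃ g ∈ G, g ≠ 1 ∧ k = ind g} 1 := by
  constructor
  · obtain ⟨f, hf⟩ := hG
    obtain ⟨x⟩ := (inferInstance : Nonempty P)
    have hab : f.symm (x, false) ≠ f.symm (x, true) := by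
      intro h
      have := f.symm.injective h
      simp at this
    refine ⟨Equiv.swap (f.symm (x, false)) (f.symm (x, true)), ?_, ?_, (ind_swap hab).symm⟩
    · rw [hf]
      refine ⟨1, fun i => ?_⟩
      rw [one_smul]
      by_cases h1 : i = f.symm (x, false)
      · subst h1; rw [Equiv.swap_apply_left]; simp
      · by_cases h2 : i = f.symm (x, true)
        · subst h2; rw [Equiv.swap_apply_right]; simp
        · rw [Equiv.swap_apply_of_ne_of_ne h1 h2]
    · intro h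
      exact hab (Equiv.swap_eq_one_iff.1 h)
  · rintro k ⟨g, -, h2, rfl⟩
    exact one_le_ind g h2

/-- the asymptotic formula -/
theorem asymp_out (K : Type) [Field K] [NumberField K] [Finite P]
    [Nonempty P] (hG : IsC2WrX Γ P G)
    (hsum : Summable (fun M : GalX K (AlgebraicClosure K) (img Γ P) => (dsc M.1) ^ (-(1 / 4) : ℝ)))
    (hne : (GalX K (AlgebraicClosure K) (img Γ P)).Nonempty) :
    (∀ X : ℝ, 0 < X → (Cnt K G X).Finite) ∧ ∃ c : ℝ, 0 < c ∧
      Tendsto (fun X : ℝ => (Set.ncard (Cnt K G X) : ℝ) / X) atTop (𝓝 c) := by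
  have hd : 0 < ((|discr K| : ℤ) : ℝ) ^ d := by
    have : (0 : ℤ) < |discr K| := abs_pos.2 (discr_ne_zero K)
    have : (0 : ℝ) < ((|discr K| : ℤ) : ℝ) := by exact_mod_cast this
    positivity
  have h := asympX K (AlgebraicClosure K) (img Γ P) hsum hne _ hd
  simp only [cnt_eqX K hG]
  exact h

/-- the group exists -/
theorem existsX (Γ P : Type) [Group Γ] [MulAction Γ P] [Finite P] [MulAction.IsPretransitive Γ P] :
    ∃ (d : ℕ) (G : Subgroup (Equiv.Perm (Fin d))), d = 2 * Nat.card P ∧ IsC2WrX Γ P G ∧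
      ∀ i j : Fin d, ∃ g ∈ G, g i = j := by
  have hcard : Nat.card (P × Bool) = 2 * Nat.card P := by
    rw [Nat.card_prod, mul_comm]
    simp
  let f : Fin (2 * Nat.card P) ≃ P × Bool := (Finite.equivFinOfCardEq hcard).symm
  let G : Subgroup (Equiv.Perm (Fin (2 * Nat.card P))) :=
    { carrier := {π | ∃ γ : Γ, ∀ i, (f (π i)).1 = γ • (f i).1}
      one_mem' := ⟨1, fun i => by simp⟩
      mul_mem' := by
        rintro π ρ ⟨h, hh⟩ ⟨h', hh'⟩
        refine ⟨h * h', fun i => ?_⟩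
        rw [Equiv.Perm.mul_apply, hh, hh', mul_smul]
      inv_mem' := by
        rintro π ⟨h, hh⟩
        refine ⟨h⁻¹, fun i => ?_⟩
        have h1 := hh (π⁻¹ i)
        rw [show π (π⁻¹ i) = i from π.apply_symm_apply i] at h1
        rw [h1, inv_smul_smul] }
  refine ⟨2 * Nat.card P, G, rfl, ⟨f, fun π => Iff.rfl⟩, fun i j => ?_⟩
  obtain ⟨γ, hγ⟩ := MulAction.exists_smul_eq Γ (f i).1 (f j).1
  let t : Equiv.Perm (P × Bool) :=
    (MulAction.toPerm γ).prodCongr (Equiv.swap (f i).2 (f j).2)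
  refine ⟨f.trans (t.trans f.symm), ⟨γ, fun x => ?_⟩, ?_⟩
  · simp [t]
  · change f.symm (t (f i)) = j
    rw [Equiv.symm_apply_eq]
    exact Prod.ext (by simp [t, hγ]) (by simp [t])

end

end Pool.Agent.NH85.ML
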